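import Pool.Agent.Q72.GN.Tame

/-!
Derivations are bounded on valuation rings above a valuation ring which they preserve.
-/

open Polynomial

namespace Pool.Agent.Q72.GN

section seid

variable {L K : Type} [Field L] [Field K] [Algebra L K]

lemma isIntegral_of_forall (R : ValuationSubring L) (x : K)
    (h : ∀ V' : ValuationSubring K, (∀ r : R, algebraMap R K r ∈ V') → x ∈ V') : IsIntegral R x := by
  by_contra hx
  have hx' : x ∉ (integralClosure R K).toSubring := hx
  have : IsIntegrallyClosedIn (integralClosure R K).toSubring K :=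
    inferInstanceAs (IsIntegrallyClosedIn (integralClosure R K) K)
  obtain ⟨V', h1, h2⟩ := Subring.exists_le_valuationSubring_of_isIntegrallyClosedIn hx'
  exact h2 (h V' fun r => h1 ((integralClosure R K).algebraMap_mem r))

/-- Elements of a valuation ring are fractions of integral elements. -/
theorem exists_integral_frac [Algebra.IsAlgebraic L K] (V : ValuationSubring K) {z : K}
    (hz : z ∈ V) : ∃ b : K, V.valuation b = 1 ∧ IsIntegral (V.comap (algebraMap L K)) b ∧
      IsIntegral (V.comap (algebraMap L K)) (z * b) := by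
  obtain ⟨g, -, hgz, hgi, i1, hi1⟩ := exists_relation (L := L) V z (Nat.lt_succ_self _)
  have hzv : V.valuation z ≤ 1 := (V.valuation_le_one_iff _).2 hz
  set N := g.natDegree with hN
  let a : ℕ → K := fun i => algebraMap L K (g.coeff i)
  let B : ℕ → K := fun j => ∑ i ∈ Finset.range (N + 1 - j), a (i + j) * z ^ i
  have hB0 : B 0 = 0 := by
    rw [← hgz, aeval_eq_sum_range]
    refine Finset.sum_congr rfl fun i _ => ?_
    rw [Algebra.smul_def]
    rfl
  have hBs : ∀ j, j ≤ N → B j = a j + z * B (j + 1) := by
    intro j hj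
    have h1 : N + 1 - j = (N - j) + 1 := by omega
    have h2 : N + 1 - (j + 1) = N - j := by omega
    simp only [B]
    rw [h1, h2, Finset.sum_range_succ', Finset.mul_sum, zero_add, pow_zero, mul_one, add_comm]
    congr 1
    refine Finset.sum_congr rfl fun i _ => ?_
    rw [pow_succ, add_assoc, add_comm 1 j]
    ring
  have hav : ∀ i, V.valuation (a i) ≤ 1 := hgi
  have hBv : ∀ j, V.valuation (B j) ≤ 1 := by
    intro j
    apply V.valuation.map_sum_le
    intro i _
    rw [map_mul, map_pow]
    calc _ ≤ (1 : V.ValueGroup) * 1 := by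
          gcongr
          · exact hav _
          · exact pow_le_one₀ zero_le hzv
      _ = 1 := one_mul _
  have hsplit : ∀ j, j ≤ N + 1 → B 0 = (∑ i ∈ Finset.range j, a i * z ^ i) + z ^ j * B j := by
    intro j
    induction j with
    | zero => intro _; simp
    | succ j ih =>
      intro hj
      rw [ih (by omega), hBs j (by omega), Finset.sum_range_succ, pow_succ]
      ring
  obtain ⟨j, hj, hBj⟩ : ∃ j, j ≤ N + 1 ∧ V.valuation (B j) = 1 := by
    by_contra hcon
    push Not at hcon
    have h1 : ∀ j, j ≤ N + 1 → V.valuation (B j) < 1 := fun j hj =>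
      lt_of_le_of_ne (hBv j) (hcon j hj)
    have hi1N : i1 ≤ N := by
      by_contra h
      rw [coeff_eq_zero_of_natDegree_lt (not_le.1 h), map_zero, map_zero] at hi1
      exact zero_ne_one hi1
    have h2 : a i1 = B i1 - z * B (i1 + 1) := by
      rw [hBs i1 hi1N]
      ring
    have h3 : V.valuation (a i1) < 1 := by
      rw [h2]
      refine lt_of_le_of_lt (V.valuation.map_sub _ _) (max_lt (h1 _ (by omega)) ?_)
      rw [map_mul]
      calc V.valuation z * V.valuation (B (i1 + 1)) ≤ 1 * V.valuation (B (i1 + 1)) := by gcongr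
        _ < 1 := by rw [one_mul]; exact h1 _ (by omega)
    exact absurd hi1 h3.ne
  have hj0 : j ≠ 0 := by
    rintro rfl
    rw [hB0, map_zero] at hBj
    exact zero_ne_one hBj
  -- integrality
  have hint : ∀ j, j ≤ N + 1 → IsIntegral (V.comap (algebraMap L K)) (B j) := by
    intro j hj
    apply isIntegral_of_forall
    intro V' hV'
    have haV' : ∀ i, a i ∈ V' := by
      intro i
      have h1 : g.coeff i ∈ V.comap (algebraMap L K) := by
        rw [ValuationSubring.mem_comap, ← V.valuation_le_one_iff]
        exact hgi i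
      exact hV' ⟨_, h1⟩
    by_cases h' : z ∈ V'
    · exact sum_mem fun i _ => V'.mul_mem _ _ (haV' _) (pow_mem h' _)
    · have h := (V'.mem_or_inv_mem z).resolve_left h'
      have hz0 : z ≠ 0 := fun h0 => h' (h0 ▸ V'.zero_mem)
      have h1 := hsplit j hj
      rw [hB0] at h1
      have h2 : B j = -∑ i ∈ Finset.range j, a i * z⁻¹ ^ (j - i) := by
        have h3 : z ^ j * B j = -∑ i ∈ Finset.range j, a i * z ^ i := by
          linear_combination -h1
        have h4 : B j = z⁻¹ ^ j * (z ^ j * B j) := by
          rw [← mul_assoc, ← mul_pow, inv_mul_cancel₀ hz0, one_pow, one_mul]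
        rw [h4, h3, mul_neg, Finset.mul_sum]
        congr 1
        refine Finset.sum_congr rfl fun i hi => ?_
        have hij : i ≤ j := (Finset.mem_range.1 hi).le
        have h5 : z⁻¹ ^ j = z⁻¹ ^ (j - i) * z⁻¹ ^ i := by
          rw [← pow_add]; congr 1; omega
        have h6 : z⁻¹ ^ i * z ^ i = 1 := by rw [← mul_pow, inv_mul_cancel₀ hz0, one_pow]
        rw [h5]
        linear_combination (a i * z⁻¹ ^ (j - i)) * h6
      rw [h2]
      exact V'.neg_mem _ (sum_mem fun i _ => V'.mul_mem _ _ (haV' _) (pow_mem h _))
  have haint : ∀ i, IsIntegral (V.comap (algebraMap L K)) (a i) := by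
    intro i
    apply isIntegral_of_forall
    intro V' hV'
    have h1 : g.coeff i ∈ V.comap (algebraMap L K) := by
      rw [ValuationSubring.mem_comap, ← V.valuation_le_one_iff]
      exact hgi i
    exact hV' ⟨_, h1⟩
  refine ⟨B j, hBj, hint j hj, ?_⟩
  obtain ⟨m, rfl⟩ : ∃ m, j = m + 1 := ⟨j - 1, by omega⟩
  have h1 : z * B (m + 1) = B m - a m := by
    rw [hBs m (by omega)]
    ring
  rw [h1]
  exact (hint m (by omega)).sub (haint m)

end seid

section bounded

variable {k L K : Type} [Field k] [Field L] [Field K] [Algebra k K] [Algebra L K]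
  (V : ValuationSubring K)

lemma exists_common (s : Finset K) : ∃ B : K, B ≠ 0 ∧ V.valuation B ≤ 1 ∧
    ∀ c ∈ s, V.valuation (B * c) ≤ 1 := by
  classical
  induction s using Finset.induction_on with
  | empty => exact ⟨1, one_ne_zero, by rw [map_one], by simp⟩
  | insert c s hc ih =>
    obtain ⟨B, h0, h1, h2⟩ := ih
    by_cases hcv : V.valuation c ≤ 1
    · refine ⟨B, h0, h1, fun d hd => ?_⟩
      rcases Finset.mem_insert.1 hd with rfl | hd
      · rw [map_mul]
        calc _ ≤ (1 : V.ValueGroup) * 1 := by gcongr
          _ = 1 := one_mul _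
      · exact h2 d hd
    · push Not at hcv
      have hc0 : c ≠ 0 := by
        rintro rfl
        rw [map_zero] at hcv
        exact absurd hcv (not_lt.2 zero_le)
      have hci : V.valuation c⁻¹ ≤ 1 := by
        rw [map_inv₀]
        exact inv_le_one_of_one_le₀ hcv.le
      refine ⟨B * c⁻¹, mul_ne_zero h0 (inv_ne_zero hc0), ?_, fun d hd => ?_⟩
      · rw [map_mul]
        calc _ ≤ (1 : V.ValueGroup) * 1 := by gcongr
          _ = 1 := one_mul _
      · rcases Finset.mem_insert.1 hd with rfl | hd
        · rw [mul_assoc, inv_mul_cancel₀ hc0, mul_one]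
          exact h1
        · have : B * c⁻¹ * d = c⁻¹ * (B * d) := by ring
          rw [this, map_mul]
          calc _ ≤ (1 : V.ValueGroup) * 1 := by
                gcongr
                exact h2 d hd
            _ = 1 := one_mul _

theorem exists_bound [FiniteDimensional L K] [Algebra.IsSeparable L K] (D : Derivation k K K)
    (hD : ∀ l : L, V.valuation (algebraMap L K l) ≤ 1 → V.valuation (D (algebraMap L K l)) ≤ 1) :
    ∃ B : K, B ≠ 0 ∧ V.valuation B ≤ 1 ∧ ∀ z ∈ V, V.valuation (B * D z) ≤ 1 := by
  classical
  obtain ⟨s, b, hb⟩ := FiniteDimensional.exists_is_basis_integral (V.comap (algebraMap L K)) L K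
  let b' := (Algebra.traceForm L K).dualBasis (traceForm_nondegenerate L K) b
  have hle := integralClosure_le_span_dualBasis b hb
  obtain ⟨B, hB0, hB1, hB⟩ := exists_common V
    ((Finset.univ.image fun i => b' i) ∪ Finset.univ.image fun i => D (b' i))
  have hmul : ∀ x y : K, V.valuation x ≤ 1 → V.valuation y ≤ 1 → V.valuation (x * y) ≤ 1 := by
    intro x y hx hy
    rw [map_mul]
    calc _ ≤ (1 : V.ValueGroup) * 1 := by gcongr
      _ = 1 := one_mul _
  have hadd : ∀ x y : K, V.valuation x ≤ 1 → V.valuation y ≤ 1 → V.valuation (x + y) ≤ 1 := by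
    intro x y hx hy
    exact (V.valuation.map_add _ _).trans (max_le hx hy)
  have hspan : ∀ x ∈ Submodule.span (V.comap (algebraMap L K)) (Set.range b'),
      V.valuation (B * D x) ≤ 1 ∧ V.valuation (B * x) ≤ 1 := by
    intro x hx
    induction hx using Submodule.span_induction with
    | mem x hx =>
      obtain ⟨i, rfl⟩ := hx
      exact ⟨hB _ (Finset.mem_union_right _ (Finset.mem_image_of_mem _ (Finset.mem_univ i))),
        hB _ (Finset.mem_union_left _ (Finset.mem_image_of_mem _ (Finset.mem_univ i)))⟩
    | zero => simp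
    | add x y _ _ hx hy =>
      constructor
      · rw [map_add, mul_add]
        exact hadd _ _ hx.1 hy.1
      · rw [mul_add]
        exact hadd _ _ hx.2 hy.2
    | smul r x _ hx =>
      have hr : V.valuation (algebraMap L K r.1) ≤ 1 := by
        rw [V.valuation_le_one_iff]
        exact r.2
      have hrx : r • x = algebraMap L K r.1 * x := by
        rw [Algebra.smul_def]
        rfl
      constructor
      · have h1 : B * D (r • x) = algebraMap L K r.1 * (B * D x) + D (algebraMap L K r.1) * (B * x) := by
          rw [hrx, Derivation.leibniz, smul_eq_mul, smul_eq_mul]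
          ring
        rw [h1]
        exact hadd _ _ (hmul _ _ hr hx.1) (hmul _ _ (hD _ hr) hx.2)
      · have h1 : B * (r • x) = algebraMap L K r.1 * (B * x) := by
          rw [hrx]
          ring
        rw [h1]
        exact hmul _ _ hr hx.2
  have hint : ∀ x : K, IsIntegral (V.comap (algebraMap L K)) x →
      V.valuation (B * D x) ≤ 1 ∧ V.valuation (B * x) ≤ 1 := fun x hx => hspan x (hle hx)
  refine ⟨B, hB0, hB1, fun z hz => ?_⟩
  obtain ⟨c, hc1, hc2, hc3⟩ := exists_integral_frac (L := L) V hz
  have hc0 : c ≠ 0 := by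
    rintro rfl
    rw [map_zero] at hc1
    exact zero_ne_one hc1
  have h1 := (hint c hc2).1
  have h2 := (hint _ hc3).1
  have h3 : B * D z = c⁻¹ * (B * D (z * c)) - c⁻¹ * (z * (B * D c)) := by
    rw [Derivation.leibniz, smul_eq_mul, smul_eq_mul]
    field_simp
    ring
  have hci : V.valuation c⁻¹ ≤ 1 := by rw [map_inv₀, hc1, inv_one]
  rw [h3]
  refine (V.valuation.map_sub _ _).trans (max_le (hmul _ _ hci h2) ?_)
  exact hmul _ _ hci (hmul _ _ ((V.valuation_le_one_iff _).2 hz) h1)

end bounded

end Pool.Agent.Q72.GN
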