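import Pool.Agent.Q72.GN.Cur

/-!
The surface: preimages of general lines are irreducible.
-/

open MvPolynomial AlgebraicGeometry CategoryTheory Limits TopologicalSpace

namespace Pool.Agent.Q72.GN

open Pool.Agent.Helper198.Sch

attribute [local instance] MvPolynomial.gradedAlgebra

section algebra

variable {k : Type} [Field k] {p : ℕ} [hp : Fact p.Prime] [CharP k p]
  {D : Type} [CommRing D] [Algebra k D]

omit hp in
lemma charp_alg (k : Type) [Field k] (p : ℕ) [CharP k p] (D : Type) [CommRing D] [Algebra k D] :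
    ((p : ℕ) : D) = 0 := by
  have h : algebraMap k D (p : k) = ((p : ℕ) : D) := map_natCast _ p
  rw [← h, CharP.cast_eq_zero, map_zero]

lemma aeval_pow (f : MvPolynomial Idx k) (u : Idx → D) :
    (aeval u f) ^ p = aeval (fun c => u c ^ p) (MvPolynomial.map (frobenius k p) f) := by
  have hD := charp_alg k p D
  induction f using MvPolynomial.induction_on with
  | C a =>
    rw [map_C, aeval_C, aeval_C, frobenius_def, map_pow]
  | add f g hf hg => rw [map_add, add_pow_p hD, hf, hg, map_add, map_add]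
  | mul_X f c hf => rw [map_mul, mul_pow, hf, map_mul, map_mul, map_X, aeval_X, aeval_X]

variable (p) in
/-- the `p`-th power of a form on the surface, in terms of `x`. -/
noncomputable def Gf (f : MvPolynomial Idx k) (z : Fin 3 → D) : D :=
  aeval (fun c : Idx => z c.1 ^ p * cr (p * p) z c.2) (MvPolynomial.map (frobenius k p) f)

lemma Gf_nat {D' : Type} [CommRing D'] [Algebra k D'] (φ : D →ₐ[k] D') (f : MvPolynomial Idx k)
    (z : Fin 3 → D) : φ (Gf p f z) = Gf p f (fun m => φ (z m)) := by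
  unfold Gf
  rw [← AlgHom.comp_apply, comp_aeval]
  congr 2
  funext c
  simp only [map_mul, map_pow]
  congr 1
  exact map_cr' φ.toRingHom _ _ _

omit hp [CharP k p] in
lemma cr_smul (q : ℕ) (w : D) (z : Fin 3 → D) (b : Fin 3) :
    cr q (fun m => w * z m) b = w ^ (q + 1) * cr q z b := by
  fin_cases b <;> simp [cr, mul_pow] <;> ring

lemma Gf_smul {f : MvPolynomial Idx k} {n : ℕ} (hf : f.IsHomogeneous n) (w : D)
    (z : Fin 3 → D) :
    Gf p f (fun m => w * z m) = (w ^ p * w ^ (p * p + 1)) ^ n * Gf p f z := by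
  unfold Gf
  rw [← aeval_scale (hf.map (frobenius k p))]
  congr 2
  funext c
  rw [cr_smul]
  ring

lemma pow_pp (hD : (p : D) = 0) (a b : D) : (a + b) ^ (p * p) = a ^ (p * p) + b ^ (p * p) := by
  rw [pow_mul, add_pow_p hD, add_pow_p hD, ← pow_mul, ← pow_mul]

lemma cr_mul {ζ η : Fin 3 → D} (hD : (p : D) = 0) (h1 : ∑ a, ζ a * η a ^ p = 0)
    (h2 : ∑ a, ζ a ^ p * η a = 0) (b c : Fin 3) :
    cr (p * p) ζ b * η c ^ p = cr (p * p) ζ c * η b ^ p := by
  rw [Fin.sum_univ_three] at h1 h2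
  have h3 := congrArg (fun z => z ^ p) h2
  simp only [zero_pow hp.out.ne_zero] at h3
  rw [add_pow_p hD, add_pow_p hD, mul_pow, mul_pow, mul_pow, ← pow_mul, ← pow_mul, ← pow_mul] at h3
  have key : ∀ b c : Fin 3, b < c → cr (p * p) ζ b * η c ^ p = cr (p * p) ζ c * η b ^ p := by
    intro b c hbc
    fin_cases b <;> fin_cases c <;> simp at hbc
    · simp only [cr, Fin.zero_eta, Matrix.cons_val_zero, Fin.mk_one, Matrix.cons_val_one]
      linear_combination (ζ 2 ^ (p * p)) * h1 - ζ 2 * h3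
    · simp only [cr, Fin.zero_eta, Matrix.cons_val_zero, Fin.reduceFinMk, Matrix.cons_val]
      linear_combination (-(ζ 1 ^ (p * p))) * h1 + ζ 1 * h3
    · simp only [cr, Fin.mk_one, Matrix.cons_val_one, Fin.reduceFinMk, Matrix.cons_val]
      linear_combination (ζ 0 ^ (p * p)) * h1 - ζ 0 * h3
  rcases lt_trichotomy b c with h | h | h
  · exact key b c h
  · rw [h]
  · exact (key c b h).symm

lemma Gf_eq {f : MvPolynomial Idx k} {n : ℕ} (hf : f.IsHomogeneous n) {ζ η : Fin 3 → D}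
    (h1 : ∑ a, ζ a * η a ^ p = 0) (h2 : ∑ a, ζ a ^ p * η a = 0) (j : Fin 3) :
    cr (p * p) ζ j ^ n * (aeval (fun c : Idx => ζ c.1 * η c.2) f) ^ p =
      (η j ^ p) ^ n * Gf p f ζ := by
  have hD := charp_alg k p D
  rw [aeval_pow, ← aeval_scale (hf.map (frobenius k p)), Gf,
    ← aeval_scale (hf.map (frobenius k p))]
  congr 2
  funext c
  have h := cr_mul hD h1 h2 j c.2
  rw [mul_pow]
  linear_combination (ζ c.1 ^ p) * h

omit [CharP k p] [Field k] [Algebra k D] in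
lemma moore_zero [IsDomain D] (hD : (p : D) = 0) {a ζ : Fin 3 → D} (h : ∑ m, a m * ζ m = 0)
    (hcr : ∀ b, cr (p * p) ζ b = 0) (i : Fin 3) (hi : ζ i = 1) :
    Mo (p * p) (a 0) (a 1) (a 2) = 0 := by
  have hfix : ∀ m, ζ m ^ (p * p) = ζ m := by
    have c0 : ζ 1 * ζ 2 ^ (p * p) - ζ 2 * ζ 1 ^ (p * p) = 0 := hcr 0
    have c1 : ζ 2 * ζ 0 ^ (p * p) - ζ 0 * ζ 2 ^ (p * p) = 0 := hcr 1
    have c2 : ζ 0 * ζ 1 ^ (p * p) - ζ 1 * ζ 0 ^ (p * p) = 0 := hcr 2
    intro m
    fin_cases i <;> fin_cases m <;> simp only [Fin.zero_eta, Fin.mk_one, Fin.reduceFinMk] at hi ⊢ <;>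
      simp only [hi, one_pow, one_mul, mul_one] at c0 c1 c2 ⊢ <;>
      first
        | linear_combination c0
        | linear_combination c1
        | linear_combination c2
        | linear_combination -c0
        | linear_combination -c1
        | linear_combination -c2
  rw [Fin.sum_univ_three] at h
  have e1 := congrArg (fun z => z ^ (p * p)) h
  have hpp : p * p ≠ 0 := mul_ne_zero hp.out.ne_zero hp.out.ne_zero
  simp only [zero_pow hpp] at e1
  rw [pow_pp hD, pow_pp hD, mul_pow, mul_pow, mul_pow, hfix, hfix, hfix] at e1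
  have e2 := congrArg (fun z => z ^ (p * p)) e1
  simp only [zero_pow hpp] at e2
  rw [pow_pp hD, pow_pp hD, mul_pow, mul_pow, mul_pow, hfix, hfix, hfix, ← pow_mul, ← pow_mul,
    ← pow_mul, ← pow_two (p * p)] at e2
  have key : Mo (p * p) (a 0) (a 1) (a 2) * ζ i = 0 := by
    unfold Mo
    fin_cases i
    · simp only [Fin.zero_eta]
      linear_combination (a 1 ^ (p * p) * a 2 ^ ((p * p) ^ 2) - a 2 ^ (p * p) * a 1 ^ ((p * p) ^ 2)) * h +
        (a 2 * a 1 ^ ((p * p) ^ 2) - a 1 * a 2 ^ ((p * p) ^ 2)) * e1 +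
        (a 1 * a 2 ^ (p * p) - a 2 * a 1 ^ (p * p)) * e2
    · simp only [Fin.mk_one]
      linear_combination (a 2 ^ (p * p) * a 0 ^ ((p * p) ^ 2) - a 0 ^ (p * p) * a 2 ^ ((p * p) ^ 2)) * h +
        (a 0 * a 2 ^ ((p * p) ^ 2) - a 2 * a 0 ^ ((p * p) ^ 2)) * e1 +
        (a 2 * a 0 ^ (p * p) - a 0 * a 2 ^ (p * p)) * e2
    · simp only [Fin.reduceFinMk]
      linear_combination (a 0 ^ (p * p) * a 1 ^ ((p * p) ^ 2) - a 1 ^ (p * p) * a 0 ^ ((p * p) ^ 2)) * h +
        (a 1 * a 0 ^ ((p * p) ^ 2) - a 0 * a 1 ^ ((p * p) ^ 2)) * e1 +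
        (a 0 * a 1 ^ (p * p) - a 1 * a 0 ^ (p * p)) * e2
  rw [hi, mul_one] at key
  exact key

/-- the point of the line in the chart `t`. -/
noncomputable def Zt (t : Tri) (a : Fin 3 → k) : Fin 3 → Polynomial k :=
  t.ze (-Polynomial.C (a t.i / a t.j) - Polynomial.C (a t.l / a t.j) * Polynomial.X) Polynomial.X

omit hp [CharP k p] in
lemma Zt_eq (t : Tri) {a : Fin 3 → k} (ha : a t.j ≠ 0) {ζ : Fin 3 → D}
    (h : ∑ m, algebraMap k D (a m) * ζ m = 0) (hi : ζ t.i = 1) (m : Fin 3) :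
    Polynomial.aeval (ζ t.l) (Zt t a m) = ζ m := by
  have haj : algebraMap k D (a t.j) * algebraMap k D (a t.j)⁻¹ = 1 := by
    rw [← map_mul, mul_inv_cancel₀ ha, map_one]
  rw [t.sum, hi] at h
  rcases t.cases m with rfl | rfl | rfl
  · simp [Zt, hi]
  · simp only [Zt, Tri.ze_j, map_sub, map_neg, map_mul, Polynomial.aeval_C, Polynomial.aeval_X,
      div_eq_mul_inv]
    linear_combination (-(algebraMap k D (a t.j)⁻¹)) * h + ζ t.j * haj
  · simp [Zt]

lemma Gf_zero [IsAlgClosed k] {b : Fin 3 → k} (hb : ∀ m, b m ≠ 0) {f : MvPolynomial Idx k} {n : ℕ}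
    (hf : f.IsHomogeneous n) (h0 : Gf p f (xL p b) = 0) (t : Tri) {ζ : Fin 3 → D}
    (h : ∑ m, algebraMap k D (b m ^ p) * ζ m = 0) (hi : ζ t.i = 1) : Gf p f ζ = 0 := by
  have hj : b t.j ^ p ≠ 0 := pow_ne_zero _ (hb _)
  have hxi := xL_ne_zero (p := p) hb t.i
  have h1 : Gf p f (fun m => (xL p b t.i)⁻¹ * xL p b m) = 0 := by
    rw [Gf_smul hf, h0, mul_zero]
  have h2 : ∑ m, algebraMap k (RatFunc k) (b m ^ p) * ((xL p b t.i)⁻¹ * xL p b m) = 0 := by
    have : ∀ m : Fin 3, algebraMap k (RatFunc k) (b m ^ p) * ((xL p b t.i)⁻¹ * xL p b m) =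
        (algebraMap k (RatFunc k) (b m ^ p) * xL p b m) * (xL p b t.i)⁻¹ := by
      intro m
      ring
    rw [Finset.sum_congr rfl (fun m _ => this m), ← Finset.sum_mul, xL_sum, zero_mul]
  have h3 := Zt_eq t (a := fun m => b m ^ p) hj
    (ζ := fun m => (xL p b t.i)⁻¹ * xL p b m) h2 (inv_mul_cancel₀ hxi)
  have h4 : Polynomial.aeval ((xL p b t.i)⁻¹ * xL p b t.l)
      (Gf p f (Zt t (fun m => b m ^ p))) = 0 := by
    rw [Gf_nat]
    rw [← h1]
    congr 1
    funext m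
    exact h3 m
  have h5 : Gf p f (Zt t (fun m => b m ^ p)) = 0 := by
    by_contra hne
    apply xL_transcendental (p := p) hb t.hil.symm
    refine ⟨_, hne, ?_⟩
    rw [div_eq_inv_mul]
    exact h4
  have h6 := Zt_eq t (a := fun m => b m ^ p) hj h hi
  have h7 := Gf_nat (p := p) (Polynomial.aeval (ζ t.l) : Polynomial k →ₐ[k] D) f
    (Zt t (fun m => b m ^ p))
  rw [h5, map_zero] at h7
  rw [h7]
  congr 1
  funext m
  exact (h6 m).symm

end algebra

section closure_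

variable {p : ℕ} [hp : Fact p.Prime] {k : Type} [Field k] [CharP k p]

theorem mem_closure_gp [IsAlgClosed k] {b : Fin 3 → k} (hb : ∀ m, b m ≠ 0)
    (hM : Mo (p * p) (b 0 ^ p) (b 1 ^ p) (b 2 ^ p) ≠ 0) (x : V (JY p k))
    (hx : MapsToLine (V.str (JY p k)) (hY p k) (fun m => b m ^ p) x) :
    x ∈ closure ({gp p hb} : Set (V (JY p k))) := by
  apply mem_closure_of_forms
  intro n f hn hf hxf
  by_contra hgp
  have hw : aeval (fun q : Idx => xL p b q.1 * yL p b q.2) f = 0 := by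
    by_contra h
    exact hgp ((ptM_mem_basicOpen (k := k) (ptL (p := p) b) t0.c (xL_ne_zero hb _)
      (yL_ne_zero hb _) hn hf).2 h)
  obtain ⟨t, ht⟩ := exists_triY p x
  rw [← V.opensRange_chart] at ht
  obtain ⟨Q, rfl⟩ := ht
  rw [chart_mem_basicOpen _ _ hn hf] at hxf
  rw [mapsToLine_iff] at hx
  have hQ : Q.asIdeal.IsPrime := Q.isPrime
  have hdom : IsDomain (Ch (JY p k) t.c ⧸ Q.asIdeal) := Ideal.Quotient.isDomain _
  let π : Ch (JY p k) t.c →ₐ[k] Ch (JY p k) t.c ⧸ Q.asIdeal := Ideal.Quotient.mkₐ k Q.asIdeal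
  have hπ : ∀ r, π r = 0 ↔ r ∈ Q.asIdeal := fun r => Ideal.Quotient.eq_zero_iff_mem
  have hD := charp_alg k p (Ch (JY p k) t.c ⧸ Q.asIdeal)
  let u := frac (JY p k) t.c
  have hs := satY_frac (R := k) p t.c
  have hc : frac (JY p k) t.c t.c = 1 := frac_self _ _
  have hcij : frac (JY p k) t.c (t.i, t.j) = 1 := hc
  let ζ : Fin 3 → Ch (JY p k) t.c ⧸ Q.asIdeal := fun a => π (frac _ t.c (a, t.j))
  let η : Fin 3 → Ch (JY p k) t.c ⧸ Q.asIdeal := fun a => π (frac _ t.c (t.i, a))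
  have hζi : ζ t.i = 1 := by
    change π (frac _ t.c (t.i, t.j)) = 1
    rw [hcij, map_one]
  have hηj : η t.j = 1 := by
    change π (frac _ t.c (t.i, t.j)) = 1
    rw [hcij, map_one]
  have h1 : ∑ a, ζ a * η a ^ p = 0 := by
    have h := hs.rel1 t hp.out.ne_zero hc
    rw [t.sum, hζi, hηj]
    change 1 * (π _) ^ p + π _ * 1 ^ p + π _ * (π _) ^ p = 0
    rw [h]
    simp only [map_neg, map_add, map_mul, map_pow, one_pow]
    ring
  have h2 : ∑ a, ζ a ^ p * η a = 0 := by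
    have h := congrArg π (hs.rel2 t hp.out.ne_zero hc)
    rw [map_zero, map_add, map_add, map_mul, map_pow, map_pow] at h
    rw [t.sum, hζi, hηj]
    change 1 ^ p * π _ + (π _) ^ p * 1 + (π _) ^ p * π _ = 0
    rw [one_pow]
    linear_combination h
  have h3 : ∑ m, algebraMap k _ (b m ^ p) * ζ m = 0 := by
    have h := (hπ _).2 hx
    rw [lineForm, map_sum] at h
    rw [← h]
    refine Finset.sum_congr rfl fun m _ => ?_
    rw [map_mul, AlgHom.commutes]
  -- the cross product does not vanish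
  have h4 : cr (p * p) ζ t.j ≠ 0 := by
    intro h0
    have h5 : ∀ c, cr (p * p) ζ c = 0 := by
      intro c
      have h6 := cr_mul hD h1 h2 t.j c
      rw [h0, zero_mul, hηj, one_pow, mul_one] at h6
      exact h6.symm
    have h7 := moore_zero hD h3 h5 t.i hζi
    apply hM
    have h8 : algebraMap k (Ch (JY p k) t.c ⧸ Q.asIdeal)
        (Mo (p * p) (b 0 ^ p) (b 1 ^ p) (b 2 ^ p)) = 0 := by
      rw [map_Mo]
      exact h7
    exact (map_eq_zero_iff _ (algebraMap k (Ch (JY p k) t.c ⧸ Q.asIdeal)).injective).1 h8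
  -- vanishing of the form
  have h9 : Gf p f (xL p b) = 0 := by
    have h := Gf_eq hf (ptL (p := p) b).h1 (ptL (p := p) b).h2 0
    rw [hw, zero_pow hp.out.ne_zero, mul_zero] at h
    have hy : (yL p b 0 ^ p) ^ n ≠ 0 := pow_ne_zero _ (pow_ne_zero _ (yL_ne_zero hb _))
    exact (mul_eq_zero.1 h.symm).resolve_left hy
  have h10 : Gf p f ζ = 0 := Gf_zero hb hf h9 t h3 hζi
  have h11 := Gf_eq hf h1 h2 t.j
  rw [h10, mul_zero] at h11
  have h12 := (mul_eq_zero.1 h11).resolve_left (pow_ne_zero _ h4)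
  have h13 := (pow_eq_zero_iff hp.out.ne_zero).1 h12
  apply hxf
  rw [← hπ, ← AlgHom.comp_apply, comp_aeval]
  rw [← h13]
  congr 2
  funext c
  obtain ⟨c1, c2⟩ := c
  change π (frac _ t.c (c1, c2)) = π _ * π _
  rw [hs.prod t hc c1 c2, map_mul]

end closure_

end Pool.Agent.Q72.GN
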