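import Pool.Agent.Q72.GN.Bd

/-!
Logarithmic derivations in tamely ramified extensions.
-/

open Polynomial

namespace Pool.Agent.Q72.GN

section ld

variable {k K : Type} [Field k] [Field K] [Algebra k K] (D : Derivation k K K)

lemma ld_mul {x y : K} (hx : x ≠ 0) (hy : y ≠ 0) : D (x * y) / (x * y) = D x / x + D y / y := by
  rw [Derivation.leibniz, smul_eq_mul, smul_eq_mul]
  field_simp
  ring

lemma ld_pow {x : K} (hx : x ≠ 0) (n : ℕ) : D (x ^ n) / x ^ n = n * (D x / x) := by
  induction n with
  | zero => simp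
  | succ n ih =>
    rw [pow_succ, ld_mul D (pow_ne_zero n hx) hx, ih]
    push_cast
    ring

lemma ld_inv {x : K} (hx : x ≠ 0) : D x⁻¹ / x⁻¹ = -(D x / x) := by
  have h := ld_mul D hx (inv_ne_zero hx)
  rw [mul_inv_cancel₀ hx, Derivation.map_one_eq_zero, zero_div] at h
  linear_combination -h

lemma ld_zpow {x : K} (hx : x ≠ 0) (n : ℤ) : D (x ^ n) / x ^ n = n * (D x / x) := by
  obtain ⟨m, rfl | rfl⟩ := n.eq_nat_or_neg
  · rw [zpow_natCast, ld_pow D hx]
    simp
  · rw [zpow_neg, zpow_natCast, ld_inv D (pow_ne_zero _ hx), ld_pow D hx]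
    push_cast
    ring

end ld

section main

variable {k L K : Type} [Field k] [Field L] [Field K] [Algebra k K] [Algebra L K]
  [FiniteDimensional L K] [Algebra.IsSeparable L K] (V : ValuationSubring K)
  {p : ℕ} [hp : Fact p.Prime]

theorem tame_log (hK : (p : K) = 0) (hdeg : ∀ z : K, (minpoly L z).natDegree < p)
    (D : Derivation k K K) {π : L} (hπ0 : π ≠ 0) (hπ : V.valuation (algebraMap L K π) < 1)
    (hval : ∀ l : L, l ≠ 0 → ∃ n : ℤ,
      V.valuation (algebraMap L K l) = V.valuation (algebraMap L K π) ^ n)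
    (hD : ∀ l : L, V.valuation (algebraMap L K l) ≤ 1 → V.valuation (D (algebraMap L K l)) ≤ 1)
    (hDπ : V.valuation (D (algebraMap L K π) / algebraMap L K π) ≤ 1) {z : K} (hz : z ≠ 0) :
    V.valuation (D z / z) ≤ 1 := by
  set q := V.valuation (algebraMap L K π) with hq
  have hπK : algebraMap L K π ≠ 0 := (_root_.map_ne_zero _).2 hπ0
  have hq0 : q ≠ 0 := (_root_.map_ne_zero V.valuation).2 hπK
  have hqpos : 0 < q := zero_lt_iff.2 hq0
  -- the logarithmic derivative on the base field
  have hlog : ∀ l : L, l ≠ 0 → V.valuation (D (algebraMap L K l) / algebraMap L K l) ≤ 1 := by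
    intro l hl
    obtain ⟨n, hn⟩ := hval l hl
    have hlK : algebraMap L K l ≠ 0 := (_root_.map_ne_zero _).2 hl
    have hu0 : l * π ^ (-n) ≠ 0 := mul_ne_zero hl (zpow_ne_zero _ hπ0)
    have hu : V.valuation (algebraMap L K (l * π ^ (-n))) = 1 := by
      rw [map_mul, map_mul, hn, map_zpow₀, map_zpow₀, ← hq, ← zpow_add₀ hq0, add_neg_cancel,
        zpow_zero]
    have h1 : algebraMap L K l = algebraMap L K (l * π ^ (-n)) * algebraMap L K π ^ n := by
      rw [map_mul, map_zpow₀, mul_assoc, ← zpow_add₀ hπK, neg_add_cancel, zpow_zero, mul_one]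
    have h2 : D (algebraMap L K l) / algebraMap L K l =
        D (algebraMap L K (l * π ^ (-n))) / algebraMap L K (l * π ^ (-n)) +
          n * (D (algebraMap L K π) / algebraMap L K π) := by
      rw [h1, ld_mul D ((_root_.map_ne_zero _).2 hu0) (zpow_ne_zero _ hπK), ld_zpow D hπK]
    rw [h2]
    refine (V.valuation.map_add _ _).trans (max_le ?_ ?_)
    · rw [map_div₀, hu, div_one]
      exact hD _ hu.le
    · rw [map_mul]
      have h3 : V.valuation (n : K) ≤ 1 := by
        rw [V.valuation_le_one_iff]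
        exact intCast_mem V n
      calc _ ≤ (1 : V.ValueGroup) * 1 := by gcongr
        _ = 1 := one_mul _
  -- values
  have hE : ∀ y : K, y ≠ 0 → ∃ n : ℤ, V.valuation y ^ (p - 1).factorial = q ^ n := by
    intro y hy
    obtain ⟨e, he0, hep, l, hl, hle⟩ := exists_pow_val (L := L) V hy (hdeg y)
    obtain ⟨n, hn⟩ := hval l hl
    obtain ⟨c, hc⟩ : e ∣ (p - 1).factorial := Nat.dvd_factorial he0 (by omega)
    refine ⟨n * c, ?_⟩
    rw [hc, pow_mul, ← map_pow, hle, hn, zpow_mul, zpow_natCast]
  obtain ⟨B, hB0, hB1, hB⟩ := exists_bound (L := L) V D hD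
  -- boundedness of the logarithmic derivative
  have hdec : ∀ y : K, y ≠ 0 → ∃ (e : ℕ) (u : K) (l : L), 0 < e ∧ e < p ∧ l ≠ 0 ∧
      V.valuation u = 1 ∧ (e : K) * (D y / y) =
        D u / u + D (algebraMap L K l) / algebraMap L K l := by
    intro y hy
    obtain ⟨e, he0, hep, l, hl, hle⟩ := exists_pow_val (L := L) V hy (hdeg y)
    have hlK : algebraMap L K l ≠ 0 := (_root_.map_ne_zero _).2 hl
    have hye : y ^ e ≠ 0 := pow_ne_zero _ hy
    refine ⟨e, y ^ e / algebraMap L K l, l, he0, hep, hl, ?_, ?_⟩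
    · rw [map_div₀, hle, div_self]
      exact (_root_.map_ne_zero V.valuation).2 hlK
    · rw [← ld_pow D hy, ← ld_mul D (div_ne_zero hye hlK) hlK, div_mul_cancel₀ _ hlK]
  have hBld : ∀ y : K, y ≠ 0 → V.valuation (B * (D y / y)) ≤ 1 := by
    intro y hy
    obtain ⟨e, u, l, he0, hep, hl, hu, h⟩ := hdec y hy
    have hu0 : u ≠ 0 := by
      rintro rfl
      rw [map_zero] at hu
      exact zero_ne_one hu
    have he := val_natCast V hK he0 hep
    have h1 : (e : K) * (B * (D y / y)) = B * D u / u +
        B * (D (algebraMap L K l) / algebraMap L K l) := by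
      linear_combination B * h
    have h2 : V.valuation ((e : K) * (B * (D y / y))) ≤ 1 := by
      rw [h1]
      refine (V.valuation.map_add _ _).trans (max_le ?_ ?_)
      · rw [map_div₀, hu, div_one]
        exact hB _ ((V.valuation_le_one_iff _).1 hu.le)
      · rw [map_mul]
        calc _ ≤ (1 : V.ValueGroup) * 1 := by
              gcongr
              exact hlog l hl
          _ = 1 := one_mul _
    rwa [map_mul, he, one_mul] at h2
  by_contra hcon
  push Not at hcon
  obtain ⟨b, hb⟩ := hE B hB0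
  have hzpow : ∀ m n : ℤ, q ^ m ≤ q ^ n → n ≤ m := fun m n h =>
    (zpow_le_zpow_iff_right_of_lt_one₀ hqpos hπ).1 h
  have hEpos : (p - 1).factorial ≠ 0 := Nat.factorial_ne_zero _
  have hleast := Int.exists_least_of_bdd
    (P := fun n => ∃ y : K, y ≠ 0 ∧ D y / y ≠ 0 ∧ V.valuation (D y / y) ^ (p - 1).factorial = q ^ n)
    ⟨-b, by
      rintro n ⟨y, hy, -, hyn⟩
      have h1 := pow_le_one₀ (n := (p - 1).factorial) zero_le (hBld y hy)
      rw [map_mul, mul_pow, hb, hyn, ← zpow_add₀ hq0, ← zpow_zero q] at h1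
      have := hzpow _ _ h1
      omega⟩
    (by
      have hld0 : D z / z ≠ 0 := by
        intro h
        rw [h, map_zero] at hcon
        exact absurd hcon (not_lt.2 zero_le)
      obtain ⟨n, hn⟩ := hE _ hld0
      exact ⟨n, z, hz, hld0, hn⟩)
  obtain ⟨n0, ⟨z1, hz1, hw0, hw⟩, hmin⟩ := hleast
  set w := D z1 / z1 with hwdef
  have hwv0 : V.valuation w ≠ 0 := (_root_.map_ne_zero V.valuation).2 hw0
  have hwpos : 0 < V.valuation w := zero_lt_iff.2 hwv0
  have hmax : ∀ y : K, y ≠ 0 → V.valuation (D y / y) ≤ V.valuation w := by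
    intro y hy
    by_cases h0 : D y / y = 0
    · rw [h0, map_zero]
      exact zero_le
    · obtain ⟨n, hn⟩ := hE _ h0
      have h1 := hmin n ⟨y, hy, h0, hn⟩
      have h2 : V.valuation (D y / y) ^ (p - 1).factorial ≤ V.valuation w ^ (p - 1).factorial := by
        rw [hn, hw]
        exact (zpow_le_zpow_iff_right_of_lt_one₀ hqpos hπ).2 h1
      exact (pow_le_pow_iff_left₀ zero_le zero_le hEpos).1 h2
  have hw1 : 1 < V.valuation w := lt_of_lt_of_le hcon (hmax z hz)
  have hdiv : ∀ y : K, y ≠ 0 → V.valuation (D y / y / w) ≤ 1 := by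
    intro y hy
    rw [map_div₀ _ (D y / y)]
    exact div_le_one_of_le₀ (hmax y hy) zero_le
  have r1 : ∀ u ∈ V, V.valuation (D u / w) ≤ 1 := by
    intro u hu
    by_cases h0 : u = 0
    · rw [h0, map_zero, zero_div, map_zero]
      exact zero_le
    · have : D u / w = u * (D u / u / w) := by field_simp
      rw [this, map_mul]
      have := (V.valuation_le_one_iff _).2 hu
      calc _ ≤ (1 : V.ValueGroup) * 1 := by
            gcongr
            exact hdiv u h0
        _ = 1 := one_mul _
  have r2 : ∀ u, V.valuation u < 1 → V.valuation (D u / w) < 1 := by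
    intro u hu
    by_cases h0 : u = 0
    · rw [h0, map_zero, zero_div, map_zero]
      exact zero_lt_one
    · have : D u / w = u * (D u / u / w) := by field_simp
      rw [this, map_mul]
      calc _ ≤ V.valuation u * 1 := by
            gcongr
            exact hdiv u h0
        _ < 1 := by rw [mul_one]; exact hu
  have hlt : ∀ y : K, V.valuation y ≤ 1 → V.valuation (y / w) < 1 := by
    intro y hy
    rw [map_div₀]
    exact (div_lt_one₀ hwpos).2 (lt_of_le_of_lt hy hw1)
  have r3 : ∀ l : L, V.valuation (algebraMap L K l) ≤ 1 →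
      V.valuation (D (algebraMap L K l) / w) < 1 := fun l hl => hlt _ (hD l hl)
  have r4 : ∀ u ∈ V, V.valuation (D u / w) < 1 := by
    intro u hu
    obtain ⟨g, hg1, hg2, hg3, hg4⟩ := exists_relation (L := L) V u (hdeg u)
    exact residue_lemma (L := L) V hK D hw0 r1 r2 r3 hu g.natDegree g hg1 le_rfl
      (by rw [hg2, map_zero]; exact zero_lt_one) hg3 hg4
  obtain ⟨e, u, l, he0, hep, hl, hu, h⟩ := hdec z1 hz1
  have he := val_natCast V hK he0 hep
  have hu0 : u ≠ 0 := by
    rintro rfl
    rw [map_zero] at hu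
    exact zero_ne_one hu
  have h1 : (e : K) = D u / w / u + D (algebraMap L K l) / algebraMap L K l / w := by
    rw [← hwdef] at h
    field_simp at h ⊢
    linear_combination h
  have h2 : V.valuation (e : K) < 1 := by
    rw [h1]
    refine lt_of_le_of_lt (V.valuation.map_add _ _) (max_lt ?_ ?_)
    · rw [map_div₀, hu, div_one]
      exact r4 u ((V.valuation_le_one_iff _).1 hu.le)
    · exact hlt _ (hlog l hl)
  rw [he] at h2
  exact lt_irrefl _ h2

theorem tame_mem (hK : (p : K) = 0) (hdeg : ∀ z : K, (minpoly L z).natDegree < p)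
    (D : Derivation k K K) {π : L} (hπ0 : π ≠ 0) (hπ : V.valuation (algebraMap L K π) < 1)
    (hval : ∀ l : L, l ≠ 0 → ∃ n : ℤ,
      V.valuation (algebraMap L K l) = V.valuation (algebraMap L K π) ^ n)
    (hD : ∀ l : L, V.valuation (algebraMap L K l) ≤ 1 → V.valuation (D (algebraMap L K l)) ≤ 1)
    (hDπ : V.valuation (D (algebraMap L K π) / algebraMap L K π) ≤ 1) {z : K} (hz : z ∈ V) :
    D z ∈ V := by
  by_cases h0 : z = 0
  · rw [h0, map_zero]
    exact V.zero_mem
  · have h := tame_log V hK hdeg D hπ0 hπ hval hD hDπ h0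
    rw [V.valuation_le_one_iff] at h
    have : D z = z * (D z / z) := by field_simp
    rw [this]
    exact V.mul_mem _ _ hz h

theorem tame_strict (hK : (p : K) = 0) (hdeg : ∀ z : K, (minpoly L z).natDegree < p)
    (D : Derivation k K K) {π : L} (hπ0 : π ≠ 0) (hπ : V.valuation (algebraMap L K π) < 1)
    (hval : ∀ l : L, l ≠ 0 → ∃ n : ℤ,
      V.valuation (algebraMap L K l) = V.valuation (algebraMap L K π) ^ n)
    (hD : ∀ l : L, V.valuation (algebraMap L K l) ≤ 1 → V.valuation (D (algebraMap L K l)) < 1)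
    (hDπ : V.valuation (D (algebraMap L K π) / algebraMap L K π) ≤ 1) {z : K} (hz : z ∈ V) :
    V.valuation (D z) < 1 := by
  have hld : ∀ y : K, y ≠ 0 → V.valuation (D y / y) ≤ 1 := fun y hy =>
    tame_log V hK hdeg D hπ0 hπ hval (fun l hl => (hD l hl).le) hDπ hy
  obtain ⟨g, hg1, hg2, hg3, hg4⟩ := exists_relation (L := L) V z (hdeg z)
  have h := residue_lemma (L := L) V hK D one_ne_zero
    (by
      intro u hu
      rw [div_one, V.valuation_le_one_iff]
      exact tame_mem V hK hdeg D hπ0 hπ hval (fun l hl => (hD l hl).le) hDπ hu)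
    (by
      intro u hu
      rw [div_one]
      by_cases h0 : u = 0
      · rw [h0, map_zero, map_zero]
        exact zero_lt_one
      · have : D u = u * (D u / u) := by field_simp
        rw [this, map_mul]
        calc _ ≤ V.valuation u * 1 := by
              gcongr
              exact hld u h0
          _ < 1 := by rw [mul_one]; exact hu)
    (by
      intro l hl
      rw [div_one]
      exact hD l hl) hz g.natDegree g hg1 le_rfl
    (by rw [hg2, map_zero]; exact zero_lt_one) hg3 hg4
  rwa [div_one] at h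

end main

end Pool.Agent.Q72.GN
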