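import Pool.Agent.Q72.GN.Form
import Pool.Agent.Q72.GN.LogD

/-!
Traces of two-forms.
-/

namespace Pool.Agent.Q72.GN

open Pool.Agent.Helper198.Sch

section core

variable {L : Type} [Field L]

/-- discrete valuation rings with uniformizer `π` -/
structure DV (R : ValuationSubring L) (π : L) : Prop where
  ne : π ≠ 0
  mem : π ∈ R
  inv : π⁻¹ ∉ R
  fac : ∀ l : L, l ≠ 0 → ∃ (n : ℤ) (u : L), u ∈ R ∧ u⁻¹ ∈ R ∧ l = π ^ n * u

/-- valuation rings of the algebraic closure over a discrete valuation ring -/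
theorem exists_val (R : ValuationSubring L) {π : L} (hπR : π ∈ R) (hπ : π⁻¹ ∉ R) :
    ∃ W : ValuationSubring (AlgebraicClosure L),
      (∀ r ∈ R, algebraMap L (AlgebraicClosure L) r ∈ W) ∧
        W.valuation (algebraMap L (AlgebraicClosure L) π) < 1 := by
  obtain ⟨W, h, hloc⟩ := IsLocalRing.exists_factor_valuationRing
    ((algebraMap L (AlgebraicClosure L)).comp R.subtype)
  refine ⟨W, fun r hr => h ⟨r, hr⟩, ?_⟩
  have h1 := W.valuation_lt_one_iff ⟨_, h ⟨π, hπR⟩⟩
  refine h1.1 ?_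
  rw [IsLocalRing.mem_maximalIdeal, mem_nonunits_iff]
  intro hu
  have h2 : IsUnit (⟨π, hπR⟩ : R) := hloc.map_nonunit _ hu
  obtain ⟨c, hc⟩ := h2.exists_right_inv
  apply hπ
  have h3 : π * c = 1 := congrArg Subtype.val hc
  have h4 : π⁻¹ = c := inv_eq_of_mul_eq_one_right h3
  rw [h4]
  exact c.2

variable {Ω : Type} [Field Ω] [Algebra L Ω]

lemma DV.mem_of {R : ValuationSubring L} {π : L} (hR : DV R π) {W : ValuationSubring Ω}
    (h1 : ∀ r ∈ R, algebraMap L Ω r ∈ W) (h2 : W.valuation (algebraMap L Ω π) < 1) {l : L}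
    (hl : algebraMap L Ω l ∈ W) : l ∈ R := by
  by_cases h0 : l = 0
  · rw [h0]; exact R.zero_mem
  · obtain ⟨n, u, hu, hu', rfl⟩ := hR.fac l h0
    have hvu : W.valuation (algebraMap L Ω u) = 1 := by
      apply le_antisymm ((W.valuation_le_one_iff _).2 (h1 _ hu))
      have h3 := (W.valuation_le_one_iff _).2 (h1 _ hu')
      rw [map_inv₀, map_inv₀] at h3
      by_contra hcon
      push Not at hcon
      have hu0 : u ≠ 0 := by
        rintro rfl
        exact h0 (mul_zero _)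
      have hpos : 0 < W.valuation (algebraMap L Ω u) :=
        zero_lt_iff.2 ((map_ne_zero W.valuation).2 ((map_ne_zero _).2 hu0))
      exact absurd h3 (not_le.2 ((one_lt_inv₀ hpos).2 hcon))
    have hn : 0 ≤ n := by
      rw [← W.valuation_le_one_iff, map_mul, map_mul, hvu, mul_one, map_zpow₀, map_zpow₀,
        ← zpow_zero (W.valuation (algebraMap L Ω π))] at hl
      have hpos : 0 < W.valuation (algebraMap L Ω π) :=
        zero_lt_iff.2 ((map_ne_zero W.valuation).2 ((map_ne_zero _).2 hR.ne))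
      exact (zpow_le_zpow_iff_right_of_lt_one₀ hpos h2).1 hl
    obtain ⟨m, rfl⟩ := Int.eq_ofNat_of_zero_le hn
    rw [zpow_natCast]
    exact R.mul_mem _ _ (pow_mem hR.mem _) hu

lemma DV.lt_of {R : ValuationSubring L} {π : L} (hR : DV R π) {W : ValuationSubring Ω}
    (h1 : ∀ r ∈ R, algebraMap L Ω r ∈ W) (h2 : W.valuation (algebraMap L Ω π) < 1) {l : L}
    (hl : W.valuation (algebraMap L Ω l) < 1) : ∃ r ∈ R, l = π * r := by
  by_cases h0 : l = 0
  · exact ⟨0, R.zero_mem, by rw [h0, mul_zero]⟩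
  · obtain ⟨n, u, hu, hu', rfl⟩ := hR.fac l h0
    have hvu : W.valuation (algebraMap L Ω u) = 1 := by
      apply le_antisymm ((W.valuation_le_one_iff _).2 (h1 _ hu))
      have h3 := (W.valuation_le_one_iff _).2 (h1 _ hu')
      rw [map_inv₀, map_inv₀] at h3
      by_contra hcon
      push Not at hcon
      have hu0 : u ≠ 0 := by
        rintro rfl
        exact h0 (mul_zero _)
      have hpos : 0 < W.valuation (algebraMap L Ω u) :=
        zero_lt_iff.2 ((map_ne_zero W.valuation).2 ((map_ne_zero _).2 hu0))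
      exact absurd h3 (not_le.2 ((one_lt_inv₀ hpos).2 hcon))
    have hn : 0 < n := by
      rw [map_mul, map_mul, hvu, mul_one, map_zpow₀, map_zpow₀,
        ← zpow_zero (W.valuation (algebraMap L Ω π))] at hl
      have hpos : 0 < W.valuation (algebraMap L Ω π) :=
        zero_lt_iff.2 ((map_ne_zero W.valuation).2 ((map_ne_zero _).2 hR.ne))
      exact (zpow_lt_zpow_iff_right_of_lt_one₀ hpos h2).1 hl
    obtain ⟨m, rfl⟩ : ∃ m : ℕ, n = m + 1 := ⟨(n - 1).toNat, by omega⟩
    refine ⟨π ^ m * u, R.mul_mem _ _ (pow_mem hR.mem _) hu, ?_⟩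
    rw [zpow_add_one₀ hR.ne, zpow_natCast]
    ring

lemma DV.hval {R : ValuationSubring L} {π : L} (hR : DV R π) {W : ValuationSubring Ω}
    (h1 : ∀ r ∈ R, algebraMap L Ω r ∈ W) {l : L}
    (hl : l ≠ 0) : ∃ n : ℤ, W.valuation (algebraMap L Ω l) = W.valuation (algebraMap L Ω π) ^ n := by
  obtain ⟨n, u, hu, hu', rfl⟩ := hR.fac l hl
  refine ⟨n, ?_⟩
  have hvu : W.valuation (algebraMap L Ω u) = 1 := by
    apply le_antisymm ((W.valuation_le_one_iff _).2 (h1 _ hu))
    have h3 := (W.valuation_le_one_iff _).2 (h1 _ hu')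
    rw [map_inv₀, map_inv₀] at h3
    by_contra hcon
    push Not at hcon
    have hu0 : u ≠ 0 := by
      rintro rfl
      exact hl (mul_zero _)
    have hpos : 0 < W.valuation (algebraMap L Ω u) :=
      zero_lt_iff.2 ((map_ne_zero W.valuation).2 ((map_ne_zero _).2 hu0))
    exact absurd h3 (not_le.2 ((one_lt_inv₀ hpos).2 hcon))
  rw [map_mul, map_mul, hvu, mul_one, map_zpow₀, map_zpow₀]

end core

section tr

variable {k L K : Type} [Field k] [Field L] [Field K] [Algebra k K] [Algebra L K]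
  [FiniteDimensional L K] [Algebra.IsSeparable L K] {p : ℕ} [hp : Fact p.Prime]

theorem trace_mem {R : ValuationSubring L} {π : L} (hR : DV R π) (hK : (p : K) = 0)
    (hdeg : ∀ z : K, (minpoly L z).natDegree < p)
    {x y : Fin 3 → K} (h : PtY p x y) (hx : ∀ m, x m ≠ 0) (hy : ∀ m, y m ≠ 0) {m n : Fin 3 → ℕ}
    (hm : ∑ a, m a = p - 2) (hn : ∑ a, n a = p - 2) (D1 D2 : Derivation k K K)
    (h1 : ∀ r ∈ R, ∃ s ∈ R, D1 (algebraMap L K r) = algebraMap L K s)
    (h2 : ∀ r ∈ R, ∃ s ∈ R, D2 (algebraMap L K r) = algebraMap L K s)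
    (h1π : ∃ s ∈ R, D1 (algebraMap L K π) = algebraMap L K (π * s))
    (h2π : ∃ s ∈ R, D2 (algebraMap L K π) = algebraMap L K (π * s)) :
    Algebra.trace L K (mon x y m n * Th p x y D1 D2) ∈ R := by
  obtain ⟨W, hW1, hW2⟩ := exists_val R hR.mem hR.inv
  apply hR.mem_of hW1 hW2
  rw [trace_eq_sum_embeddings (AlgebraicClosure L)]
  apply sum_mem
  intro σ _
  have hσ : ∀ l : L, σ (algebraMap L K l) = algebraMap L (AlgebraicClosure L) l := σ.commutes
  let V : ValuationSubring K := W.comap σ.toRingHom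
  have hV : ∀ z : K, z ∈ V ↔ σ z ∈ W := fun z => Iff.rfl
  have hVR : ∀ r ∈ R, algebraMap L K r ∈ V := by
    intro r hr
    rw [hV, hσ]
    exact hW1 r hr
  have hπK : algebraMap L K π ≠ 0 := (map_ne_zero _).2 hR.ne
  have hVπ : V.valuation (algebraMap L K π) < 1 := by
    have h3 : (algebraMap L K π)⁻¹ ∉ V := by
      rw [hV, map_inv₀, hσ, ← W.valuation_le_one_iff, map_inv₀, not_le]
      have hpos : 0 < W.valuation (algebraMap L (AlgebraicClosure L) π) :=
        zero_lt_iff.2 ((map_ne_zero W.valuation).2 ((map_ne_zero _).2 hR.ne))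
      exact (one_lt_inv₀ hpos).2 hW2
    rw [← V.valuation_le_one_iff, map_inv₀, not_le] at h3
    have hpos : 0 < V.valuation (algebraMap L K π) :=
      zero_lt_iff.2 ((map_ne_zero V.valuation).2 hπK)
    exact (one_lt_inv₀ hpos).1 h3
  have hmem : ∀ D : Derivation k K K, (∀ r ∈ R, ∃ s ∈ R, D (algebraMap L K r) = algebraMap L K s) →
      (∃ s ∈ R, D (algebraMap L K π) = algebraMap L K (π * s)) → ∀ z ∈ V, D z ∈ V := by
    rintro D hD ⟨s, hs, hDs⟩ z hz
    refine tame_mem V hK hdeg D hR.ne hVπ (fun l hl => hR.hval hVR hl) ?_ ?_ hz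
    · intro l hl
      obtain ⟨s', hs', h4⟩ := hD l (hR.mem_of hVR hVπ ((V.valuation_le_one_iff _).1 hl))
      rw [h4, V.valuation_le_one_iff]
      exact hVR _ hs'
    · rw [hDs, map_mul, mul_div_cancel_left₀ _ hπK, V.valuation_le_one_iff]
      exact hVR _ hs
  obtain ⟨g, z, w, hg, hz, hw, hf⟩ := form_chart (k := k) hK h hx hy hm hn V
  have e1 := hmem D1 h1 h1π
  have e2 := hmem D2 h2 h2π
  have h5 : mon x y m n * Th p x y D1 D2 ∈ V := by
    rw [hf]
    exact V.mul_mem _ _ hg (V.sub_mem (V.mul_mem _ _ (e1 z hz) (e2 w hw))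
      (V.mul_mem _ _ (e2 z hz) (e1 w hw)))
  exact h5

theorem trace_mem_strict {R : ValuationSubring L} {π : L} (hR : DV R π) (hK : (p : K) = 0)
    (hdeg : ∀ z : K, (minpoly L z).natDegree < p)
    {x y : Fin 3 → K} (h : PtY p x y) (hx : ∀ m, x m ≠ 0) (hy : ∀ m, y m ≠ 0) {m n : Fin 3 → ℕ}
    (hm : ∑ a, m a = p - 2) (hn : ∑ a, n a = p - 2) (D1 D2 : Derivation k K K)
    (h1 : ∀ r ∈ R, ∃ s ∈ R, D1 (algebraMap L K r) = algebraMap L K (π * s))
    (h2 : ∀ r ∈ R, ∃ s ∈ R, D2 (algebraMap L K r) = algebraMap L K s)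
    (h2π : ∃ s ∈ R, D2 (algebraMap L K π) = algebraMap L K (π * s)) :
    ∃ r ∈ R, Algebra.trace L K (mon x y m n * Th p x y D1 D2) = π * r := by
  obtain ⟨W, hW1, hW2⟩ := exists_val R hR.mem hR.inv
  apply hR.lt_of hW1 hW2
  rw [trace_eq_sum_embeddings (AlgebraicClosure L)]
  apply W.valuation.map_sum_lt one_ne_zero
  intro σ _
  have hσ : ∀ l : L, σ (algebraMap L K l) = algebraMap L (AlgebraicClosure L) l := σ.commutes
  let V : ValuationSubring K := W.comap σ.toRingHom
  have hV : ∀ z : K, z ∈ V ↔ σ z ∈ W := fun z => Iff.rfl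
  have hVR : ∀ r ∈ R, algebraMap L K r ∈ V := by
    intro r hr
    rw [hV, hσ]
    exact hW1 r hr
  have hπK : algebraMap L K π ≠ 0 := (map_ne_zero _).2 hR.ne
  have hlt : ∀ z : K, V.valuation z < 1 → W.valuation (σ z) < 1 := by
    intro z hz
    by_cases hz0 : z = 0
    · rw [hz0, map_zero, map_zero]
      exact zero_lt_one
    have hpos : 0 < V.valuation z := zero_lt_iff.2 ((map_ne_zero V.valuation).2 hz0)
    have h3 : z⁻¹ ∉ V := by
      rw [← V.valuation_le_one_iff, map_inv₀, not_le]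
      exact (one_lt_inv₀ hpos).2 hz
    rw [hV, map_inv₀, ← W.valuation_le_one_iff, map_inv₀, not_le] at h3
    have hpos' : 0 < W.valuation (σ z) :=
      zero_lt_iff.2 ((map_ne_zero W.valuation).2 ((map_ne_zero _).2 hz0))
    exact (one_lt_inv₀ hpos').1 h3
  have hVπ : V.valuation (algebraMap L K π) < 1 := by
    have h3 : (algebraMap L K π)⁻¹ ∉ V := by
      rw [hV, map_inv₀, hσ, ← W.valuation_le_one_iff, map_inv₀, not_le]
      have hpos : 0 < W.valuation (algebraMap L (AlgebraicClosure L) π) :=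
        zero_lt_iff.2 ((map_ne_zero W.valuation).2 ((map_ne_zero _).2 hR.ne))
      exact (one_lt_inv₀ hpos).2 hW2
    rw [← V.valuation_le_one_iff, map_inv₀, not_le] at h3
    have hpos : 0 < V.valuation (algebraMap L K π) :=
      zero_lt_iff.2 ((map_ne_zero V.valuation).2 hπK)
    exact (one_lt_inv₀ hpos).1 h3
  have e2 : ∀ z ∈ V, D2 z ∈ V := by
    obtain ⟨s, hs, hDs⟩ := h2π
    intro z hz
    refine tame_mem V hK hdeg D2 hR.ne hVπ (fun l hl => hR.hval hVR hl) ?_ ?_ hz
    · intro l hl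
      obtain ⟨s', hs', h4⟩ := h2 l (hR.mem_of hVR hVπ ((V.valuation_le_one_iff _).1 hl))
      rw [h4, V.valuation_le_one_iff]
      exact hVR _ hs'
    · rw [hDs, map_mul, mul_div_cancel_left₀ _ hπK, V.valuation_le_one_iff]
      exact hVR _ hs
  have e1 : ∀ z ∈ V, V.valuation (D1 z) < 1 := by
    intro z hz
    obtain ⟨s, hs, hDs⟩ := h1 π hR.mem
    refine tame_strict V hK hdeg D1 hR.ne hVπ (fun l hl => hR.hval hVR hl) ?_ ?_ hz
    · intro l hl
      obtain ⟨s', hs', h4⟩ := h1 l (hR.mem_of hVR hVπ ((V.valuation_le_one_iff _).1 hl))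
      rw [h4, map_mul, map_mul]
      calc _ ≤ V.valuation (algebraMap L K π) * 1 := by
            gcongr
            exact (V.valuation_le_one_iff _).2 (hVR _ hs')
        _ < 1 := by rw [mul_one]; exact hVπ
    · rw [hDs, map_mul, mul_div_cancel_left₀ _ hπK, V.valuation_le_one_iff]
      exact hVR _ hs
  obtain ⟨g, z, w, hg, hz, hw, hf⟩ := form_chart (k := k) hK h hx hy hm hn V
  apply hlt
  have hmul : ∀ a b : K, V.valuation a ≤ 1 → V.valuation b < 1 → V.valuation (a * b) < 1 := by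
    intro a b ha hb
    rw [map_mul]
    calc _ ≤ 1 * V.valuation b := by gcongr
      _ < 1 := by rw [one_mul]; exact hb
  rw [hf]
  apply hmul _ _ ((V.valuation_le_one_iff _).2 hg)
  refine lt_of_le_of_lt (V.valuation.map_sub _ _) (max_lt ?_ ?_)
  · rw [mul_comm]
    exact hmul _ _ ((V.valuation_le_one_iff _).2 (e2 w hw)) (e1 z hz)
  · exact hmul _ _ ((V.valuation_le_one_iff _).2 (e2 z hz)) (e1 w hw)

end tr

end Pool.Agent.Q72.GN
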