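import Pool.Agent.Q72.GN.Geo

/-!
The surface: preimages of lines.
-/

open MvPolynomial AlgebraicGeometry CategoryTheory Limits TopologicalSpace

namespace Pool.Agent.Q72.GN

open Pool.Agent.Helper198.Sch

attribute [local instance] MvPolynomial.gradedAlgebra

section ff

variable (p : ℕ) [hp : Fact p.Prime] (k : Type) [Field k] [CharP k p]

lemma generic_mem (c : Idx) :
    genericPoint (V (JY p k)) ∈ (V.chart (JY p k) c).opensRange := by
  apply ((genericPoint_spec (V (JY p k))).mem_open_set_iff (V.chart (JY p k) c).opensRange.isOpen).2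
  refine ⟨V.chart (JY p k) c (ptQ (k := k) (ptL (p := p) (fun _ => (1 : k))) c
    (xL_ne_zero (one_ne' k) _) (yL_ne_zero (one_ne' k) _)), trivial, ⟨_, rfl⟩⟩

/-- the homomorphism from the chart ring to the function field. -/
noncomputable def rho (c : Idx) : Ch (JY p k) c →+* (V (JY p k)).functionField :=
  (exists_chartHom (V.chart (JY p k) c) (generic_mem p k c)).choose

lemma rho_spec (c : Idx) : Spec.map (CommRingCat.ofHom (rho p k c)) ≫ V.chart (JY p k) c =
    (V (JY p k)).fromSpecStalk (genericPoint (V (JY p k))) :=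
  (exists_chartHom (V.chart (JY p k) c) (generic_mem p k c)).choose_spec

lemma rho_trans (c d e : Idx) :
    rho p k c (frac _ c e) = rho p k d (frac _ d e) * rho p k c (frac _ c d) :=
  frac_trans (JY p k) _ c d e (rho p k c) (rho p k d) (rho_spec p k c) (rho_spec p k d)

lemma rho_frac_ne_zero (c e : Idx) : rho p k c (frac _ c e) ≠ 0 := by
  apply rho_ne_zero (V.chart (JY p k) c) (rho_spec p k c)
    (ptQ (k := k) (ptL (p := p) (fun _ => (1 : k))) c
      (xL_ne_zero (one_ne' k) _) (yL_ne_zero (one_ne' k) _))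
  rw [mem_ptQ, ptHom_frac]
  exact mul_ne_zero (div_ne_zero (xL_ne_zero (one_ne' k) _) (xL_ne_zero (one_ne' k) _))
    (div_ne_zero (yL_ne_zero (one_ne' k) _) (yL_ne_zero (one_ne' k) _))

lemma constants_rho (c : Idx) (r : k) :
    constants (V.str (JY p k)) r = rho p k c (algebraMap k _ r) :=
  constants_eq (V.chart (JY p k) c) (rho_spec p k c) (V.str (JY p k)) (V.chart_str _ _) r

/-- the homogeneous coordinates of the projection to the first plane. -/
noncomputable def hY (m : Fin 3) : (V (JY p k)).functionField := rho p k (0, 1) (frac _ (0, 1) (m, 1))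

lemma hY_ne_zero (m : Fin 3) : hY p k m ≠ 0 := rho_frac_ne_zero p k _ _

lemma hY_eq (t : Tri) (m : Fin 3) :
    hY p k m = hY p k t.i * rho p k t.c (frac _ t.c (m, t.j)) := by
  have hs := satY_frac (R := k) p t.c
  have hc : frac (JY p k) t.c t.c = 1 := frac_self _ _
  have h1 : ∀ n, rho p k t.c (frac _ t.c (n, 1)) =
      hY p k n * rho p k t.c (frac _ t.c (0, 1)) := fun n => rho_trans p k t.c (0, 1) (n, 1)
  have h2 := h1 m
  rw [hs.prod t hc m 1, map_mul, h1 t.i] at h2
  apply mul_right_cancel₀ (rho_frac_ne_zero p k t.c (0, 1))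
  rw [← h2]
  ring

/-- The form of the line in the chart. -/
noncomputable def lineForm (t : Tri) (a : Fin 3 → k) : Ch (JY p k) t.c :=
  ∑ m, algebraMap k _ (a m) * frac _ t.c (m, t.j)

lemma sum_hY (t : Tri) (a : Fin 3 → k) (c : (V (JY p k)).functionField) :
    ∑ m, constants (V.str (JY p k)) (a m) * (c * hY p k m) =
      c * hY p k t.i * rho p k t.c (lineForm p k t a) := by
  rw [lineForm, map_sum, Finset.mul_sum]
  refine Finset.sum_congr rfl fun m _ => ?_
  rw [constants_rho p k t.c, hY_eq p k t m, map_mul]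
  ring

lemma mapsToLine_iff (t : Tri) (Q : Spec (.of (Ch (JY p k) t.c))) (a : Fin 3 → k) :
    MapsToLine (V.str (JY p k)) (hY p k) a (V.chart (JY p k) t.c Q) ↔
      lineForm p k t a ∈ Q.asIdeal := by
  have hQ : Q.asIdeal.IsPrime := Q.isPrime
  have hi : frac (JY p k) t.c (t.i, t.j) = 1 := frac_self _ _
  constructor
  · rintro ⟨c, h1, ⟨n, hn⟩, h3⟩
    rw [sum_hY p k t] at h3
    obtain ⟨a1, b1, hb1, e1⟩ := (isRegularAt_iff _ (rho_spec p k t.c) Q _).1 (h1 t.i)
    have ha1 : a1 ∉ Q.asIdeal := by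
      intro ha1
      apply hn
      rw [vanishesAt_iff _ (rho_spec p k t.c) Q]
      refine ⟨a1 * frac _ t.c (n, t.j), b1, Ideal.mul_mem_right _ _ ha1, hb1, ?_⟩
      rw [hY_eq p k t n, ← mul_assoc, e1, map_mul]
      ring
    obtain ⟨a2, b2, ha2, hb2, e2⟩ := (vanishesAt_iff _ (rho_spec p k t.c) Q _).1 h3
    rw [e1] at e2
    have hb1' := rho_ne_zero _ (rho_spec p k t.c) Q hb1
    have hb2' := rho_ne_zero _ (rho_spec p k t.c) Q hb2
    have e3 : rho p k t.c (a1 * lineForm p k t a * b2) = rho p k t.c (a2 * b1) := by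
      rw [map_mul, map_mul, map_mul]
      field_simp at e2
      linear_combination e2
    have e4 := rho_injective _ (rho_spec p k t.c) e3
    have e5 : a1 * lineForm p k t a * b2 ∈ Q.asIdeal := by
      rw [e4]
      exact Ideal.mul_mem_right _ _ ha2
    rcases hQ.mem_or_mem e5 with h | h
    · rcases hQ.mem_or_mem h with h | h
      · exact absurd h ha1
      · exact h
    · exact absurd h hb2
  · intro h
    have h1 : (1 : Ch (JY p k) t.c) ∉ Q.asIdeal := fun h => hQ.ne_top ((Ideal.eq_top_iff_one _).2 h)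
    refine ⟨(hY p k t.i)⁻¹, ?_, ⟨t.i, ?_⟩, ?_⟩
    · intro m
      rw [isRegularAt_iff _ (rho_spec p k t.c) Q]
      refine ⟨frac _ t.c (m, t.j), 1, h1, ?_⟩
      rw [hY_eq p k t m, map_one, div_one, ← mul_assoc, inv_mul_cancel₀ (hY_ne_zero p k _), one_mul]
    · rw [inv_mul_cancel₀ (hY_ne_zero p k _), vanishesAt_iff _ (rho_spec p k t.c) Q]
      rintro ⟨a1, b1, ha1, hb1, e1⟩
      have hb1' := rho_ne_zero _ (rho_spec p k t.c) Q hb1
      rw [eq_div_iff hb1', one_mul] at e1
      have e2 := rho_injective _ (rho_spec p k t.c) e1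
      rw [e2] at hb1
      exact hb1 ha1
    · rw [sum_hY p k t, inv_mul_cancel₀ (hY_ne_zero p k _), one_mul,
        vanishesAt_iff _ (rho_spec p k t.c) Q]
      exact ⟨lineForm p k t a, 1, h, h1, by rw [map_one, div_one]⟩

end ff

section generic

variable {p : ℕ} [hp : Fact p.Prime] {k : Type} [Field k] [CharP k p]

/-- the generic point of the preimage of the line with coefficients `b m ^ p`. -/
noncomputable def gp (p : ℕ) [hp : Fact p.Prime] {k : Type} [Field k] [CharP k p] {b : Fin 3 → k}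
    (hb : ∀ m, b m ≠ 0) : V (JY p k) :=
  ptM (k := k) (ptL (p := p) b) t0.c (xL_ne_zero hb _) (yL_ne_zero hb _) (thePt (RatFunc k))

lemma gp_eq {b : Fin 3 → k} (hb : ∀ m, b m ≠ 0) :
    gp p hb = V.chart (JY p k) t0.c (ptQ (k := k) (ptL (p := p) b) t0.c (xL_ne_zero hb _)
      (yL_ne_zero hb _)) := rfl

lemma gp_mapsTo {b : Fin 3 → k} (hb : ∀ m, b m ≠ 0) :
    MapsToLine (V.str (JY p k)) (hY p k) (fun m => b m ^ p) (gp p hb) := by
  rw [gp_eq, mapsToLine_iff, mem_ptQ, lineForm, map_sum]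
  have hx := xL_ne_zero (p := p) hb t0.i
  have hy := yL_ne_zero (p := p) hb t0.j
  have h : ∀ m : Fin 3, ptHom (k := k) (ptL (p := p) b) t0.c (xL_ne_zero hb _)
      (yL_ne_zero hb _) (algebraMap k _ (b m ^ p) * frac _ t0.c (m, t0.j)) =
      (algebraMap k (RatFunc k) (b m ^ p) * xL p b m) * (xL p b t0.i)⁻¹ := by
    intro m
    rw [map_mul, ptHom_frac, AlgHom.commutes]
    simp only [wn, Tri.c]
    field_simp
  rw [Finset.sum_congr rfl (fun m _ => h m), ← Finset.sum_mul, xL_sum, zero_mul]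

end generic

end Pool.Agent.Q72.GN
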