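import Pool.Agent.Helper198.CurveDefs

/-!
Rational maps from an integral scheme over a field to the projective plane, preimages of lines,
gonality.
-/

open AlgebraicGeometry CategoryTheory

namespace Pool.Agent.Q72.GN

variable {k : Type} [Field k] {X : Scheme.{0}} (f : X ⟶ Spec (.of k))

/-- For an integral `k`-scheme `X`, the inclusion of `k` in the function field of `X`. -/
noncomputable def constants [IsIntegral X] : k →+* X.functionField :=
  (Spec.preimage (X.fromSpecStalk (genericPoint X) ≫ f)).hom

/-- The inclusion of `k` in the residue field of the `k`-scheme `X` at the point `x`. -/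
noncomputable def resConstants (x : X) : k →+* X.residueField x :=
  (Spec.preimage (X.fromSpecResidueField x ≫ f)).hom

/-- The inclusion of the local ring of `X` at `x` in the function field of `X`. -/
noncomputable def toFF [IsIntegral X] (x : X) : X.presheaf.stalk x →+* X.functionField :=
  (X.presheaf.stalkSpecializes (genericPoint_specializes x)).hom

/-- The rational function `z` on `X` is regular at `x`. -/
def IsRegularAt [IsIntegral X] (x : X) (z : X.functionField) : Prop :=
  ∃ s : X.presheaf.stalk x, toFF x s = z

/-- The rational function `z` on `X` is regular at `x` and vanishes there. -/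
def VanishesAt [IsIntegral X] (x : X) (z : X.functionField) : Prop :=
  ∃ s ∈ IsLocalRing.maximalIdeal (X.presheaf.stalk x), toFF x s = z

/-- Rational maps from `X` to the projective plane are given by their homogeneous coordinates
`(h 0 : h 1 : h 2)` in the function field of `X`. The rational map is dominant when no nonzero
form in three variables with coefficients in `k` vanishes at `(h 0, h 1, h 2)`. -/
def Dominant [IsIntegral X] (h : Fin 3 → X.functionField) : Prop :=
  letI : Algebra k X.functionField := (constants f).toAlgebra
  ∀ (d : ℕ) (F : MvPolynomial (Fin 3) k), F.IsHomogeneous d → F ≠ 0 → MvPolynomial.aeval h F ≠ 0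

/-- The degree of the rational map `ψ = (h 0 : h 1 : h 2)`, that is the degree of the function
field of `X` over the subfield `ψ^* k(ℙ²)`, which is generated over `k` by the quotients
`h i / h j`. -/
noncomputable def degree [IsIntegral X] (h : Fin 3 → X.functionField) : Cardinal.{0} :=
  letI : Algebra k X.functionField := (constants f).toAlgebra
  Module.rank (IntermediateField.adjoin k {z : X.functionField | ∃ i j, z = h i / h j})
    X.functionField

/-- The rational map `ψ = (h 0 : h 1 : h 2)` is defined at the point `x` and `ψ(x)` lies on the
line `a 0 * T 0 + a 1 * T 1 + a 2 * T 2 = 0`. -/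
def MapsToLine [IsIntegral X] (h : Fin 3 → X.functionField) (a : Fin 3 → k) (x : X) : Prop :=
  ∃ c : X.functionField, (∀ i, IsRegularAt x (c * h i)) ∧ (∃ i, ¬ VanishesAt x (c * h i)) ∧
    VanishesAt x (∑ i, constants f (a i) * (c * h i))

/-- The gonality of the integral curve in `X` with generic point `ξ`: the least degree of a
nonconstant map from its normalization to the projective line, that is the least degree of the
residue field of `ξ` over a subfield `k(t)` with `t` transcendental over `k`. -/
noncomputable def gonality (ξ : X) : Cardinal.{0} :=
  letI : Algebra k (X.residueField ξ) := (resConstants f ξ).toAlgebra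
  ⨅ t : {t : X.residueField ξ // Transcendental k t},
    Module.rank (IntermediateField.adjoin k {t.1}) (X.residueField ξ)

end Pool.Agent.Q72.GN
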