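import Mathlib

/-!
Extension of derivations, and spanning sets of finite field extensions.
-/

open MvPolynomial TensorProduct

namespace Pool.Agent.Q72.GN

section ext

/-- extension of derivations along formally étale algebras -/
theorem exists_derivation_ext (k S T : Type) [CommRing k] [CommRing S] [CommRing T] [Algebra k S]
    [Algebra k T] [Algebra S T] [IsScalarTower k S T] [Algebra.FormallyEtale S T]
    (d : Derivation k S T) : ∃ D : Derivation k T T, ∀ s, D (algebraMap S T s) = d s := by
  let e := KaehlerDifferential.tensorKaehlerEquivOfFormallyEtale k S T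
  let l : Ω[T⁄k] →ₗ[T] T := (d.liftKaehlerDifferential.liftBaseChange T) ∘ₗ e.symm.toLinearMap
  refine ⟨l.compDer (KaehlerDifferential.D k T), fun s => ?_⟩
  change d.liftKaehlerDifferential.liftBaseChange T (e.symm (KaehlerDifferential.D k T
    (algebraMap S T s))) = d s
  rw [KaehlerDifferential.tensorKaehlerEquivOfFormallyEtale_symm_D_algebraMap]
  simp

variable {k L K : Type} [Field k] [Field L] [Field K] [Algebra k K] [Algebra L K] [Algebra k L]
  [IsScalarTower k L K]
  (φ : MvPolynomial (Fin 2) k →ₐ[k] L) (hφ : Function.Injective φ)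
  (hfr : ∀ l : L, ∃ a b, b ≠ 0 ∧ l = φ a / φ b)

include hφ hfr in
theorem exists_derivs [FiniteDimensional L K] [Algebra.IsSeparable L K] :
    ∃ D : Fin 2 → Derivation k K K,
      ∀ i a, D i (algebraMap L K (φ a)) = algebraMap L K (φ (pderiv i a)) := by
  let _ : Algebra (MvPolynomial (Fin 2) k) L := φ.toRingHom.toAlgebra
  let _ : Algebra (MvPolynomial (Fin 2) k) K := ((algebraMap L K).comp φ.toRingHom).toAlgebra
  have h1 : IsScalarTower (MvPolynomial (Fin 2) k) L K := IsScalarTower.of_algebraMap_eq' rfl
  have h2 : IsScalarTower k (MvPolynomial (Fin 2) k) K := by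
    apply IsScalarTower.of_algebraMap_eq'
    ext r
    change algebraMap k K r = algebraMap L K (φ (algebraMap k _ r))
    rw [φ.commutes]
    exact IsScalarTower.algebraMap_apply k L K r
  have h3 : IsFractionRing (MvPolynomial (Fin 2) k) L := by
    refine ⟨?_, ?_, ?_⟩
    · rintro ⟨y, hy⟩
      apply IsUnit.mk0
      change φ y ≠ 0
      rw [Ne, map_eq_zero_iff _ hφ]
      exact nonZeroDivisors.ne_zero hy
    · intro l
      obtain ⟨a, b, hb, rfl⟩ := hfr l
      refine ⟨(a, ⟨b, mem_nonZeroDivisors_of_ne_zero hb⟩), ?_⟩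
      change φ a / φ b * φ b = φ a
      rw [div_mul_cancel₀]
      rwa [Ne, map_eq_zero_iff _ hφ]
    · intro x y hxy
      refine ⟨1, ?_⟩
      have : x = y := hφ hxy
      rw [this]
  have h4 : Algebra.FormallyEtale (MvPolynomial (Fin 2) k) L :=
    Algebra.FormallyEtale.of_isLocalization (nonZeroDivisors (MvPolynomial (Fin 2) k))
  have h5 : Algebra.FormallyEtale L K := Algebra.FormallyEtale.of_isSeparable L K
  have h6 : Algebra.FormallyEtale (MvPolynomial (Fin 2) k) K :=
    Algebra.FormallyEtale.comp _ L K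
  have h7 : ∀ i : Fin 2, ∃ D : Derivation k K K, ∀ a,
      D (algebraMap (MvPolynomial (Fin 2) k) K a) = algebraMap (MvPolynomial (Fin 2) k) K (pderiv i a) := by
    intro i
    obtain ⟨D, hD⟩ := exists_derivation_ext k (MvPolynomial (Fin 2) k) K
      ((Algebra.linearMap (MvPolynomial (Fin 2) k) K).compDer (pderiv i))
    exact ⟨D, hD⟩
  choose D hD using h7
  exact ⟨D, hD⟩

end ext

end Pool.Agent.Q72.GN
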