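import Mathlib

/-!
Dominant rational maps to the plane and their function fields.
-/

open MvPolynomial

namespace Pool.Agent.Q72.GN

section dom

variable {k K : Type} [Field k] [Field K] [Algebra k K] {h : Fin 3 → K}

lemma as_sum_two (f : MvPolynomial (Fin 2) k) :
    f = ∑ m ∈ f.support, C (coeff m f) * (X 0 ^ m 0 * X 1 ^ m 1) := by
  conv_lhs => rw [f.as_sum]
  refine Finset.sum_congr rfl fun m _ => ?_
  rw [monomial_eq, Finsupp.prod_fintype _ _ (by simp), Fin.prod_univ_two]

/-- homogenization -/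
noncomputable def hom3 (f : MvPolynomial (Fin 2) k) : MvPolynomial (Fin 3) k :=
  ∑ m ∈ f.support, C (coeff m f) * (X 0 ^ m 0 * X 1 ^ m 1 * X 2 ^ (f.totalDegree - (m 0 + m 1)))

lemma hom3_hom (f : MvPolynomial (Fin 2) k) : (hom3 f).IsHomogeneous f.totalDegree := by
  apply IsHomogeneous.sum
  intro m hm
  have h1 : m 0 + m 1 ≤ f.totalDegree := by
    have := le_totalDegree hm
    rw [Finsupp.sum_fintype _ _ (by simp), Fin.sum_univ_two] at this
    exact this
  have h2 := (isHomogeneous_C (Fin 3) (coeff m f)).mul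
    (((isHomogeneous_X_pow (R := k) (0 : Fin 3) (m 0)).mul (isHomogeneous_X_pow (R := k) (1 : Fin 3) (m 1))).mul
      (isHomogeneous_X_pow (R := k) (2 : Fin 3) (f.totalDegree - (m 0 + m 1))))
  have h3 : 0 + (m 0 + m 1 + (f.totalDegree - (m 0 + m 1))) = f.totalDegree := by omega
  rwa [h3] at h2

lemma hom3_ne {f : MvPolynomial (Fin 2) k} (hf : f ≠ 0) : hom3 f ≠ 0 := by
  intro h0
  apply hf
  have h1 := congrArg (aeval (![X 0, X 1, 1] : Fin 3 → MvPolynomial (Fin 2) k)) h0
  rw [map_zero, hom3, map_sum] at h1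
  rw [as_sum_two f, ← h1]
  refine Finset.sum_congr rfl fun m _ => ?_
  simp [algebraMap_eq]

lemma aeval_hom3 (h2 : h 2 ≠ 0) (f : MvPolynomial (Fin 2) k) :
    aeval h (hom3 f) = h 2 ^ f.totalDegree * aeval (fun i : Fin 2 => h i.castSucc / h 2) f := by
  have e1 : aeval (fun i : Fin 2 => h i.castSucc / h 2) f =
      ∑ m ∈ f.support, algebraMap k K (coeff m f) * ((h 0 / h 2) ^ m 0 * (h 1 / h 2) ^ m 1) := by
    conv_lhs => rw [as_sum_two f]
    rw [map_sum]
    refine Finset.sum_congr rfl fun m _ => ?_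
    simp only [map_mul, map_pow, aeval_X, aeval_C]
    rfl
  rw [e1, hom3, map_sum, Finset.mul_sum]
  refine Finset.sum_congr rfl fun m hm => ?_
  have h1 : m 0 + m 1 ≤ f.totalDegree := by
    have := le_totalDegree hm
    rw [Finsupp.sum_fintype _ _ (by simp), Fin.sum_univ_two] at this
    exact this
  obtain ⟨e, he⟩ := Nat.exists_eq_add_of_le h1
  simp only [map_mul, map_pow, aeval_X, aeval_C]
  rw [he, Nat.add_sub_cancel_left, div_pow, div_pow]
  field_simp
  ring

variable (hdom : ∀ (d : ℕ) (F : MvPolynomial (Fin 3) k), F.IsHomogeneous d → F ≠ 0 → aeval h F ≠ 0)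

include hdom

lemma dom_ne (i : Fin 3) : h i ≠ 0 := by
  have := hdom 1 (X i) (isHomogeneous_X k i) (X_ne_zero i)
  rwa [aeval_X] at this

lemma dom_injective : Function.Injective
    (aeval (fun i : Fin 2 => h i.castSucc / h 2) : MvPolynomial (Fin 2) k →ₐ[k] K) := by
  rw [injective_iff_map_eq_zero]
  intro f hf
  by_contra hne
  apply hdom _ _ (hom3_hom f) (hom3_ne hne)
  rw [aeval_hom3 (dom_ne hdom 2), hf, mul_zero]

/-- the field generated by the quotients of the coordinates -/
theorem dom_struct :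
    ∃ φ : MvPolynomial (Fin 2) k →ₐ[k] (IntermediateField.adjoin k {z : K | ∃ i j, z = h i / h j}),
      Function.Injective φ ∧ ∀ l, ∃ a b, b ≠ 0 ∧ l = φ a / φ b := by
  have hinj := dom_injective hdom
  have hne := dom_ne hdom
  set S : Set K := {z : K | ∃ i j, z = h i / h j} with hS
  have hmem : ∀ i : Fin 2, h i.castSucc / h 2 ∈ IntermediateField.adjoin k S := fun i =>
    IntermediateField.subset_adjoin k S ⟨_, _, rfl⟩
  let φ : MvPolynomial (Fin 2) k →ₐ[k] IntermediateField.adjoin k S :=
    aeval (fun i : Fin 2 => ⟨h i.castSucc / h 2, hmem i⟩)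
  have hφ : ∀ f, ((φ f : IntermediateField.adjoin k S) : K) =
      aeval (fun i : Fin 2 => h i.castSucc / h 2) f := by
    intro f
    have : (IntermediateField.val _).comp φ = aeval (fun i : Fin 2 => h i.castSucc / h 2) := by
      ext i
      simp [φ]
    exact congrArg (fun ψ => ψ f) this
  refine ⟨φ, ?_, ?_⟩
  · intro a b hab
    apply hinj
    rw [← hφ, ← hφ, hab]
  · intro l
    have hle : IntermediateField.adjoin k S ≤
        IntermediateField.adjoin k (Set.range (fun i : Fin 2 => h i.castSucc / h 2)) := by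
      rw [IntermediateField.adjoin_le_iff]
      rintro _ ⟨i, j, rfl⟩
      have h1 : ∀ i : Fin 3, h i / h 2 ∈
          IntermediateField.adjoin k (Set.range (fun i : Fin 2 => h i.castSucc / h 2)) := by
        intro i
        fin_cases i
        · exact IntermediateField.subset_adjoin k _ ⟨0, rfl⟩
        · exact IntermediateField.subset_adjoin k _ ⟨1, rfl⟩
        · change h 2 / h 2 ∈ _
          rw [div_self (hne 2)]
          exact one_mem _
      have h2 : h i / h j = (h i / h 2) / (h j / h 2) := by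
        have := hne 2
        have := hne j
        field_simp
      rw [h2]
      exact div_mem (h1 i) (h1 j)
    obtain ⟨a, b, hab⟩ := (IntermediateField.mem_adjoin_range_iff _ _ _).1 (hle l.2)
    by_cases hb : b = 0
    · refine ⟨0, 1, one_ne_zero, ?_⟩
      rw [hb, map_zero, div_zero] at hab
      rw [map_zero, zero_div]
      exact Subtype.ext hab
    · refine ⟨a, b, hb, ?_⟩
      apply Subtype.ext
      rw [hab, IntermediateField.coe_div, hφ, hφ]

end dom

end Pool.Agent.Q72.GN
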