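import Pool.Agent.Q72.GN.Defs

/-!
Local rings of an integral scheme in terms of charts.
-/

open AlgebraicGeometry CategoryTheory

namespace Pool.Agent.Q72.GN

section

variable {X : Scheme.{0}}

theorem exists_locHom {A : Type} [CommRing A] (j : Spec (.of A) ⟶ X) [IsOpenImmersion j]
    (Q : Spec (.of A)) :
    ∃ φ : A →+* X.presheaf.stalk (j Q),
      Spec.map (CommRingCat.ofHom φ) ≫ j = X.fromSpecStalk (j Q) ∧
      (∀ r, φ r ∈ IsLocalRing.maximalIdeal (X.presheaf.stalk (j Q)) ↔ r ∈ Q.asIdeal) ∧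
      ∀ s, ∃ a b, b ∉ Q.asIdeal ∧ s * φ b = φ a := by
  let τ : CommRingCat.of A ⟶ (Spec (.of A)).presheaf.stalk Q :=
    StructureSheaf.toStalk (CommRingCat.of A) Q
  let ψ : CommRingCat.of A ⟶ X.presheaf.stalk (j Q) := τ ≫ inv (j.stalkMap Q)
  have hQ : Q.asIdeal.IsPrime := Q.isPrime
  let halg : Algebra A ((Spec (.of A)).presheaf.stalk Q) :=
    StructureSheaf.stalkAlgebra (CommRingCat.of A) Q
  have hloc : IsLocalization.AtPrime ((Spec (.of A)).presheaf.stalk Q) Q.asIdeal :=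
    StructureSheaf.IsLocalization.to_stalk (CommRingCat.of A) Q
  have hτ : ∀ r : A, τ.hom r = algebraMap A ((Spec (.of A)).presheaf.stalk Q) r := fun r => rfl
  have hψ : ∀ r : A, j.stalkMap Q (ψ.hom r) = τ.hom r := by
    intro r
    have h1 : (ψ ≫ j.stalkMap Q).hom r = τ.hom r := by
      simp only [ψ, Category.assoc, IsIso.inv_hom_id, Category.comp_id]
    exact h1
  have hinj : Function.Injective (j.stalkMap Q) :=
    (ConcreteCategory.bijective_of_isIso (j.stalkMap Q)).1
  refine ⟨ψ.hom, ?_, ?_, ?_⟩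
  · have h1 := Scheme.SpecMap_stalkMap_fromSpecStalk j (x := Q)
    rw [Spec.fromSpecStalk_eq'] at h1
    change Spec.map (τ ≫ inv (j.stalkMap Q)) ≫ j = _
    rw [Spec.map_comp, Spec.map_inv, Category.assoc, IsIso.inv_comp_eq]
    exact h1.symm
  · intro r
    have h1 : ψ.hom r ∈ IsLocalRing.maximalIdeal (X.presheaf.stalk (j Q)) ↔
        j.stalkMap Q (ψ.hom r) ∈
          IsLocalRing.maximalIdeal ((Spec (.of A)).presheaf.stalk Q) := by
      rw [IsLocalRing.mem_maximalIdeal, IsLocalRing.mem_maximalIdeal, mem_nonunits_iff,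
        mem_nonunits_iff, not_iff_not]
      constructor
      · intro h
        exact h.map (j.stalkMap Q).hom
      · intro h
        exact isUnit_of_map_unit (j.stalkMap Q).hom _ h
    rw [h1, hψ, hτ]
    exact IsLocalization.AtPrime.to_map_mem_maximal_iff _ Q.asIdeal r
  · intro s
    obtain ⟨⟨a, b⟩, hab⟩ := IsLocalization.surj Q.asIdeal.primeCompl (j.stalkMap Q s)
    refine ⟨a, b, b.2, ?_⟩
    apply hinj
    rw [map_mul, hψ, hψ, hτ, hτ]
    exact hab

variable [IsIntegral X]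

lemma toFF_spec (x : X) : Spec.map (CommRingCat.ofHom (toFF x)) ≫ X.fromSpecStalk x =
    X.fromSpecStalk (genericPoint X) :=
  Scheme.SpecMap_stalkSpecializes_fromSpecStalk (genericPoint_specializes x)

lemma isRegularAt_generic (z : X.functionField) : IsRegularAt (genericPoint X) z := by
  refine ⟨z, ?_⟩
  unfold toFF
  rw [TopCat.Presheaf.stalkSpecializes_refl]
  rfl

/-- the homomorphism from the ring of a chart to the function field -/
theorem exists_chartHom {A : Type} [CommRing A] (j : Spec (.of A) ⟶ X) [IsOpenImmersion j]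
    (h : genericPoint X ∈ j.opensRange) :
    ∃ ρ : A →+* X.functionField,
      Spec.map (CommRingCat.ofHom ρ) ≫ j = X.fromSpecStalk (genericPoint X) := by
  obtain ⟨Q, hQ⟩ := h
  obtain ⟨φ, h1, -, -⟩ := exists_locHom j Q
  refine ⟨(toFF (j Q)).comp φ, ?_⟩
  rw [CommRingCat.ofHom_comp, Spec.map_comp, Category.assoc, h1]
  exact toFF_spec _

lemma toFF_comp {A : Type} [CommRing A] (j : Spec (.of A) ⟶ X) [IsOpenImmersion j]
    {ρ : A →+* X.functionField}
    (hρ : Spec.map (CommRingCat.ofHom ρ) ≫ j = X.fromSpecStalk (genericPoint X))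
    (Q : Spec (.of A)) {φ : A →+* X.presheaf.stalk (j Q)}
    (hφ : Spec.map (CommRingCat.ofHom φ) ≫ j = X.fromSpecStalk (j Q)) (r : A) :
    toFF (j Q) (φ r) = ρ r := by
  have h1 : Spec.map (CommRingCat.ofHom ((toFF (j Q)).comp φ)) = Spec.map (CommRingCat.ofHom ρ) := by
    rw [← cancel_mono j, hρ, CommRingCat.ofHom_comp, Spec.map_comp, Category.assoc, hφ]
    exact toFF_spec _
  have h2 := Spec.map_injective h1
  exact congrArg (fun g : CommRingCat.of A ⟶ X.functionField => g.hom r) h2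

section chart

variable {A : Type} [CommRing A] (j : Spec (.of A) ⟶ X) [IsOpenImmersion j]
  {ρ : A →+* X.functionField}
  (hρ : Spec.map (CommRingCat.ofHom ρ) ≫ j = X.fromSpecStalk (genericPoint X))
  (Q : Spec (.of A))

include hρ

lemma rho_ne_zero {b : A} (hb : b ∉ Q.asIdeal) : ρ b ≠ 0 := by
  obtain ⟨φ, h1, h2, h3⟩ := exists_locHom j Q
  have h4 : IsUnit (φ b) := by
    by_contra h
    exact hb ((h2 b).1 ((IsLocalRing.mem_maximalIdeal _).2 h))
  rw [← toFF_comp j hρ Q h1]
  exact (h4.map (toFF (j Q))).ne_zero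

lemma isRegularAt_iff (z : X.functionField) :
    IsRegularAt (j Q) z ↔ ∃ a b, b ∉ Q.asIdeal ∧ z = ρ a / ρ b := by
  obtain ⟨φ, h1, h2, h3⟩ := exists_locHom j Q
  constructor
  · rintro ⟨s, rfl⟩
    obtain ⟨a, b, hb, hab⟩ := h3 s
    refine ⟨a, b, hb, ?_⟩
    rw [eq_div_iff (rho_ne_zero j hρ Q hb), ← toFF_comp j hρ Q h1, ← toFF_comp j hρ Q h1, ← map_mul,
      hab]
  · rintro ⟨a, b, hb, rfl⟩
    have h4 : IsUnit (φ b) := by
      by_contra h
      exact hb ((h2 b).1 ((IsLocalRing.mem_maximalIdeal _).2 h))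
    obtain ⟨c, hc⟩ := h4.exists_right_inv
    refine ⟨φ a * c, ?_⟩
    rw [eq_div_iff (rho_ne_zero j hρ Q hb), ← toFF_comp j hρ Q h1, ← toFF_comp j hρ Q h1,
      ← map_mul]
    congr 1
    linear_combination (φ a) * hc

lemma vanishesAt_iff (z : X.functionField) :
    VanishesAt (j Q) z ↔ ∃ a b, a ∈ Q.asIdeal ∧ b ∉ Q.asIdeal ∧ z = ρ a / ρ b := by
  obtain ⟨φ, h1, h2, h3⟩ := exists_locHom j Q
  constructor
  · rintro ⟨s, hs, rfl⟩
    obtain ⟨a, b, hb, hab⟩ := h3 s
    refine ⟨a, b, ?_, hb, ?_⟩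
    · rw [← h2, ← hab]
      exact Ideal.mul_mem_right _ _ hs
    · rw [eq_div_iff (rho_ne_zero j hρ Q hb), ← toFF_comp j hρ Q h1, ← toFF_comp j hρ Q h1,
        ← map_mul, hab]
  · rintro ⟨a, b, ha, hb, rfl⟩
    have h4 : IsUnit (φ b) := by
      by_contra h
      exact hb ((h2 b).1 ((IsLocalRing.mem_maximalIdeal _).2 h))
    obtain ⟨c, hc⟩ := h4.exists_right_inv
    refine ⟨φ a * c, Ideal.mul_mem_right _ _ ((h2 a).2 ha), ?_⟩
    rw [eq_div_iff (rho_ne_zero j hρ Q hb), ← toFF_comp j hρ Q h1, ← toFF_comp j hρ Q h1,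
      ← map_mul]
    congr 1
    linear_combination (φ a) * hc

omit Q in
lemma rho_injective : Function.Injective ρ := by
  have h0 : Nonempty (Spec (CommRingCat.of A)) :=
    ⟨(Spec.map (CommRingCat.ofHom ρ)) (IsLocalRing.closedPoint X.functionField)⟩
  have hint : IsIntegral (Spec (CommRingCat.of A)) := isIntegral_of_isOpenImmersion j
  have hdom : IsDomain (CommRingCat.of A) := (affine_isIntegral_iff (CommRingCat.of A)).1 hint
  have hdom' : IsDomain A := hdom
  rw [injective_iff_map_eq_zero]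
  intro b hb
  by_contra hb0
  exact rho_ne_zero j hρ (⊥ : PrimeSpectrum A) (b := b) hb0 hb

omit Q in
lemma exists_frac (z : X.functionField) : ∃ a b, ρ b ≠ 0 ∧ z = ρ a / ρ b := by
  let Q0 : Spec (CommRingCat.of A) :=
    (Spec.map (CommRingCat.ofHom ρ)) (IsLocalRing.closedPoint X.functionField)
  have h1 : j Q0 = genericPoint X := by
    have h2 : (Spec.map (CommRingCat.ofHom ρ) ≫ j)
        (IsLocalRing.closedPoint X.functionField) = j Q0 := rfl
    rw [← h2, hρ]
    exact Scheme.fromSpecStalk_closedPoint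
  have h3 : IsRegularAt (j Q0) z := by
    rw [h1]
    exact isRegularAt_generic z
  obtain ⟨a, b, hb, h⟩ := (isRegularAt_iff j hρ Q0 z).1 h3
  exact ⟨a, b, rho_ne_zero j hρ Q0 hb, h⟩

omit [IsOpenImmersion j] in
/-- compatibility of constants. -/
lemma constants_eq {k : Type} [Field k] (f : X ⟶ Spec (.of k)) [Algebra k A]
    (hf : j ≫ f = Spec.map (CommRingCat.ofHom (algebraMap k A))) (r : k) :
    constants f r = ρ (algebraMap k A r) := by
  have h1 : X.fromSpecStalk (genericPoint X) ≫ f =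
      Spec.map (CommRingCat.ofHom (ρ.comp (algebraMap k A))) := by
    rw [← hρ, Category.assoc, hf, ← Spec.map_comp]
    rfl
  unfold constants
  rw [h1, Spec.preimage_map]
  rfl

end chart



end

end Pool.Agent.Q72.GN
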