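import Pool.Agent.Q72.GN.Up

/-!
The final theorem.
-/

open MvPolynomial AlgebraicGeometry CategoryTheory Limits TopologicalSpace

namespace Pool.Agent.Q72.GN

open Pool.Agent.Helper198.Sch

section G

variable (k : Type) [Field k] (q : ℕ)

/-- the Moore determinant -/
noncomputable def Gm : MvPolynomial (Fin 3) k := Mo q (X 0) (X 1) (X 2)

lemma Gm_hom : (Gm k q).IsHomogeneous (1 + q + q ^ 2) := by
  have key : ∀ a b c : Fin 3,
      (X a * X b ^ q * X c ^ (q ^ 2) : MvPolynomial (Fin 3) k).IsHomogeneous (1 + q + q ^ 2) :=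
    fun a b c => ((isHomogeneous_X k a).mul (isHomogeneous_X_pow b q)).mul
      (isHomogeneous_X_pow c (q ^ 2))
  unfold Gm Mo
  exact (((((key 0 1 2).add (key 1 2 0)).add (key 2 0 1)).sub (key 0 2 1)).sub (key 1 0 2)).sub
    (key 2 1 0)

lemma Gm_ne (hq : 1 < q) : Gm k q ≠ 0 := by
  intro h
  have h1 := congrArg (aeval (![1, Polynomial.X, Polynomial.X ^ 2] : Fin 3 → Polynomial k)) h
  have h2 : aeval (![1, Polynomial.X, Polynomial.X ^ 2] : Fin 3 → Polynomial k) (Gm k q) =
      Mo q 1 Polynomial.X (Polynomial.X ^ 2) := by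
    have := map_Mo (p := q) (aeval (![1, Polynomial.X, Polynomial.X ^ 2] : Fin 3 → Polynomial k) :
      MvPolynomial (Fin 3) k →ₐ[k] Polynomial k).toRingHom (X 0) (X 1) (X 2)
    simp only [AlgHom.toRingHom_eq_coe, RingHom.coe_coe, aeval_X] at this
    exact this
  rw [h2, map_zero] at h1
  have h3 : (Mo q 1 Polynomial.X (Polynomial.X ^ 2) : Polynomial k) =
      Polynomial.X ^ (q + 2 * q ^ 2) + Polynomial.X ^ (1 + 2 * q) + Polynomial.X ^ (2 + q ^ 2) -
        Polynomial.X ^ (2 * q + q ^ 2) - Polynomial.X ^ (1 + 2 * q ^ 2) -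
        Polynomial.X ^ (2 + q) := by
    unfold Mo
    ring
  rw [h3] at h1
  have h4 := congrArg (fun P => Polynomial.coeff P (q + 2 * q ^ 2)) h1
  simp only [Polynomial.coeff_add, Polynomial.coeff_sub, Polynomial.coeff_X_pow,
    Polynomial.coeff_zero] at h4
  rw [if_pos trivial, if_neg (by nlinarith), if_neg (by nlinarith), if_neg (by nlinarith),
    if_neg (by omega), if_neg (by nlinarith)] at h4
  simp at h4

variable {k q}

lemma eval_Gm (a : Fin 3 → k) : eval a (Gm k q) = Mo q (a 0) (a 1) (a 2) := by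
  have := map_Mo (p := q) (eval a) (X 0) (X 1) (X 2)
  simp only [eval_X] at this
  exact this

lemma ne_of_Mo (hq : q ≠ 0) {a : Fin 3 → k} (h : Mo q (a 0) (a 1) (a 2) ≠ 0) (m : Fin 3) :
    a m ≠ 0 := by
  intro h0
  apply h
  have hq2 : q ^ 2 ≠ 0 := pow_ne_zero _ hq
  fin_cases m
  · have h1 : a 0 = 0 := h0
    simp [Mo, h1, hq]
  · have h1 : a 1 = 0 := h0
    simp [Mo, h1, hq]
  · have h1 : a 2 = 0 := h0
    simp [Mo, h1, hq]

end G

theorem main (p : ℕ) [hp : Fact p.Prime] (k : Type) [Field k] [CharP k p] [IsAlgClosed k] :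
    ∃ (X : Scheme.{0}) (f : X ⟶ Spec (.of k)) (_ : IsIntegral X),
      Pool.Agent.Helper198.CurveFamily.IsSmoothProjectiveSurface f ∧
      ∃ h : Fin 3 → X.functionField, Dominant f h ∧ degree f h = p ∧
        (∀ h' : Fin 3 → X.functionField, Dominant f h' → degree f h ≤ degree f h') ∧
        ∃ (d : ℕ) (G : MvPolynomial (Fin 3) k), G.IsHomogeneous d ∧ G ≠ 0 ∧
          ∀ a : Fin 3 → k, MvPolynomial.eval a G ≠ 0 →
            ∃ ξ : X, IsGenericPoint ξ (closure {x : X | MapsToLine f h a x}) ∧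
              gonality f ξ = 1 := by
  have hpp : 1 < p * p := by nlinarith [hp.out.one_lt]
  have hdeg : degree (V.str (JY p k)) (hY p k) = p :=
    le_antisymm (upper_bound p k) (lower_bound p k (hY p k) (dominant_hY p k))
  refine ⟨V (JY p k), V.str (JY p k), isIntegral_VY p k, surface_VY p k, hY p k,
    dominant_hY p k, hdeg, ?_, _, Gm k (p * p), Gm_hom k (p * p), Gm_ne k (p * p) hpp, ?_⟩
  · intro h' hdom
    rw [hdeg]
    exact lower_bound p k h' hdom
  · intro a ha
    rw [eval_Gm] at ha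
    have hane := ne_of_Mo (by omega) ha
    choose b hb using fun m => IsAlgClosed.exists_pow_nat_eq (a m) hp.out.pos
    have hb0 : ∀ m, b m ≠ 0 := by
      intro m h0
      apply hane m
      rw [← hb m, h0, zero_pow hp.out.ne_zero]
    have hab : a = fun m => b m ^ p := by
      funext m
      exact (hb m).symm
    subst hab
    refine ⟨gp p hb0, ?_, gonality_gp hb0⟩
    apply le_antisymm
    · apply closure_mono
      rw [Set.singleton_subset_iff]
      exact gp_mapsTo hb0
    · apply closure_minimal _ isClosed_closure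
      intro x hx
      exact mem_closure_gp hb0 ha x hx

end Pool.Agent.Q72.GN
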