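import Pool.Agent.Q72.GN.Sch

/-!
The regular two-forms on the surface, as functions of two derivations.
-/

namespace Pool.Agent.Q72.GN

open Pool.Agent.Helper198.Sch

section form

variable {k : Type} [Field k] {p : ℕ} [hp : Fact p.Prime] {K : Type} [Field K] [Algebra k K]

/-- the cross product `x × D x` -/
noncomputable def crx (x : Fin 3 → K) (D : Derivation k K K) : Fin 3 → K :=
  ![x 1 * D (x 2) - x 2 * D (x 1), x 2 * D (x 0) - x 0 * D (x 2), x 0 * D (x 1) - x 1 * D (x 0)]

lemma crx_tri (x : Fin 3 → K) (t : Tri) : ∃ ε : K, (ε = 1 ∨ ε = -1) ∧ ∀ D : Derivation k K K,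
    x t.i * D (x t.l) - x t.l * D (x t.i) = ε * crx x D t.j := by
  obtain ⟨i, j, l, hij, hil, hjl⟩ := t
  simp only
  fin_cases i <;> fin_cases j <;> fin_cases l <;> simp at hij hil hjl
  · exact ⟨-1, Or.inr rfl, fun D => by simp [crx]⟩
  · exact ⟨1, Or.inl rfl, fun D => by simp [crx]⟩
  · exact ⟨1, Or.inl rfl, fun D => by simp [crx]⟩
  · exact ⟨-1, Or.inr rfl, fun D => by simp [crx]⟩
  · exact ⟨-1, Or.inr rfl, fun D => by simp [crx]⟩
  · exact ⟨1, Or.inl rfl, fun D => by simp [crx]⟩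

lemma crx_mul {x v : Fin 3 → K} (D : Derivation k K K) (h0 : ∑ a, x a * v a = 0)
    (h1 : ∑ a, D (x a) * v a = 0) (m : Fin 3) : crx x D m * v 0 = crx x D 0 * v m := by
  rw [Fin.sum_univ_three] at h0 h1
  fin_cases m
  · rfl
  · simp only [crx, Fin.mk_one, Matrix.cons_val_one, Matrix.cons_val_zero]
    linear_combination x 2 * h1 - D (x 2) * h0
  · simp only [crx, Fin.reduceFinMk, Matrix.cons_val, Matrix.cons_val_zero]
    linear_combination (-x 1) * h1 + D (x 1) * h0

omit hp in
lemma D_pow_p (hK : (p : K) = 0) (D : Derivation k K K) (z : K) : D (z ^ p) = 0 := by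
  rw [Derivation.leibniz_pow, smul_eq_mul, ← Nat.cast_smul_eq_nsmul K, hK, zero_smul]

omit hp in
lemma sum_D1 (hK : (p : K) = 0) {x y : Fin 3 → K} (h : PtY p x y) (D : Derivation k K K) :
    ∑ a, D (x a) * y a ^ p = 0 := by
  have h1 := congrArg D h.h1
  rw [map_zero, map_sum] at h1
  rw [← h1]
  refine Finset.sum_congr rfl fun a _ => ?_
  rw [Derivation.leibniz, D_pow_p hK, smul_zero, zero_add, smul_eq_mul, mul_comm]

omit hp in
lemma sum_D2 (hK : (p : K) = 0) {x y : Fin 3 → K} (h : PtY p x y) (D : Derivation k K K) :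
    ∑ a, D (y a) * x a ^ p = 0 := by
  have h1 := congrArg D h.h2
  rw [map_zero, map_sum] at h1
  rw [← h1]
  refine Finset.sum_congr rfl fun a _ => ?_
  rw [Derivation.leibniz, D_pow_p hK, smul_zero, add_zero, smul_eq_mul, mul_comm]

variable (p) in
/-- the form `θ_x` -/
noncomputable def thX (x y : Fin 3 → K) (D : Derivation k K K) : K := crx x D 0 / y 0 ^ p

variable (p) in
/-- the form `θ_y` -/
noncomputable def thY (x y : Fin 3 → K) (D : Derivation k K K) : K := crx y D 0 / x 0 ^ p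

variable (p) in
/-- the two-form -/
noncomputable def Th (x y : Fin 3 → K) (D1 D2 : Derivation k K K) : K :=
  thX p x y D1 * thY p x y D2 - thX p x y D2 * thY p x y D1

omit hp in
lemma crx_eq_thX (hK : (p : K) = 0) {x y : Fin 3 → K} (h : PtY p x y) (hy : ∀ m, y m ≠ 0)
    (D : Derivation k K K) (m : Fin 3) : crx x D m = thX p x y D * y m ^ p := by
  have h1 := crx_mul D h.h1 (sum_D1 hK h D) m
  have h2 : y 0 ^ p ≠ 0 := pow_ne_zero _ (hy 0)
  unfold thX
  field_simp
  exact h1

omit hp in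
lemma crx_eq_thY (hK : (p : K) = 0) {x y : Fin 3 → K} (h : PtY p x y) (hx : ∀ m, x m ≠ 0)
    (D : Derivation k K K) (m : Fin 3) : crx y D m = thY p x y D * x m ^ p := by
  have h0 : ∑ a, y a * x a ^ p = 0 := by
    rw [← h.h2]
    exact Finset.sum_congr rfl fun a _ => mul_comm _ _
  have h1 := crx_mul D h0 (sum_D2 hK h D) m
  have h2 : x 0 ^ p ≠ 0 := pow_ne_zero _ (hx 0)
  unfold thY
  field_simp
  exact h1

/-- the other orientation of a triple -/
def Tri.sw (t : Tri) : Tri := ⟨t.j, t.i, t.l, t.hij.symm, t.hjl, t.hil⟩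

lemma D_div (D : Derivation k K K) {a b : K} (hb : b ≠ 0) :
    D (a / b) = (b * D a - a * D b) / b ^ 2 := by
  rw [Derivation.leibniz_div]
  simp only [smul_eq_mul]
  field_simp

lemma D_chartX (hK : (p : K) = 0) {x y : Fin 3 → K} (h : PtY p x y) (hx : ∀ m, x m ≠ 0)
    (hy : ∀ m, y m ≠ 0) (t : Tri) : ∃ ε : K, (ε = 1 ∨ ε = -1) ∧ ∀ D : Derivation k K K,
    D (x t.l / x t.i) = ε * thX p x y D * y t.j ^ p / x t.i ^ 2 := by
  obtain ⟨ε, h1, h2⟩ := crx_tri (k := k) x t
  refine ⟨ε, h1, fun D => ?_⟩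
  rw [D_div D (hx _), h2, crx_eq_thX hK h hy]
  ring

lemma D_chartY (hK : (p : K) = 0) {x y : Fin 3 → K} (h : PtY p x y) (hx : ∀ m, x m ≠ 0)
    (hy : ∀ m, y m ≠ 0) (t : Tri) : ∃ ε : K, (ε = 1 ∨ ε = -1) ∧ ∀ D : Derivation k K K,
    D (y t.l / y t.j) = ε * thY p x y D * x t.i ^ p / y t.j ^ 2 := by
  obtain ⟨ε, h1, h2⟩ := crx_tri (k := k) y (Tri.sw t)
  refine ⟨ε, h1, fun D => ?_⟩
  have h3 := h2 D
  change y t.j * D (y t.l) - y t.l * D (y t.j) = ε * crx y D t.i at h3
  rw [D_div D (hy _), h3, crx_eq_thY hK h hx]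
  ring

/-- the two-form in a chart. -/
theorem Th_chart (hK : (p : K) = 0) {x y : Fin 3 → K} (h : PtY p x y) (hx : ∀ m, x m ≠ 0)
    (hy : ∀ m, y m ≠ 0) (t : Tri) : ∃ ε : K, (ε = 1 ∨ ε = -1) ∧ ∀ D1 D2 : Derivation k K K,
    D1 (x t.l / x t.i) * D2 (y t.l / y t.j) - D2 (x t.l / x t.i) * D1 (y t.l / y t.j) =
      ε * (x t.i ^ (p - 2) * y t.j ^ (p - 2)) * Th p x y D1 D2 := by
  obtain ⟨ε1, h1, h1'⟩ := D_chartX (k := k) hK h hx hy t
  obtain ⟨ε2, h2, h2'⟩ := D_chartY (k := k) hK h hx hy t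
  refine ⟨ε1 * ε2, ?_, fun D1 D2 => ?_⟩
  · rcases h1 with rfl | rfl <;> rcases h2 with rfl | rfl <;> simp
  · have hp2 : 2 ≤ p := hp.out.two_le
    have e1 : x t.i ^ p = x t.i ^ (p - 2) * x t.i ^ 2 := by
      rw [← pow_add, Nat.sub_add_cancel hp2]
    have e2 : y t.j ^ p = y t.j ^ (p - 2) * y t.j ^ 2 := by
      rw [← pow_add, Nat.sub_add_cancel hp2]
    have hxi := hx t.i
    have hyj := hy t.j
    rw [h1', h1', h2', h2', e1, e2, Th]
    field_simp

end form

section val

variable {k : Type} [Field k] {p : ℕ} [hp : Fact p.Prime] {K : Type} [Field K] [Algebra k K]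

omit hp in
/-- every valuation ring contains a chart. -/
theorem exists_chart_val {x y : Fin 3 → K} (h : PtY p x y) (hx : ∀ m, x m ≠ 0)
    (hy : ∀ m, y m ≠ 0) (V : ValuationSubring K) :
    ∃ t : Tri, (∀ a, x a / x t.i ∈ V) ∧ ∀ b, y b / y t.j ∈ V := by
  have key : ∀ (z : Fin 3 → K), (∀ m, z m ≠ 0) → ∃ i, ∀ a, z a / z i ∈ V := by
    intro z hz
    obtain ⟨i, hi⟩ := Finite.exists_max (fun a => V.valuation (z a))
    refine ⟨i, fun a => ?_⟩
    rw [← V.valuation_le_one_iff, map_div₀]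
    exact div_le_one_of_le₀ (hi a) zero_le
  obtain ⟨i, hi⟩ := key x hx
  obtain ⟨j, hj⟩ := key y hy
  by_cases hij : i = j
  · subst hij
    -- some other coordinate is a unit
    have h1 : ∃ a, a ≠ i ∧ x i / x a ∈ V := by
      by_contra hcon
      push Not at hcon
      have h2 : ∀ a, a ≠ i → V.valuation (x a / x i * (y a / y i) ^ p) < 1 := by
        intro a ha
        have h3 := hcon a ha
        rw [← V.valuation_le_one_iff, not_le] at h3
        have h4 : V.valuation (x a / x i) < 1 := by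
          rw [← inv_div, map_inv₀]
          exact inv_lt_one_of_one_lt₀ h3
        rw [map_mul, map_pow]
        have h5 : V.valuation (y a / y i) ^ p ≤ 1 :=
          pow_le_one₀ zero_le ((V.valuation_le_one_iff _).2 (hj a))
        calc V.valuation (x a / x i) * V.valuation (y a / y i) ^ p
            ≤ V.valuation (x a / x i) * 1 := by gcongr
          _ < 1 := by rw [mul_one]; exact h4
      have h6 : ∑ a, x a / x i * (y a / y i) ^ p = 0 := by
        have : ∀ a : Fin 3, x a / x i * (y a / y i) ^ p =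
            (x a * y a ^ p) * ((x i)⁻¹ * (y i)⁻¹ ^ p) := by
          intro a
          rw [div_eq_mul_inv, div_eq_mul_inv, mul_pow]
          ring
        rw [Finset.sum_congr rfl (fun a _ => this a), ← Finset.sum_mul, h.h1, zero_mul]
      rw [← Finset.add_sum_erase _ _ (Finset.mem_univ i), div_self (hx i), div_self (hy i),
        one_pow, mul_one] at h6
      have h7 : V.valuation (∑ a ∈ Finset.univ.erase i, x a / x i * (y a / y i) ^ p) < 1 := by
        apply V.valuation.map_sum_lt one_ne_zero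
        intro a ha
        exact h2 a (Finset.ne_of_mem_erase ha)
      have h8 : (∑ a ∈ Finset.univ.erase i, x a / x i * (y a / y i) ^ p) = -1 := by
        linear_combination h6
      rw [h8, Valuation.map_neg, map_one] at h7
      exact lt_irrefl _ h7
    obtain ⟨a, ha, hxa⟩ := h1
    obtain ⟨l, h2, h3⟩ := exists_third a i ha
    refine ⟨⟨a, i, l, ha, h2, h3⟩, fun b => ?_, hj⟩
    have : x b / x a = (x b / x i) * (x i / x a) := by
      have := hx a
      have := hx i
      field_simp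
    rw [this]
    exact V.mul_mem _ _ (hi b) hxa
  · obtain ⟨l, h2, h3⟩ := exists_third i j hij
    exact ⟨⟨i, j, l, hij, h2, h3⟩, hi, hj⟩

/-- a monomial of bidegree `(n, n)` -/
noncomputable def mon (x y : Fin 3 → K) (m n : Fin 3 → ℕ) : K := (∏ a, x a ^ m a) * ∏ a, y a ^ n a

lemma prod_div (x : Fin 3 → K) (m : Fin 3 → ℕ) (c : K) (N : ℕ) (hN : ∑ a, m a = N) :
    ∏ a, (x a / c) ^ m a = (∏ a, x a ^ m a) / c ^ N := by
  have h : ∀ a, (x a / c) ^ m a = x a ^ m a / c ^ m a := fun a => div_pow _ _ _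
  rw [Finset.prod_congr rfl (fun a _ => h a), Finset.prod_div_distrib, Finset.prod_pow_eq_pow_sum,
    hN]

/-- in every valuation ring there is a chart in which the form is regular. -/
theorem form_chart (hK : (p : K) = 0) {x y : Fin 3 → K} (h : PtY p x y) (hx : ∀ m, x m ≠ 0)
    (hy : ∀ m, y m ≠ 0) {m n : Fin 3 → ℕ} (hm : ∑ a, m a = p - 2) (hn : ∑ a, n a = p - 2)
    (V : ValuationSubring K) : ∃ g z w : K, g ∈ V ∧ z ∈ V ∧ w ∈ V ∧
      ∀ D1 D2 : Derivation k K K, mon x y m n * Th p x y D1 D2 =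
        g * (D1 z * D2 w - D2 z * D1 w) := by
  obtain ⟨t, h1, h2⟩ := exists_chart_val h hx hy V
  obtain ⟨ε, hε, h3⟩ := Th_chart (k := k) hK h hx hy t
  refine ⟨ε * ((∏ a, (x a / x t.i) ^ m a) * ∏ a, (y a / y t.j) ^ n a), x t.l / x t.i,
    y t.l / y t.j, ?_, h1 _, h2 _, fun D1 D2 => ?_⟩
  · refine V.mul_mem _ _ ?_ (V.mul_mem _ _ ?_ ?_)
    · rcases hε with rfl | rfl
      · exact V.one_mem
      · exact V.neg_mem _ V.one_mem
    · exact prod_mem fun a _ => pow_mem (h1 a) _
    · exact prod_mem fun a _ => pow_mem (h2 a) _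
  · rw [h3, prod_div _ _ _ _ hm, prod_div _ _ _ _ hn, mon]
    have e1 : x t.i ^ (p - 2) ≠ 0 := pow_ne_zero _ (hx _)
    have e2 : y t.j ^ (p - 2) ≠ 0 := pow_ne_zero _ (hy _)
    have e3 : ε * ε = 1 := by rcases hε with rfl | rfl <;> ring
    field_simp
    linear_combination (-((∏ a, x a ^ m a) * (∏ a, y a ^ n a) * Th p x y D1 D2)) * e3

end val

section nonzero

variable {k : Type} [Field k] {p : ℕ} [hp : Fact p.Prime] {K : Type} [Field K] [Algebra k K]

omit hp in
/-- a derivation killing the two coordinates of a chart is zero. -/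
theorem D_eq_zero (hK : (p : K) = 0) {x y : Fin 3 → K} (h : PtY p x y) (hx0 : x 0 = 1)
    (hy1 : y 1 = 1)
    (hgen : IntermediateField.adjoin k (Set.range x ∪ Set.range y) = ⊤) (D : Derivation k K K)
    (h1 : D (x 2) = 0) (h2 : D (y 2) = 0) : D = 0 := by
  have e1 := sum_D1 hK h D
  have e2 := sum_D2 hK h D
  rw [Fin.sum_univ_three, hx0, hy1, h1, one_pow, mul_one, zero_mul, add_zero, ← map_one (algebraMap k K),
    Derivation.map_algebraMap, zero_mul, zero_add] at e1
  rw [Fin.sum_univ_three, hx0, hy1, h2, one_pow, mul_one, zero_mul, add_zero, ← map_one (algebraMap k K),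
    Derivation.map_algebraMap, zero_mul, add_zero] at e2
  -- the field of constants
  let C : IntermediateField k K :=
    { carrier := {z | D z = 0}
      mul_mem' := by
        intro a b ha hb
        change D (a * b) = 0
        rw [Derivation.leibniz, show D a = 0 from ha, show D b = 0 from hb, smul_zero, smul_zero,
          add_zero]
      add_mem' := by
        intro a b ha hb
        change D (a + b) = 0
        rw [map_add, show D a = 0 from ha, show D b = 0 from hb, add_zero]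
      algebraMap_mem' := fun r => D.map_algebraMap r
      inv_mem' := by
        intro a ha
        change D a⁻¹ = 0
        rw [Derivation.leibniz_inv, show D a = 0 from ha, smul_zero] }
  have hC : C = ⊤ := by
    rw [eq_top_iff, ← hgen, IntermediateField.adjoin_le_iff]
    rintro z (⟨a, rfl⟩ | ⟨a, rfl⟩)
    · fin_cases a
      · change D (x 0) = 0
        rw [hx0, ← map_one (algebraMap k K), Derivation.map_algebraMap]
      · exact e1
      · exact h1
    · fin_cases a
      · exact e2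
      · change D (y 1) = 0
        rw [hy1, ← map_one (algebraMap k K), Derivation.map_algebraMap]
      · exact h2
  ext z
  have hz : z ∈ C := by rw [hC]; trivial
  exact hz

theorem Th_ne_zero (hK : (p : K) = 0) {x y : Fin 3 → K} (h : PtY p x y) (hx : ∀ m, x m ≠ 0)
    (hy : ∀ m, y m ≠ 0) (hx0 : x 0 = 1) (hy1 : y 1 = 1)
    (hgen : IntermediateField.adjoin k (Set.range x ∪ Set.range y) = ⊤)
    {D1 D2 : Derivation k K K} (hD : ∀ α β : K, α • D1 + β • D2 = 0 → α = 0 ∧ β = 0) :
    Th p x y D1 D2 ≠ 0 := by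
  intro h0
  obtain ⟨ε, hε, h3⟩ := Th_chart (k := k) hK h hx hy t0
  have h4 := h3 D1 D2
  rw [h0, mul_zero] at h4
  simp only [t0, hx0, hy1, div_one] at h4
  have key : ∀ α β : K, α * D1 (x 2) + β * D2 (x 2) = 0 → α * D1 (y 2) + β * D2 (y 2) = 0 →
      α = 0 ∧ β = 0 := by
    intro α β ha hb
    apply hD
    apply D_eq_zero hK h hx0 hy1 hgen
    · simpa using ha
    · simpa using hb
  have k1 := key (D2 (x 2)) (-D1 (x 2)) (by ring) (by linear_combination -h4)
  have k2 := key (D2 (y 2)) (-D1 (y 2)) (by linear_combination h4) (by ring)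
  have e1 : D1 (x 2) = 0 := by simpa using k1.2
  have e2 : D1 (y 2) = 0 := by simpa using k2.2
  have k3 := key 1 0 (by rw [e1]; ring) (by rw [e2]; ring)
  exact one_ne_zero k3.1

end nonzero

end Pool.Agent.Q72.GN
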