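import Pool.Agent.Q72.GN.Sch
import Pool.Agent.Q72.GN.Ff

/-!
The surface: function field, preimages of lines.
-/

open MvPolynomial AlgebraicGeometry CategoryTheory Limits TopologicalSpace HomogeneousLocalization

namespace Pool.Agent.Q72.GN

open Pool.Agent.Helper198.Sch

attribute [local instance] MvPolynomial.gradedAlgebra

/-! ### transition between charts -/

section trans

variable {K A : Type} [Field K] [CommRing A] [Algebra K A] (𝒜 : ℕ → Submodule K A)
  [GradedAlgebra 𝒜]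

/-- the element `b / a` -/
noncomputable def rat {a b : A} (ha : a ∈ 𝒜 1) (hb : b ∈ 𝒜 1) : Away 𝒜 a :=
  Away.mk 𝒜 ha 1 b (by simpa using hb)

lemma rat_mul {a b c : A} (ha : a ∈ 𝒜 1) (hb : b ∈ 𝒜 1) (hc : c ∈ 𝒜 1) {x : A} (hx : x = a * c)
    (hx' : x = c * a) :
    awayMap 𝒜 hc hx (rat 𝒜 ha hb) =
      awayMap 𝒜 ha hx' (rat 𝒜 hc hb) * awayMap 𝒜 hc hx (rat 𝒜 ha hc) := by
  unfold rat
  ext
  rw [awayMap_mk, awayMap_mk, awayMap_mk, HomogeneousLocalization.val_mul]
  simp only [Away.val_mk, Localization.mk_mul]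
  rw [Localization.mk_eq_mk_iff, Localization.r_iff_exists]
  use 1
  simp only [OneMemClass.coe_one, one_mul, Submonoid.coe_mul, hx]
  ring

variable {F : Type} [Field F] {P : Scheme.{0}}

lemma factor_of_mem {B : Type} [CommRing B] (η : Spec (CommRingCat.of F) ⟶ P)
    (j : Spec (CommRingCat.of B) ⟶ P) [IsOpenImmersion j]
    (h : η (thePt F) ∈ j.opensRange) :
    ∃ ρ : B →+* F, Spec.map (CommRingCat.ofHom ρ) ≫ j = η := by
  have hr : Set.range η ⊆ Set.range j := by
    rintro _ ⟨z, rfl⟩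
    have hz : z = thePt F := Subsingleton.elim (α := PrimeSpectrum F) z (thePt F)
    rw [hz]
    exact h
  obtain ⟨α, hα⟩ := Spec.map_surjective (IsOpenImmersion.lift j η hr)
  refine ⟨α.hom, ?_⟩
  have h1 : Spec.map (CommRingCat.ofHom α.hom) = IsOpenImmersion.lift j η hr := hα
  rw [h1]
  exact IsOpenImmersion.lift_fac _ _ _

variable (η : Spec (CommRingCat.of F) ⟶ Proj 𝒜)

lemma rho_comp {a c x : A} (ha : a ∈ 𝒜 1) (hc : c ∈ 𝒜 1) (hx : x = a * c)
    (hxm : x ∈ 𝒜 (1 + 1)) (ρa : Away 𝒜 a →+* F)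
    (ha' : Spec.map (CommRingCat.ofHom ρa) ≫ Proj.awayι 𝒜 a ha one_pos = η)
    (ρx : Away 𝒜 x →+* F)
    (hx' : Spec.map (CommRingCat.ofHom ρx) ≫ Proj.awayι 𝒜 x hxm (by norm_num) = η) :
    ρx.comp (awayMap 𝒜 hc hx) = ρa := by
  have h1 : Spec.map (CommRingCat.ofHom (ρx.comp (awayMap 𝒜 hc hx))) =
      Spec.map (CommRingCat.ofHom ρa) := by
    rw [← cancel_mono (Proj.awayι 𝒜 a ha one_pos), ha', CommRingCat.ofHom_comp, Spec.map_comp,
      Category.assoc, Proj.SpecMap_awayMap_awayι 𝒜 ha one_pos hc hx]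
    exact hx'
  have h2 := Spec.map_injective h1
  exact congrArg (fun g => g.hom) h2

lemma rho_rat {a b c : A} (ha : a ∈ 𝒜 1) (hb : b ∈ 𝒜 1) (hc : c ∈ 𝒜 1) (ρa : Away 𝒜 a →+* F)
    (ha' : Spec.map (CommRingCat.ofHom ρa) ≫ Proj.awayι 𝒜 a ha one_pos = η)
    (ρc : Away 𝒜 c →+* F)
    (hc' : Spec.map (CommRingCat.ofHom ρc) ≫ Proj.awayι 𝒜 c hc one_pos = η) :
    ρa (rat 𝒜 ha hb) = ρc (rat 𝒜 hc hb) * ρa (rat 𝒜 ha hc) := by
  have hma : η (thePt F) ∈ Proj.basicOpen 𝒜 a := by
    rw [← Proj.opensRange_awayι 𝒜 a ha one_pos, ← ha']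
    exact ⟨_, rfl⟩
  have hmc : η (thePt F) ∈ Proj.basicOpen 𝒜 c := by
    rw [← Proj.opensRange_awayι 𝒜 c hc one_pos, ← hc']
    exact ⟨_, rfl⟩
  have hxm : a * c ∈ 𝒜 (1 + 1) := SetLike.mul_mem_graded ha hc
  obtain ⟨ρx, hρx⟩ := factor_of_mem η (Proj.awayι 𝒜 (a * c) hxm (by norm_num)) (by
    rw [Proj.opensRange_awayι, Proj.basicOpen_mul]
    exact ⟨hma, hmc⟩)
  have h1 := rho_comp 𝒜 η ha hc rfl hxm ρa ha' ρx hρx
  have h2 := rho_comp 𝒜 η hc ha (mul_comm a c) hxm ρc hc' ρx hρx
  have h3 := congrArg ρx (rat_mul 𝒜 ha hb hc rfl (mul_comm a c))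
  rw [map_mul] at h3
  rw [← h1, ← h2]
  exact h3

end trans

lemma frac_trans {σ k : Type} [Field k] (J : HI σ k) {F : Type} [Field F]
    (η : Spec (CommRingCat.of F) ⟶ V J) (c d e : σ) (ρc : Ch J c →+* F) (ρd : Ch J d →+* F)
    (hc : Spec.map (CommRingCat.ofHom ρc) ≫ V.chart J c = η)
    (hd : Spec.map (CommRingCat.ofHom ρd) ≫ V.chart J d = η) :
    ρc (frac J c e) = ρd (frac J d e) * ρc (frac J c d) :=
  rho_rat (qgrad J.toIdeal) η (gen_mem J c) (gen_mem J e) (gen_mem J d) ρc hc ρd hd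

/-! ### special points -/

section special

variable {k : Type} [Field k] {p : ℕ} [hp : Fact p.Prime]

lemma map_cr' {A B : Type*} [CommRing A] [CommRing B] (φ : A →+* B) (n : ℕ) (α : Fin 3 → A)
    (b : Fin 3) : φ (cr n α b) = cr n (fun a => φ (α a)) b := by
  fin_cases b <;> simp [cr]

lemma ptY_cr {E : Type} [Field E] (hE : (p : E) = 0) (X : Fin 3 → E) :
    PtY p (fun a => X a ^ p) (cr (p * p) X) := by
  constructor
  · have h := cr_sum (p * p) X
    have h2 := congrArg (fun z => z ^ p) h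
    simp only [zero_pow hp.out.ne_zero] at h2
    rw [Fin.sum_univ_three, add_pow_p hE, add_pow_p hE, mul_pow, mul_pow, mul_pow] at h2
    rw [Fin.sum_univ_three]
    exact h2
  · have h := cr_sum_pow (p * p) X
    rw [Fin.sum_univ_three] at h ⊢
    rw [← pow_mul, ← pow_mul, ← pow_mul]
    exact h

/-- the parametrization of the line with coefficients `b`. -/
noncomputable def lineP (b : Fin 3 → k) : Fin 3 → Polynomial k :=
  ![Polynomial.C (b 1), -Polynomial.C (b 0) + Polynomial.C (b 2) * Polynomial.X,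
    -(Polynomial.C (b 1) * Polynomial.X)]

lemma lineP_sum (b : Fin 3 → k) : ∑ m, Polynomial.C (b m) * lineP b m = 0 := by
  simp [lineP, Fin.sum_univ_three]
  ring

lemma lineP_ne_zero {b : Fin 3 → k} (hb : ∀ m, b m ≠ 0) (m : Fin 3) : lineP b m ≠ 0 := by
  intro h
  fin_cases m
  · have := congrArg (fun P => Polynomial.coeff P 0) h
    simp [lineP] at this
    exact hb 1 this
  · have := congrArg (fun P => Polynomial.coeff P 1) h
    simp [lineP, Polynomial.coeff_C] at this
    exact hb 2 this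
  · have := congrArg (fun P => Polynomial.coeff P 1) h
    simp [lineP] at this
    exact hb 1 this

/-- no two of the three coordinates are proportional. -/
lemma lineP_indep {b : Fin 3 → k} (hb : ∀ m, b m ≠ 0) {m n : Fin 3} (hmn : m ≠ n) (μ : k) :
    lineP b m ≠ Polynomial.C μ * lineP b n := by
  intro h
  have h0 := congrArg (fun P => Polynomial.coeff P 0) h
  have h1 := congrArg (fun P => Polynomial.coeff P 1) h
  have e0 := hb 0
  have e1 := hb 1
  have e2 := hb 2
  fin_cases m <;> fin_cases n <;>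
    simp [lineP, Polynomial.coeff_C, Polynomial.coeff_X, e0, e1, e2] at h0 h1 hmn ⊢
  · rw [h1] at h0
    simp [e1] at h0
  · rw [h0] at h1
    simp [e1] at h1

lemma pow_eq_of {q : ℕ} (hq : 1 < q) {P Q : Polynomial k} (hP : P ≠ 0) (hQ : Q ≠ 0)
    (h : P * Q ^ q = Q * P ^ q) : Q ^ (q - 1) = P ^ (q - 1) := by
  obtain ⟨n, rfl⟩ : ∃ n, q = n + 1 := ⟨q - 1, by omega⟩
  apply mul_left_cancel₀ (mul_ne_zero hP hQ)
  rw [Nat.add_sub_cancel]
  rw [pow_succ, pow_succ] at h
  linear_combination h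

lemma cr_lineP_ne_zero {b : Fin 3 → k} (hb : ∀ m, b m ≠ 0) {q : ℕ} (hq : 1 < q) (m : Fin 3) :
    cr q (lineP b) m ≠ 0 := by
  have d0 : (lineP b 0).natDegree = 0 := by simp [lineP]
  have d1 : (lineP b 1).natDegree = 1 := by
    have h2 := hb 2
    have : lineP b 1 = -Polynomial.C (b 0) + Polynomial.C (b 2) * Polynomial.X := rfl
    rw [this]
    compute_degree!
  have d2 : (lineP b 2).natDegree = 1 := by
    have h1 := hb 1
    have : lineP b 2 = -(Polynomial.C (b 1) * Polynomial.X) := rfl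
    rw [this, Polynomial.natDegree_neg]
    compute_degree!
  have n0 := lineP_ne_zero hb 0
  have n1 := lineP_ne_zero hb 1
  have n2 := lineP_ne_zero hb 2
  have hq1 : q - 1 ≠ 0 := by omega
  intro h
  fin_cases m
  · have h1 : lineP b 1 * lineP b 2 ^ q = lineP b 2 * lineP b 1 ^ q := sub_eq_zero.1 h
    have h2 := pow_eq_of hq n1 n2 h1
    have h3 := congrArg (Polynomial.eval 0) h2
    simp only [Polynomial.eval_pow] at h3
    have e2 : Polynomial.eval 0 (lineP b 2) = 0 := by simp [lineP]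
    have e1 : Polynomial.eval 0 (lineP b 1) = - b 0 := by simp [lineP]
    rw [e2, e1, zero_pow hq1] at h3
    exact pow_ne_zero _ (neg_ne_zero.2 (hb 0)) h3.symm
  · have h1 : lineP b 2 * lineP b 0 ^ q = lineP b 0 * lineP b 2 ^ q := sub_eq_zero.1 h
    have h2 := pow_eq_of hq n2 n0 h1
    have h3 := congrArg Polynomial.natDegree h2
    rw [Polynomial.natDegree_pow, Polynomial.natDegree_pow, d0, d2] at h3
    omega
  · have h1 : lineP b 0 * lineP b 1 ^ q = lineP b 1 * lineP b 0 ^ q := sub_eq_zero.1 h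
    have h2 := pow_eq_of hq n0 n1 h1
    have h3 := congrArg Polynomial.natDegree h2
    rw [Polynomial.natDegree_pow, Polynomial.natDegree_pow, d0, d1] at h3
    omega

/-- the generic point of the line. -/
noncomputable def lineR (b : Fin 3 → k) : Fin 3 → RatFunc k :=
  fun m => algebraMap (Polynomial k) (RatFunc k) (lineP b m)

lemma lineR_ne_zero {b : Fin 3 → k} (hb : ∀ m, b m ≠ 0) (m : Fin 3) : lineR b m ≠ 0 := by
  intro h
  exact lineP_ne_zero hb m ((map_eq_zero_iff _ (IsFractionRing.injective _ _)).1 h)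

lemma cr_lineR_ne_zero {b : Fin 3 → k} (hb : ∀ m, b m ≠ 0) {q : ℕ} (hq : 1 < q) (m : Fin 3) :
    cr q (lineR b) m ≠ 0 := by
  intro h
  have h1 : algebraMap (Polynomial k) (RatFunc k) (cr q (lineP b) m) = 0 := by
    rw [map_cr']
    exact h
  exact cr_lineP_ne_zero hb hq m ((map_eq_zero_iff _ (IsFractionRing.injective _ _)).1 h1)

omit hp in
lemma charp_ratFunc [CharP k p] : ((p : ℕ) : RatFunc k) = 0 := by
  have h : algebraMap k (RatFunc k) (p : k) = ((p : ℕ) : RatFunc k) := map_natCast _ p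
  rw [← h, CharP.cast_eq_zero, map_zero]

variable [CharP k p]

variable (p) in
/-- `x`-coordinates -/
noncomputable def xL (b : Fin 3 → k) : Fin 3 → RatFunc k := fun m => lineR b m ^ p

variable (p) in
/-- `y`-coordinates -/
noncomputable def yL (b : Fin 3 → k) : Fin 3 → RatFunc k := cr (p * p) (lineR b)

lemma ptL (b : Fin 3 → k) : PtY p (xL p b) (yL p b) := ptY_cr charp_ratFunc (lineR b)

omit [CharP k p] hp in
lemma xL_ne_zero {b : Fin 3 → k} (hb : ∀ m, b m ≠ 0) (m : Fin 3) : xL p b m ≠ 0 :=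
  pow_ne_zero _ (lineR_ne_zero hb m)

omit [CharP k p] in
lemma yL_ne_zero {b : Fin 3 → k} (hb : ∀ m, b m ≠ 0) (m : Fin 3) : yL p b m ≠ 0 :=
  cr_lineR_ne_zero hb (by nlinarith [hp.out.one_lt]) m

lemma xL_sum (b : Fin 3 → k) : ∑ m, algebraMap k (RatFunc k) (b m ^ p) * xL p b m = 0 := by
  have h := congrArg (algebraMap (Polynomial k) (RatFunc k)) (lineP_sum b)
  rw [map_zero, Fin.sum_univ_three] at h
  simp only [map_add, map_mul] at h
  have h2 := congrArg (fun z => z ^ p) h
  simp only [zero_pow hp.out.ne_zero] at h2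
  rw [add_pow_p charp_ratFunc, add_pow_p charp_ratFunc, mul_pow, mul_pow, mul_pow] at h2
  rw [Fin.sum_univ_three]
  simp only [map_pow]
  exact h2

omit hp [CharP k p] in
lemma algebraic_mem [IsAlgClosed k] {K : Type} [Field K] [Algebra k K] {z : K}
    (h : IsAlgebraic k z) : ∃ c : k, algebraMap k K c = z := by
  have hint : IsIntegral k z := isAlgebraic_iff_isIntegral.1 h
  have hd : (minpoly k z).degree = 1 :=
    IsAlgClosed.degree_eq_one_of_irreducible k (minpoly.irreducible hint)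
  exact minpoly.mem_range_of_degree_eq_one k z hd

/-- the quotients of the coordinates are transcendental. -/
lemma xL_transcendental [IsAlgClosed k] {b : Fin 3 → k} (hb : ∀ m, b m ≠ 0) {m n : Fin 3}
    (hmn : m ≠ n) : Transcendental k (xL p b m / xL p b n) := by
  intro h
  obtain ⟨c, hc⟩ := algebraic_mem h
  obtain ⟨μ, hμ⟩ := IsAlgClosed.exists_pow_nat_eq c hp.out.pos
  have hn := xL_ne_zero (p := p) hb n
  rw [eq_div_iff hn] at hc
  have h1 : (lineR b m - algebraMap k (RatFunc k) μ * lineR b n) ^ p = 0 := by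
    rw [sub_pow_p charp_ratFunc, mul_pow, ← map_pow, hμ]
    exact sub_eq_zero.2 hc.symm
  have h2 := sub_eq_zero.1 (pow_eq_zero_iff hp.out.ne_zero |>.1 h1)
  apply lineP_indep hb hmn μ
  apply IsFractionRing.injective (Polynomial k) (RatFunc k)
  rw [map_mul]
  exact h2

end special

section integral

variable (p : ℕ) [hp : Fact p.Prime] (k : Type) [Field k] [CharP k p]

lemma one_ne' : ∀ m : Fin 3, (fun _ => (1 : k)) m ≠ 0 := fun _ => one_ne_zero

instance isIntegral_VY : IsIntegral (V (JY p k)) :=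
  V.isIntegral_of_charts (JY p k) (ι := Tri) Tri.c (fun x => exists_triY p x)
    (fun t : Tri => (chY_equiv t).toMulEquiv.isDomain _)
    (ptM (k := k) (ptL (p := p) (fun _ => (1 : k))) (0, 1) (xL_ne_zero (one_ne' k) _)
      (yL_ne_zero (one_ne' k) _) (thePt (RatFunc k)))
    (fun _ => ptM_mem_D _ _ _ _ _ (xL_ne_zero (one_ne' k) _) (yL_ne_zero (one_ne' k) _))

set_option backward.isDefEq.respectTransparency.types false in
lemma smooth_VY : SmoothOfRelativeDimension 2 (V.str (JY p k)) := by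
  apply IsZariskiLocalAtSource.of_openCover
    (V.coverOf (JY p k) Tri.c (fun x => exists_triY p x)).openCover
  intro (t : Tri)
  change SmoothOfRelativeDimension 2 (V.chart (JY p k) t.c ≫ V.str (JY p k))
  rw [V.chart_str, HasRingHomProperty.Spec_iff (P := @SmoothOfRelativeDimension 2)]
  apply RingHom.locally_of
  · exact RingHom.isStandardSmoothOfRelativeDimension_respectsIso
  · have h1 := smooth_QY p k
    have h2 : Algebra.IsStandardSmoothOfRelativeDimension 2 k (Ch (JY p k) t.c) :=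
      Algebra.IsStandardSmoothOfRelativeDimension.of_algEquiv 2 (chY_equiv t).symm
    exact (RingHom.isStandardSmoothOfRelativeDimension_algebraMap 2).2 h2

/-- numbering of the coordinates -/
def e9 : Fin (8 + 1) ≃ Idx := (finProdFinEquiv (m := 3) (n := 3)).symm

lemma surface_VY : Pool.Agent.Helper198.CurveFamily.IsSmoothProjectiveSurface
    (V.str (JY p k)) where
  integral := isIntegral_VY p k
  smooth := smooth_VY p k
  projective := ⟨8, emb (JY p k) e9, inferInstanceAs (IsClosedImmersion (emb (JY p k) e9)),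
    emb_str _ _⟩

end integral

end Pool.Agent.Q72.GN
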