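import Pool.Agent.Q72.GN.Tr
import Pool.Agent.Q72.GN.Der

/-!
There is no rational map of small degree from the surface to the plane: algebra.
-/

open MvPolynomial
open scoped Pointwise

namespace Pool.Agent.Q72.GN

section span

variable {L K : Type} [Field L] [Field K] [Algebra L K] [FiniteDimensional L K]

omit [FiniteDimensional L K] in
lemma pow_le_pow_succ {M : Submodule L K} (h1 : (1 : K) ∈ M) (n : ℕ) : M ^ n ≤ M ^ (n + 1) := by
  rw [pow_succ]
  intro z hz
  rw [← mul_one z]
  exact Submodule.mul_mem_mul hz h1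

/-- powers stabilize -/
theorem pow_stable {M : Submodule L K} (h1 : (1 : K) ∈ M) {n : ℕ}
    (hn : Module.finrank L K ≤ n + 1) : M ^ (n + 1) = M ^ n := by
  have key : ∀ j : ℕ, M ^ (j + 1) = M ^ j ∨ j + 2 ≤ Module.finrank L (M ^ (j + 1) : Submodule L K) := by
    intro j
    induction j with
    | zero =>
      by_cases h : M ^ (0 + 1) = M ^ 0
      · exact Or.inl h
      · right
        have h2 : M ^ 0 < M ^ (0 + 1) := lt_of_le_of_ne (pow_le_pow_succ h1 0) (Ne.symm h)
        have h3 := Submodule.finrank_lt_finrank_of_lt h2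
        have h4 : 0 < Module.finrank L (M ^ 0 : Submodule L K) := by
          rw [pow_zero]
          have : Nontrivial (1 : Submodule L K) := by
            refine ⟨⟨0, Submodule.zero_mem _⟩, ⟨1, Submodule.one_le.1 le_rfl⟩, ?_⟩
            intro h
            exact zero_ne_one (congrArg Subtype.val h)
          exact Module.finrank_pos
        omega
    | succ j ih =>
      rcases ih with ih | ih
      · left
        rw [pow_succ M (j + 1), ih, ← pow_succ, ih]
      · by_cases h : M ^ (j + 1 + 1) = M ^ (j + 1)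
        · exact Or.inl h
        · right
          have h2 : M ^ (j + 1) < M ^ (j + 1 + 1) :=
            lt_of_le_of_ne (pow_le_pow_succ h1 _) (Ne.symm h)
          have h3 := Submodule.finrank_lt_finrank_of_lt h2
          omega
  rcases key n with h | h
  · exact h
  · have h2 := Submodule.finrank_le (M ^ (n + 1) : Submodule L K)
    omega

omit [FiniteDimensional L K] in
lemma pow_stable' {M : Submodule L K} {n : ℕ} (h : M ^ (n + 1) = M ^ n) (m : ℕ) :
    M ^ (n + m) = M ^ n := by
  induction m with
  | zero => rfl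
  | succ m ih =>
    rw [← add_assoc, pow_succ, ih, ← pow_succ, h]

lemma mem_pow_range {x : Fin 3 → K} (n : ℕ) {z : K} (hz : z ∈ (Set.range x) ^ n) :
    ∃ m : Fin 3 → ℕ, ∑ a, m a = n ∧ z = ∏ a, x a ^ m a := by
  induction n generalizing z with
  | zero =>
    rw [pow_zero] at hz
    exact ⟨0, by simp, by simpa using hz⟩
  | succ n ih =>
    rw [pow_succ, Set.mem_mul] at hz
    obtain ⟨z', hz', _, ⟨b, rfl⟩, rfl⟩ := hz
    obtain ⟨m, hm, rfl⟩ := ih hz'
    refine ⟨m + Pi.single b 1, ?_, ?_⟩
    · simp [Finset.sum_add_distrib, hm]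
    · simp only [Pi.add_apply, pow_add, Finset.prod_mul_distrib]
      congr 1
      fin_cases b <;> simp [Fin.prod_univ_three]

variable {k : Type} [Field k] [Algebra k K] [Algebra k L] [IsScalarTower k L K]

theorem span_mon_top {x y : Fin 3 → K} (hx0 : x 0 = 1) (hy1 : y 1 = 1)
    (hgen : IntermediateField.adjoin k (Set.range x ∪ Set.range y) = ⊤) {N : ℕ}
    (hN : Module.finrank L K ≤ N + 1) (l : K →ₗ[L] L)
    (hl : ∀ m n : Fin 3 → ℕ, ∑ a, m a = N → ∑ a, n a = N → l (mon x y m n) = 0) : l = 0 := by
  let A : Submodule L K := Submodule.span L (Set.range x)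
  let B : Submodule L K := Submodule.span L (Set.range y)
  have hA : (1 : K) ∈ A := Submodule.subset_span ⟨0, hx0⟩
  have hB : (1 : K) ∈ B := Submodule.subset_span ⟨1, hy1⟩
  have hA1 := pow_stable hA hN
  have hB1 := pow_stable hB hN
  let S : Submodule L K := A ^ N * B ^ N
  have hAN : (1 : K) ∈ A ^ N := one_pow N (M := K) ▸ Submodule.pow_mem_pow A hA N
  have hBN : (1 : K) ∈ B ^ N := one_pow N (M := K) ▸ Submodule.pow_mem_pow B hB N
  have hSS : S * S = S := by
    change (A ^ N * B ^ N) * (A ^ N * B ^ N) = A ^ N * B ^ N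
    rw [mul_mul_mul_comm, ← pow_add, ← pow_add, pow_stable' hA1, pow_stable' hB1]
  have hS1 : (1 : K) ∈ S := by
    rw [← one_mul (1 : K)]
    exact Submodule.mul_mem_mul hAN hBN
  let S' : Subalgebra L K := S.toSubalgebra hS1 (fun a b ha hb => by
    rw [← hSS]
    exact Submodule.mul_mem_mul ha hb)
  let F : IntermediateField L K := S'.toIntermediateField (fun a ha =>
    S'.inv_mem_of_algebraic (x := ⟨a, ha⟩) (Algebra.IsAlgebraic.isAlgebraic (R := L) a))
  have hF : ∀ z, z ∈ F ↔ z ∈ S := fun z => Iff.rfl
  have hxS : ∀ a, x a ∈ S := by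
    intro a
    rw [← mul_one (x a)]
    refine Submodule.mul_mem_mul ?_ hBN
    rw [← hA1, pow_succ', ← mul_one (x a)]
    exact Submodule.mul_mem_mul (Submodule.subset_span ⟨a, rfl⟩) hAN
  have hyS : ∀ a, y a ∈ S := by
    intro a
    rw [← one_mul (y a)]
    refine Submodule.mul_mem_mul hAN ?_
    rw [← hB1, pow_succ', ← mul_one (y a)]
    exact Submodule.mul_mem_mul (Submodule.subset_span ⟨a, rfl⟩) hBN
  have htop : ∀ z : K, z ∈ S := by
    intro z
    rw [← hF]
    have h1 : (⊤ : IntermediateField k K) ≤ F.restrictScalars k := by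
      rw [← hgen, IntermediateField.adjoin_le_iff]
      rintro w (⟨a, rfl⟩ | ⟨a, rfl⟩)
      · exact hxS a
      · exact hyS a
    exact h1 (show z ∈ (⊤ : IntermediateField k K) from trivial)
  have hS : S = Submodule.span L ((Set.range x) ^ N * (Set.range y) ^ N) := by
    change (Submodule.span L (Set.range x)) ^ N * (Submodule.span L (Set.range y)) ^ N = _
    rw [Submodule.span_pow, Submodule.span_pow, Submodule.span_mul_span]
  apply LinearMap.ext
  intro z
  have hz := htop z
  rw [hS] at hz
  rw [LinearMap.zero_apply]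
  induction hz using Submodule.span_induction with
  | mem w hw =>
    obtain ⟨u, hu, v, hv, rfl⟩ := Set.mem_mul.1 hw
    obtain ⟨m, hm, rfl⟩ := mem_pow_range N hu
    obtain ⟨n, hn, rfl⟩ := mem_pow_range N hv
    exact hl m n hm hn
  | zero => exact map_zero l
  | add a b _ _ ha hb => rw [map_add, ha, hb, add_zero]
  | smul c a _ ha => rw [map_smul, ha, smul_zero]

end span

section main

variable {k L K : Type} [Field k] [Field L] [Field K] [Algebra k K] [Algebra L K] [Algebra k L]
  [IsScalarTower k L K]
  (φ : MvPolynomial (Fin 2) k →ₐ[k] L) (hφ : Function.Injective φ)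
  (hfr : ∀ l : L, ∃ a b, b ≠ 0 ∧ l = φ a / φ b)
  [FiniteDimensional L K] {p : ℕ} [hp : Fact p.Prime] [CharP k p] [IsAlgClosed k]

include hφ hfr in
theorem no_small_degree {x y : Fin 3 → K} (h : PtY p x y) (hx : ∀ m, x m ≠ 0) (hy : ∀ m, y m ≠ 0)
    (hx0 : x 0 = 1) (hy1 : y 1 = 1)
    (hgen : IntermediateField.adjoin k (Set.range x ∪ Set.range y) = ⊤) :
    p ≤ Module.finrank L K := by
  by_contra hcon
  push Not at hcon
  have hK : (p : K) = 0 := by
    have h : algebraMap k K (p : k) = ((p : ℕ) : K) := map_natCast _ p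
    rw [← h, CharP.cast_eq_zero, map_zero]
  have hL : (p : L) = 0 := by
    have h : algebraMap k L (p : k) = ((p : ℕ) : L) := map_natCast _ p
    rw [← h, CharP.cast_eq_zero, map_zero]
  have hdeg : ∀ z : K, (minpoly L z).natDegree < p := fun z =>
    lt_of_le_of_lt (minpoly.natDegree_le z) hcon
  have hCL : CharP L p := charP_of_injective_algebraMap (algebraMap k L).injective p
  have hsep : Algebra.IsSeparable L K := by
    refine ⟨fun z => ?_⟩
    have hint : IsIntegral L z := Algebra.IsIntegral.isIntegral z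
    have hirr := minpoly.irreducible hint
    unfold IsSeparable
    rw [Polynomial.separable_iff_derivative_ne_zero hirr]
    intro h0
    have hpos : 0 < (minpoly L z).natDegree := minpoly.natDegree_pos hint
    have h2 := congrArg (fun f => Polynomial.coeff f ((minpoly L z).natDegree - 1)) h0
    simp only [Polynomial.coeff_derivative, Polynomial.coeff_zero] at h2
    have h3 : (minpoly L z).natDegree - 1 + 1 = (minpoly L z).natDegree := by omega
    rw [h3, (minpoly.monic hint).coeff_natDegree, one_mul] at h2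
    have h4 : (((minpoly L z).natDegree : ℕ) : L) = 0 := by
      rw [← h2, ← h3]
      push_cast
      rfl
    rw [CharP.cast_eq_zero_iff L p] at h4
    exact absurd (Nat.le_of_dvd hpos h4) (not_le.2 (hdeg z))
  obtain ⟨D, hD⟩ := exists_derivs φ hφ hfr (K := K)
  have hlin : ∀ α β : K, α • D 0 + β • D 1 = 0 → α = 0 ∧ β = 0 := by
    intro α β hαβ
    have e0 := congrArg (fun d : Derivation k K K => d (algebraMap L K (φ (X 0)))) hαβ
    have e1 := congrArg (fun d : Derivation k K K => d (algebraMap L K (φ (X 1)))) hαβ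
    simp only [Derivation.add_apply, Derivation.smul_apply, hD, pderiv_X_self,
      pderiv_X_of_ne (show (0 : Fin 2) ≠ 1 by decide), pderiv_X_of_ne (show (1 : Fin 2) ≠ 0 by decide),
      map_one, map_zero, smul_eq_mul, mul_one, mul_zero, add_zero, zero_add,
      Derivation.zero_apply] at e0 e1
    exact ⟨e0, e1⟩
  have hTh := Th_ne_zero hK h hx hy hx0 hy1 hgen hlin
  apply hTh
  have hN : Module.finrank L K ≤ (p - 2) + 1 := by
    have := hp.out.two_le
    omega
  have h0 := span_mon_top (L := L) hx0 hy1 hgen hN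
    ((Algebra.traceForm L K) (Th p x y (D 0) (D 1))) (by
      intro m n hm hn
      rw [Algebra.traceForm_apply, mul_comm]
      exact trace_zero φ hφ hfr D hD hK hdeg h hx hy hm hn)
  have hnd := traceForm_nondegenerate L K
  exact hnd.1 _ (fun z => by rw [h0]; rfl)

end main

end Pool.Agent.Q72.GN
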