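import Pool.Agent.Q72.GN.Res
import Pool.Agent.Q72.GN.Sp
import Pool.Agent.Q72.GN.Dom

/-!
The surface: degree of irrationality.
-/

open MvPolynomial AlgebraicGeometry CategoryTheory Limits TopologicalSpace

namespace Pool.Agent.Q72.GN

open Pool.Agent.Helper198.Sch

attribute [local instance] MvPolynomial.gradedAlgebra

section coords

variable (p : ℕ) [hp : Fact p.Prime] (k : Type) [Field k] [CharP k p]

/-- the `x`-coordinates in the function field -/
noncomputable def xF (m : Fin 3) : (V (JY p k)).functionField := rho p k (0, 1) (frac _ (0, 1) (m, 1))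

/-- the `y`-coordinates in the function field -/
noncomputable def yF (m : Fin 3) : (V (JY p k)).functionField := rho p k (0, 1) (frac _ (0, 1) (0, m))

lemma xF_ne (m : Fin 3) : xF p k m ≠ 0 := rho_frac_ne_zero p k _ _

lemma yF_ne (m : Fin 3) : yF p k m ≠ 0 := rho_frac_ne_zero p k _ _

lemma xF_zero : xF p k 0 = 1 := by
  unfold xF
  rw [frac_self, map_one]

lemma yF_one : yF p k 1 = 1 := by
  unfold yF
  rw [frac_self, map_one]

omit [CharP k p] in
lemma ptY_of_hom {F : Type} [Field F] (t : Tri) (ρ : Ch (JY p k) t.c →+* F) :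
    PtY p (fun m => ρ (frac _ t.c (m, t.j))) (fun m => ρ (frac _ t.c (t.i, m))) := by
  have hs := satY_frac (R := k) p t.c
  have hc : frac (JY p k) t.c t.c = 1 := frac_self _ _
  have hcij : ρ (frac (JY p k) t.c (t.i, t.j)) = 1 := by
    have : frac (JY p k) t.c (t.i, t.j) = 1 := hc
    rw [this, map_one]
  constructor
  · have h := congrArg ρ (hs.rel1 t hp.out.ne_zero hc)
    rw [t.sum]
    change ρ (frac _ t.c (t.i, t.j)) * (ρ (frac _ t.c (t.i, t.i))) ^ p +
      ρ (frac _ t.c (t.j, t.j)) * (ρ (frac _ t.c (t.i, t.j))) ^ p +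
      ρ (frac _ t.c (t.l, t.j)) * (ρ (frac _ t.c (t.i, t.l))) ^ p = 0
    rw [hcij, h]
    simp only [map_neg, map_add, map_mul, map_pow, one_pow]
    ring
  · have h := congrArg ρ (hs.rel2 t hp.out.ne_zero hc)
    rw [map_zero, map_add, map_add, map_mul, map_pow, map_pow] at h
    rw [t.sum]
    change (ρ (frac _ t.c (t.i, t.j))) ^ p * ρ (frac _ t.c (t.i, t.i)) +
      (ρ (frac _ t.c (t.j, t.j))) ^ p * ρ (frac _ t.c (t.i, t.j)) +
      (ρ (frac _ t.c (t.l, t.j))) ^ p * ρ (frac _ t.c (t.i, t.l)) = 0
    rw [hcij, one_pow]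
    linear_combination h

lemma ptF : PtY p (xF p k) (yF p k) := ptY_of_hom p k t0 (rho p k (0, 1))

lemma genF :
    letI : Algebra k (V (JY p k)).functionField := (constants (V.str (JY p k))).toAlgebra
    IntermediateField.adjoin k (Set.range (xF p k) ∪ Set.range (yF p k)) = ⊤ := by
  let _ : Algebra k (V (JY p k)).functionField := (constants (V.str (JY p k))).toAlgebra
  rw [eq_top_iff]
  intro z _
  have hs := satY_frac (R := k) p t0.c
  have hc : frac (JY p k) t0.c t0.c = 1 := frac_self _ _
  have key : ∀ a : Ch (JY p k) (0, 1), rho p k (0, 1) a ∈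
      IntermediateField.adjoin k (Set.range (xF p k) ∪ Set.range (yF p k)) := by
    intro a
    obtain ⟨f, rfl⟩ := aeval_frac_surjective (JY p k) (0, 1) a
    induction f using MvPolynomial.induction_on with
    | C r =>
      rw [aeval_C, ← constants_rho]
      exact IntermediateField.algebraMap_mem _ r
    | add f g hf hg => rw [map_add, map_add]; exact add_mem hf hg
    | mul_X f c hf =>
      rw [map_mul, map_mul, aeval_X]
      refine mul_mem hf ?_
      obtain ⟨c1, c2⟩ := c
      have h1 : frac (JY p k) (0, 1) (c1, c2) =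
          frac (JY p k) (0, 1) (c1, 1) * frac (JY p k) (0, 1) (0, c2) := hs.prod t0 hc c1 c2
      rw [h1, map_mul]
      exact mul_mem (IntermediateField.subset_adjoin k _ (Or.inl ⟨c1, rfl⟩))
        (IntermediateField.subset_adjoin k _ (Or.inr ⟨c2, rfl⟩))
  obtain ⟨a, b, -, rfl⟩ := exists_frac (V.chart (JY p k) (0, 1)) (rho_spec p k (0, 1)) z
  exact div_mem (key a) (key b)

theorem lower_bound [IsAlgClosed k] (h : Fin 3 → (V (JY p k)).functionField)
    (hdom : Dominant (V.str (JY p k)) h) : (p : Cardinal.{0}) ≤ degree (V.str (JY p k)) h := by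
  let _ : Algebra k (V (JY p k)).functionField := (constants (V.str (JY p k))).toAlgebra
  by_contra hcon
  rw [not_le] at hcon
  change Module.rank (IntermediateField.adjoin k
    {z : (V (JY p k)).functionField | ∃ i j, z = h i / h j}) (V (JY p k)).functionField < p at hcon
  obtain ⟨φ, hφ, hfr⟩ := dom_struct hdom
  have hfin : FiniteDimensional (IntermediateField.adjoin k
      {z : (V (JY p k)).functionField | ∃ i j, z = h i / h j}) (V (JY p k)).functionField :=
    Module.rank_lt_aleph0_iff.1 (hcon.trans Cardinal.natCast_lt_aleph0)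
  rw [← Module.finrank_eq_rank, Nat.cast_lt] at hcon
  have h1 := no_small_degree φ hφ hfr (ptF p k) (xF_ne p k) (yF_ne p k) (xF_zero p k)
    (yF_one p k) (genF p k)
  omega

end coords

end Pool.Agent.Q72.GN
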