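import Pool.Agent.Q72.GN.Core

/-!
The places of the projective plane.
-/

open MvPolynomial

namespace Pool.Agent.Q72.GN

section poly

variable {k : Type} [Field k] {p : ℕ} [hp : Fact p.Prime] [CharP k p] [IsAlgClosed k]

omit hp [CharP k p] [IsAlgClosed k] in
lemma td_pderiv_le {σ : Type} (g : MvPolynomial σ k) (i : σ) (d : ℕ)
    (h : g.totalDegree ≤ d + 1) : (pderiv i g).totalDegree ≤ d := by
  classical
  refine Finset.sup_le fun m hm => ?_
  rw [mem_support_iff, coeff_pderiv] at hm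
  have h1 : m + Finsupp.single i 1 ∈ g.support := by
    rw [mem_support_iff]
    intro h0
    apply hm
    rw [h0]
    simp
  have h2 := le_totalDegree h1
  rw [Finsupp.sum_add_index' (fun _ => rfl) (fun _ _ _ => rfl), Finsupp.sum_single_index rfl] at h2
  have h3 : (m.sum fun _ e => e) + 1 ≤ d + 1 := h2.trans h
  exact Nat.le_of_succ_le_succ h3

lemma exists_pow_of_pderiv {g : MvPolynomial (Fin 2) k} (h : ∀ i, pderiv i g = 0) :
    ∃ f, g = f ^ p := by
  classical
  have h1 : ∀ m ∈ g.support, ∀ i, p ∣ m i := by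
    intro m hm i
    by_contra hcon
    have hmi : m i ≠ 0 := fun h0 => hcon (by rw [h0]; exact dvd_zero _)
    have h2 := coeff_pderiv (i := i) g (m - Finsupp.single i 1)
    have h3 : m - Finsupp.single i 1 + Finsupp.single i 1 = m := by
      apply tsub_add_cancel_of_le
      rw [Finsupp.single_le_iff]
      omega
    rw [h i, coeff_zero, h3] at h2
    have h4 : ((m - Finsupp.single i 1 : Fin 2 →₀ ℕ) i : k) + 1 = (m i : k) := by
      have : m i = (m i - 1) + 1 := by omega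
      rw [Finsupp.tsub_apply, Finsupp.single_eq_same, this]
      push_cast
      rfl
    rw [h4] at h2
    rcases mul_eq_zero.1 h2.symm with h5 | h5
    · exact (mem_support_iff.1 hm) h5
    · exact hcon ((CharP.cast_eq_zero_iff k p _).1 h5)
  choose r hr using fun c : k => IsAlgClosed.exists_pow_nat_eq c hp.out.pos
  refine ⟨∑ m ∈ g.support, monomial (m.mapRange (· / p) (Nat.zero_div p)) (r (coeff m g)), ?_⟩
  rw [sum_pow_char]
  conv_lhs => rw [g.as_sum]
  refine Finset.sum_congr rfl fun m hm => ?_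
  rw [monomial_pow, hr]
  have h5 : p • m.mapRange (· / p) (Nat.zero_div p) = m := by
    ext i
    rw [Finsupp.smul_apply, Finsupp.mapRange_apply, smul_eq_mul]
    exact Nat.mul_div_cancel' (h1 m hm i)
  rw [h5]

variable (p) in
include hp in
lemma exists_pderiv_not_dvd {π : MvPolynomial (Fin 2) k} (hπ : Prime π) :
    ∃ i, ¬ π ∣ pderiv i π := by
  by_contra hcon
  push Not at hcon
  have hd : π.totalDegree ≠ 0 := by
    intro h0
    have h1 := totalDegree_eq_zero_iff_eq_C.1 h0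
    apply hπ.not_isUnit
    rw [h1]
    apply IsUnit.map
    rw [isUnit_iff_ne_zero]
    intro h2
    rw [h2, C_0] at h1
    exact hπ.ne_zero h1
  have h0 : ∀ i, pderiv i π = 0 := by
    intro i
    by_contra hne
    obtain ⟨c, hc⟩ := hcon i
    have hc0 : c ≠ 0 := by
      rintro rfl
      rw [mul_zero] at hc
      exact hne hc
    have h1 := td_pderiv_le π i (π.totalDegree - 1) (by omega)
    rw [hc, totalDegree_mul_of_isDomain hπ.ne_zero hc0] at h1
    omega
  obtain ⟨f, hf⟩ := exists_pow_of_pderiv (p := p) h0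
  have := hπ.irreducible
  rw [hf] at this
  exact not_irreducible_pow hp.out.one_lt.ne' this

end poly

section places

variable {k L : Type} [Field k] [Field L] [Algebra k L]
  (φ : MvPolynomial (Fin 2) k →ₐ[k] L) (hφ : Function.Injective φ)
  (hfr : ∀ l : L, ∃ a b, b ≠ 0 ∧ l = φ a / φ b)

include hφ in
lemma phi_ne {b : MvPolynomial (Fin 2) k} (hb : b ≠ 0) : φ b ≠ 0 := by
  rwa [Ne, map_eq_zero_iff _ hφ]

lemma ne_zero_of_not_dvd {π b : MvPolynomial (Fin 2) k} (h : ¬ π ∣ b) : b ≠ 0 := by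
  rintro rfl
  exact h (dvd_zero _)

include hφ hfr in
lemma fac_at {π : MvPolynomial (Fin 2) k} (hπ : Prime π) {l : L} (hl : l ≠ 0) :
    ∃ (n : ℤ) (a b : MvPolynomial (Fin 2) k), ¬ π ∣ a ∧ ¬ π ∣ b ∧
      l = φ π ^ n * (φ a / φ b) := by
  obtain ⟨a, b, hb, rfl⟩ := hfr l
  have ha : a ≠ 0 := by
    rintro rfl
    apply hl
    simp
  obtain ⟨i, a', ha', rfl⟩ := WfDvdMonoid.max_power_factor ha hπ.irreducible
  obtain ⟨j, b', hb', rfl⟩ := WfDvdMonoid.max_power_factor hb hπ.irreducible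
  refine ⟨i - j, a', b', ha', hb', ?_⟩
  have h1 := phi_ne φ hφ hπ.ne_zero
  have h2 := phi_ne φ hφ (ne_zero_of_not_dvd hb')
  rw [zpow_sub₀ h1, zpow_natCast, zpow_natCast, map_mul, map_mul, map_pow, map_pow]
  field_simp

/-- the local ring at a prime -/
def placeAt (π : MvPolynomial (Fin 2) k) (hπ : Prime π) : ValuationSubring L where
  carrier := {l | ∃ a b, ¬ π ∣ b ∧ l = φ a / φ b}
  mul_mem' := by
    rintro _ _ ⟨a, b, hb, rfl⟩ ⟨a', b', hb', rfl⟩
    refine ⟨a * a', b * b', ?_, by rw [map_mul, map_mul, mul_div_mul_comm]⟩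
    intro h
    rcases hπ.dvd_or_dvd h with h | h
    · exact hb h
    · exact hb' h
  one_mem' := ⟨1, 1, fun h => hπ.not_isUnit (isUnit_of_dvd_one h), by simp⟩
  add_mem' := by
    rintro _ _ ⟨a, b, hb, rfl⟩ ⟨a', b', hb', rfl⟩
    refine ⟨a * b' + b * a', b * b', ?_, ?_⟩
    · intro h
      rcases hπ.dvd_or_dvd h with h | h
      · exact hb h
      · exact hb' h
    · rw [map_add, map_mul, map_mul, map_mul, div_add_div _ _
        (phi_ne φ hφ (ne_zero_of_not_dvd hb)) (phi_ne φ hφ (ne_zero_of_not_dvd hb'))]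
  zero_mem' := ⟨0, 1, fun h => hπ.not_isUnit (isUnit_of_dvd_one h), by simp⟩
  neg_mem' := by
    rintro _ ⟨a, b, hb, rfl⟩
    exact ⟨-a, b, hb, by rw [map_neg, neg_div]⟩
  mem_or_inv_mem' := by
    intro l
    by_cases hl : l = 0
    · left
      exact ⟨0, 1, fun h => hπ.not_isUnit (isUnit_of_dvd_one h), by simp [hl]⟩
    · obtain ⟨n, a, b, ha, hb, rfl⟩ := fac_at φ hφ hfr hπ hl
      have h1 := phi_ne φ hφ hπ.ne_zero
      have h2 := phi_ne φ hφ (ne_zero_of_not_dvd hb)
      have h3 := phi_ne φ hφ (ne_zero_of_not_dvd ha)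
      obtain ⟨m, rfl | rfl⟩ := n.eq_nat_or_neg
      · left
        refine ⟨π ^ m * a, b, hb, ?_⟩
        rw [zpow_natCast, map_mul, map_pow]
        ring
      · right
        refine ⟨π ^ m * b, a, ha, ?_⟩
        rw [zpow_neg, zpow_natCast, map_mul, map_pow]
        field_simp

lemma mem_placeAt {π : MvPolynomial (Fin 2) k} (hπ : Prime π) {l : L} :
    l ∈ placeAt φ hφ hfr π hπ ↔ ∃ a b, ¬ π ∣ b ∧ l = φ a / φ b := Iff.rfl

theorem dv_placeAt {π : MvPolynomial (Fin 2) k} (hπ : Prime π) :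
    DV (placeAt φ hφ hfr π hπ) (φ π) where
  ne := phi_ne φ hφ hπ.ne_zero
  mem := ⟨π, 1, fun h => hπ.not_isUnit (isUnit_of_dvd_one h), by simp⟩
  inv := by
    rintro ⟨a, b, hb, h⟩
    have h1 := phi_ne φ hφ hπ.ne_zero
    have h2 := phi_ne φ hφ (ne_zero_of_not_dvd hb)
    apply hb
    refine ⟨a, hφ ?_⟩
    rw [map_mul]
    field_simp at h
    exact h
  fac := by
    intro l hl
    obtain ⟨n, a, b, ha, hb, h⟩ := fac_at φ hφ hfr hπ hl
    exact ⟨n, φ a / φ b, ⟨a, b, hb, rfl⟩, ⟨b, a, ha, by rw [inv_div]⟩, h⟩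

include hfr hφ in
theorem exists_of_mem_all {l : L} (h : ∀ (π : MvPolynomial (Fin 2) k) (hπ : Prime π),
    l ∈ placeAt φ hφ hfr π hπ) : ∃ f, l = φ f := by
  obtain ⟨a, b, hb, rfl⟩ := hfr l
  obtain ⟨a', b', c, hrel, rfl, rfl⟩ :=
    UniqueFactorizationMonoid.exists_reduced_factors' a b hb
  have hc : c ≠ 0 := left_ne_zero_of_mul hb
  have hb' : b' ≠ 0 := right_ne_zero_of_mul hb
  have h1 := phi_ne φ hφ hc
  have h2 := phi_ne φ hφ hb'
  have h3 : φ (c * a') / φ (c * b') = φ a' / φ b' := by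
    rw [map_mul, map_mul]
    field_simp
  rw [h3] at h ⊢
  by_cases hu : IsUnit b'
  · obtain ⟨e, he⟩ := hu.exists_right_inv
    refine ⟨a' * e, ?_⟩
    rw [div_eq_iff h2, ← map_mul, mul_assoc, mul_comm e, he, mul_one]
  · exfalso
    obtain ⟨π, hπ, hπb⟩ := WfDvdMonoid.exists_irreducible_factor hu hb'
    have hπ' : Prime π := UniqueFactorizationMonoid.irreducible_iff_prime.1 hπ
    obtain ⟨a2, b2, hb2, h4⟩ := h π hπ'
    have h5 := phi_ne φ hφ (ne_zero_of_not_dvd hb2)
    rw [div_eq_div_iff h2 h5, ← map_mul, ← map_mul] at h4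
    have h6 := hφ h4
    have h7 : π ∣ a' * b2 := by
      rw [h6]
      exact dvd_mul_of_dvd_right hπb _
    rcases hπ'.dvd_or_dvd h7 with h8 | h8
    · exact hπ.not_isUnit (hrel h8 hπb)
    · exact hb2 h8

/-! ### the place at infinity -/

/-- the local ring at the line at infinity -/
def placeInf : ValuationSubring L where
  carrier := {l | ∃ a b, b ≠ 0 ∧ a.totalDegree ≤ b.totalDegree ∧ l = φ a / φ b}
  mul_mem' := by
    rintro _ _ ⟨a, b, hb, hab, rfl⟩ ⟨a', b', hb', hab', rfl⟩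
    refine ⟨a * a', b * b', mul_ne_zero hb hb', ?_, by rw [map_mul, map_mul, mul_div_mul_comm]⟩
    rw [totalDegree_mul_of_isDomain hb hb']
    exact (totalDegree_mul _ _).trans (add_le_add hab hab')
  one_mem' := ⟨1, 1, one_ne_zero, le_rfl, by simp⟩
  add_mem' := by
    rintro _ _ ⟨a, b, hb, hab, rfl⟩ ⟨a', b', hb', hab', rfl⟩
    refine ⟨a * b' + b * a', b * b', mul_ne_zero hb hb', ?_, ?_⟩
    · rw [totalDegree_mul_of_isDomain hb hb']
      refine (totalDegree_add _ _).trans (max_le ?_ ?_)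
      · exact (totalDegree_mul _ _).trans (add_le_add hab le_rfl)
      · exact (totalDegree_mul _ _).trans (add_le_add le_rfl hab')
    · rw [map_add, map_mul, map_mul, map_mul, div_add_div _ _
        (phi_ne φ hφ hb) (phi_ne φ hφ hb')]
  zero_mem' := ⟨0, 1, one_ne_zero, by simp, by simp⟩
  neg_mem' := by
    rintro _ ⟨a, b, hb, hab, rfl⟩
    exact ⟨-a, b, hb, by rwa [totalDegree_neg], by rw [map_neg, neg_div]⟩
  mem_or_inv_mem' := by
    intro l
    by_cases hl : l = 0
    · left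
      exact ⟨0, 1, one_ne_zero, by simp, by simp [hl]⟩
    · obtain ⟨a, b, hb, rfl⟩ := hfr l
      have ha : a ≠ 0 := by
        rintro rfl
        apply hl
        simp
      rcases le_total a.totalDegree b.totalDegree with h | h
      · left
        exact ⟨a, b, hb, h, rfl⟩
      · right
        exact ⟨b, a, ha, h, by rw [inv_div]⟩

lemma mem_placeInf {l : L} :
    l ∈ placeInf φ hφ hfr ↔ ∃ a b, b ≠ 0 ∧ a.totalDegree ≤ b.totalDegree ∧ l = φ a / φ b := Iff.rfl

lemma td_X_pow_mul (n : ℕ) {a : MvPolynomial (Fin 2) k} (ha : a ≠ 0) :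
    (X 0 ^ n * a).totalDegree = n + a.totalDegree := by
  rw [totalDegree_mul_of_isDomain (pow_ne_zero _ (X_ne_zero _)) ha, totalDegree_X_pow]

theorem dv_placeInf : DV (placeInf φ hφ hfr) (φ (X 0))⁻¹ where
  ne := inv_ne_zero (phi_ne φ hφ (X_ne_zero _))
  mem := ⟨1, X 0, X_ne_zero _, by simp, by simp⟩
  inv := by
    rintro ⟨a, b, hb, hab, h⟩
    have h2 := phi_ne φ hφ hb
    rw [inv_inv, eq_div_iff h2, ← map_mul] at h
    have h3 := hφ h
    rw [← h3, ← pow_one (X 0), td_X_pow_mul 1 hb] at hab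
    omega
  fac := by
    intro l hl
    obtain ⟨a, b, hb, rfl⟩ := hfr l
    have ha : a ≠ 0 := by
      rintro rfl
      apply hl
      simp
    have h1 := phi_ne φ hφ (b := X 0) (X_ne_zero _)
    have h2 := phi_ne φ hφ hb
    have h3 := phi_ne φ hφ ha
    rcases le_total a.totalDegree b.totalDegree with h | h
    · obtain ⟨n, hn⟩ := Nat.exists_eq_add_of_le h
      refine ⟨n, φ (X 0 ^ n * a) / φ b, ⟨_, b, hb, ?_, rfl⟩, ⟨b, X 0 ^ n * a,
        mul_ne_zero (pow_ne_zero _ (X_ne_zero _)) ha, ?_, by rw [inv_div]⟩, ?_⟩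
      · rw [td_X_pow_mul n ha]; omega
      · rw [td_X_pow_mul n ha]; omega
      · rw [zpow_natCast, inv_pow, map_mul, map_pow]
        field_simp
    · obtain ⟨n, hn⟩ := Nat.exists_eq_add_of_le h
      refine ⟨-n, φ a / φ (X 0 ^ n * b), ⟨a, _, mul_ne_zero (pow_ne_zero _ (X_ne_zero _)) hb, ?_,
        rfl⟩, ⟨X 0 ^ n * b, a, ha, ?_, by rw [inv_div]⟩, ?_⟩
      · rw [td_X_pow_mul n hb]; omega
      · rw [td_X_pow_mul n hb]; omega
      · rw [zpow_neg, zpow_natCast, inv_pow, inv_inv, map_mul, map_pow]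
        field_simp

end places

end Pool.Agent.Q72.GN
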