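import Pool.Agent.Q72.GN.Clo

/-!
The surface: preimages of general lines are rational curves.
-/

open MvPolynomial AlgebraicGeometry CategoryTheory Limits TopologicalSpace

namespace Pool.Agent.Q72.GN

open Pool.Agent.Helper198.Sch

attribute [local instance] MvPolynomial.gradedAlgebra

section luroth

open IntermediateField

variable {k : Type} [Field k] {κ : Type} [Field κ] [Algebra k κ]

theorem exists_generator (e : κ →ₐ[k] RatFunc k) {z : κ} (hz : Transcendental k z) :
    ∃ t : κ, Transcendental k t ∧ IntermediateField.adjoin k {t} = ⊤ := by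
  have hE := RatFunc.Luroth.eq_adjoin_generator (E := e.fieldRange)
  have hgm : RatFunc.Luroth.generator e.fieldRange ∈ e.fieldRange :=
    RatFunc.Luroth.generator_mem
  obtain ⟨t, ht⟩ := hgm
  have ht' : e t = RatFunc.Luroth.generator e.fieldRange := ht
  have htop : IntermediateField.adjoin k {t} = ⊤ := by
    apply IntermediateField.map_injective e
    rw [IntermediateField.adjoin_map, Set.image_singleton, ← AlgHom.fieldRange_eq_map, ht']
    exact hE.symm
  refine ⟨t, ?_, htop⟩
  intro halg
  apply hz
  have h1 : Algebra.IsAlgebraic k (IntermediateField.adjoin k {t}) :=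
    IntermediateField.isAlgebraic_adjoin_simple halg.isIntegral
  have h2 : z ∈ IntermediateField.adjoin k {t} := by rw [htop]; trivial
  have h3 := h1.isAlgebraic ⟨z, h2⟩
  exact (isAlgebraic_algebraMap_iff
    (algebraMap (IntermediateField.adjoin k {t}) κ).injective).2 h3

theorem iInf_rank_eq_one (e : κ →ₐ[k] RatFunc k) {z : κ} (hz : Transcendental k z) :
    (⨅ t : {t : κ // Transcendental k t}, Module.rank (IntermediateField.adjoin k {t.1}) κ) = 1 := by
  obtain ⟨t, ht, htop⟩ := exists_generator e hz
  apply le_antisymm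
  · refine (ciInf_le' _ ⟨t, ht⟩).trans ?_
    have h : Module.rank (IntermediateField.adjoin k {t}) κ = 1 := by
      rw [htop]
      exact IntermediateField.rank_top
    exact h.le
  · have : Nonempty {t : κ // Transcendental k t} := ⟨⟨t, ht⟩⟩
    apply le_ciInf
    intro s
    exact Cardinal.one_le_iff_pos.2 rank_pos

end luroth

lemma factor_cat {P : Scheme.{0}} {B κ : CommRingCat.{0}} (η : Spec κ ⟶ P) (j : Spec B ⟶ P)
    [IsOpenImmersion j] (h : ∀ z, η z ∈ j.opensRange) :
    ∃ ρ : B ⟶ κ, Spec.map ρ ≫ j = η := by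
  have hr : Set.range η ⊆ Set.range j := by
    rintro _ ⟨z, rfl⟩
    exact h z
  refine ⟨Spec.preimage (IsOpenImmersion.lift j η hr), ?_⟩
  rw [Spec.map_preimage]
  exact IsOpenImmersion.lift_fac _ _ _

section residue

variable {p : ℕ} [hp : Fact p.Prime] {k : Type} [Field k] [CharP k p]

theorem gonality_gp [IsAlgClosed k] {b : Fin 3 → k} (hb : ∀ m, b m ≠ 0) :
    gonality (V.str (JY p k)) (gp p hb) = 1 := by
  let X := V (JY p k)
  let g : Spec (.of (RatFunc k)) ⟶ V (JY p k) :=
    ptM (k := k) (ptL (p := p) b) t0.c (xL_ne_zero hb _) (yL_ne_zero hb _)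
  let ξ : V (JY p k) := gp p hb
  have hξ : g (IsLocalRing.closedPoint (RatFunc k)) = gp p hb := rfl
  obtain ⟨e, he⟩ : ∃ e : (V (JY p k)).residueField (gp p hb) ⟶ .of (RatFunc k),
      Spec.map e ≫ (V (JY p k)).fromSpecResidueField (gp p hb) = g :=
    ⟨_, Scheme.descResidueField_stalkClosedPointTo_fromSpecResidueField (RatFunc k) _ g⟩
  obtain ⟨ρ, hρ⟩ := factor_cat ((V (JY p k)).fromSpecResidueField (gp p hb))
    (V.chart (JY p k) t0.c) (by
      intro z
      rw [Scheme.fromSpecResidueField_apply]
      exact ⟨_, rfl⟩)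
  have h1 : ∀ r, e.hom (ρ.hom r) = ptHom (k := k) (ptL (p := p) b) t0.c (xL_ne_zero hb _)
      (yL_ne_zero hb _) r := by
    have h2 : Spec.map (ρ ≫ e) =
        Spec.map (CommRingCat.ofHom (ptHom (k := k) (ptL (p := p) b) t0.c (xL_ne_zero hb _)
          (yL_ne_zero hb _)).toRingHom) := by
      rw [← cancel_mono (V.chart (JY p k) t0.c), Spec.map_comp, Category.assoc, hρ, he]
      rfl
    intro r
    have h3 := Spec.map_injective h2
    exact congrArg (fun φ => φ.hom r) h3
  have h4 : ∀ r : k, e.hom (resConstants (V.str (JY p k)) (gp p hb) r) =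
      algebraMap k (RatFunc k) r := by
    have h5 : Spec.map (CommRingCat.ofHom (resConstants (V.str (JY p k)) (gp p hb)) ≫ e) =
        Spec.map (CommRingCat.ofHom (algebraMap k (RatFunc k))) := by
      rw [Spec.map_comp]
      unfold resConstants
      rw [CommRingCat.ofHom_hom, Spec.map_preimage, ← Category.assoc, he]
      exact ptM_str _ _ _ _
    intro r
    have h3 := Spec.map_injective h5
    exact congrArg (fun φ => φ.hom r) h3
  let _ : Algebra k ((V (JY p k)).residueField (gp p hb)) :=
    (resConstants (V.str (JY p k)) (gp p hb)).toAlgebra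
  let e' : (V (JY p k)).residueField (gp p hb) →ₐ[k] RatFunc k :=
    { e.hom with commutes' := h4 }
  have hz : Transcendental k (ρ.hom (frac _ t0.c (t0.l, t0.j))) := by
    intro h
    have h6 := h.algHom e'
    have h7 : e' (ρ.hom (frac _ t0.c (t0.l, t0.j))) = xL p b t0.l / xL p b t0.i := by
      change e.hom (ρ.hom (frac _ t0.c (t0.l, t0.j))) = _
      rw [h1, ptHom_frac]
      simp only [wn, Tri.c]
      rw [div_self (yL_ne_zero hb t0.j), mul_one]
    rw [h7] at h6
    exact xL_transcendental (p := p) hb t0.hil.symm h6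
  exact iInf_rank_eq_one e' hz

end residue

end Pool.Agent.Q72.GN
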