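import Pool.Agent.Q72.GN.Surf

/-!
The surface as a scheme: charts, integrality, smoothness, projectivity, points.
-/

open MvPolynomial AlgebraicGeometry CategoryTheory Limits TopologicalSpace

namespace Pool.Agent.Q72.GN

open Pool.Agent.Helper198.Sch

attribute [local instance] MvPolynomial.gradedAlgebra

section general

variable {σ : Type} {R : Type} [CommRing R]

lemma isLocalizationElem_eq' (J : HI σ R) (c : σ) {n : ℕ} {f : MvPolynomial σ R}
    (hf : f.IsHomogeneous n) :
    HomogeneousLocalization.Away.isLocalizationElem (gen_mem J c) (mk_mem_qgrad (J := J.toIdeal) hf) =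
      aeval (frac J c) f := by
  apply chVal_injective
  have hu : IsUnit (algebraMap (MvPolynomial σ R ⧸ J.toIdeal) (Localization.Away (gen J c))
    (gen J c) ^ n) := (IsLocalization.Away.algebraMap_isUnit _).pow n
  apply hu.mul_left_cancel
  rw [chVal_aeval J c hf]
  have h : chVal J c (HomogeneousLocalization.Away.isLocalizationElem (gen_mem J c)
      (mk_mem_qgrad (J := J.toIdeal) hf)) =
    Localization.mk (Ideal.Quotient.mk J.toIdeal f ^ 1)
      (⟨gen J c ^ n, ⟨n, rfl⟩⟩ : Submonoid.powers (gen J c)) := rfl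
  rw [h, ← map_pow, ← Localization.mk_one_eq_algebraMap, ← Localization.mk_one_eq_algebraMap,
    Localization.mk_mul, Localization.mk_eq_mk_iff, Localization.r_iff_exists]
  exact ⟨1, by simp⟩

/-- the open subset where the form `f` does not vanish. -/
noncomputable def DF (J : HI σ R) (f : MvPolynomial σ R) : (V J).Opens :=
  Proj.basicOpen (qgrad J.toIdeal) (Ideal.Quotient.mk J.toIdeal f)

lemma mem_DF_iff (J : HI σ R) (f : MvPolynomial σ R) (x : V J) :
    x ∈ DF J f ↔ Ideal.Quotient.mk J.toIdeal f ∉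
      ProjectiveSpectrum.asHomogeneousIdeal (𝒜 := qgrad J.toIdeal) x :=
  Proj.mem_basicOpen _ _ _

lemma chart_mem_basicOpen (J : HI σ R) (c : σ) {n : ℕ} (hn : 0 < n) {f : MvPolynomial σ R}
    (hf : f.IsHomogeneous n) (x : Spec (.of (Ch J c))) :
    V.chart J c x ∈ DF J f ↔ aeval (frac J c) f ∉ x.asIdeal := by
  have h := Proj.awayι_preimage_basicOpen (qgrad J.toIdeal) (gen_mem J c) one_pos
    (mk_mem_qgrad (J := J.toIdeal) hf) hn
  rw [isLocalizationElem_eq' J c hf] at h
  have h2 : x ∈ (Proj.awayι (qgrad J.toIdeal) (gen J c) (gen_mem J c) one_pos ⁻¹ᵁ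
      Proj.basicOpen (qgrad J.toIdeal) (Ideal.Quotient.mk J.toIdeal f)) ↔
      x ∈ PrimeSpectrum.basicOpen (aeval (frac J c) f) := by
    rw [h]
    exact Iff.rfl
  exact h2

/-- Specialization in terms of forms. -/
lemma mem_closure_of_forms (J : HI σ R) (x y : V J)
    (h : ∀ (n : ℕ) (f : MvPolynomial σ R), 0 < n → f.IsHomogeneous n →
      y ∈ DF J f → x ∈ DF J f) :
    y ∈ closure ({x} : Set (V J)) := by
  let x' : ProjectiveSpectrum (qgrad J.toIdeal) := x
  let y' : ProjectiveSpectrum (qgrad J.toIdeal) := y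
  have hle : x' ≤ y' := by
    rw [← ProjectiveSpectrum.as_ideal_le_as_ideal]
    obtain ⟨c, hc⟩ := V.exists_mem_D J y
    have hcy : gen J c ∉ y'.asHomogeneousIdeal := (V.mem_D_iff J c y).1 hc
    -- homogeneous elements
    have hhom : ∀ (n : ℕ) (f : MvPolynomial σ R), f.IsHomogeneous n →
        Ideal.Quotient.mk J.toIdeal f ∈ x'.asHomogeneousIdeal →
        Ideal.Quotient.mk J.toIdeal f ∈ y'.asHomogeneousIdeal := by
      intro n f hf hfx
      by_contra hfy
      have h1 : (f * X c).IsHomogeneous (n + 1) := hf.mul (isHomogeneous_X R c)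
      have h2 : y ∈ DF J (f * X c) := by
        rw [mem_DF_iff, map_mul]
        intro hmem
        rcases y'.isPrime.mem_or_mem hmem with h3 | h3
        · exact hfy h3
        · exact hcy h3
      have h3 := h (n + 1) (f * X c) (Nat.succ_pos n) h1 h2
      rw [mem_DF_iff, map_mul] at h3
      exact h3 (Ideal.mul_mem_right _ (HomogeneousIdeal.toIdeal _) hfx)
    intro a ha
    classical
    obtain ⟨f, rfl⟩ := Ideal.Quotient.mk_surjective a
    have hdec : Ideal.Quotient.mk J.toIdeal f =
        ∑ n ∈ DFinsupp.support (DirectSum.decompose (homogeneousSubmodule σ R) f),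
        Ideal.Quotient.mk J.toIdeal ((DirectSum.decompose (homogeneousSubmodule σ R) f n :
          homogeneousSubmodule σ R n) : MvPolynomial σ R) := by
      rw [← map_sum, DirectSum.sum_support_decompose]
    rw [hdec]
    apply Ideal.sum_mem (I := HomogeneousIdeal.toIdeal _)
    intro n _
    apply hhom n _ (DirectSum.decompose (homogeneousSubmodule σ R) f n).2
    -- the component is in `x`
    have h5 := x'.asHomogeneousIdeal.isHomogeneous n ha
    have h6 : ((DirectSum.decompose (qgrad J.toIdeal) (Ideal.Quotient.mk J.toIdeal f) n :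
        qgrad J.toIdeal n) : MvPolynomial σ R ⧸ J.toIdeal) =
        Ideal.Quotient.mk J.toIdeal ((DirectSum.decompose (homogeneousSubmodule σ R) f n :
          homogeneousSubmodule σ R n) : MvPolynomial σ R) := by
      conv_lhs => rw [hdec]
      rw [DirectSum.decompose_sum, DFinsupp.finsetSum_apply]
      rw [AddSubmonoidClass.coe_finsetSum]
      have h7 : ∀ m ∈ DFinsupp.support (DirectSum.decompose (homogeneousSubmodule σ R) f),
          (((DirectSum.decompose (qgrad J.toIdeal)) (Ideal.Quotient.mk J.toIdeal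
            ((DirectSum.decompose (homogeneousSubmodule σ R) f m :
              homogeneousSubmodule σ R m) : MvPolynomial σ R)) n : qgrad J.toIdeal n) :
              MvPolynomial σ R ⧸ J.toIdeal) =
          if m = n then Ideal.Quotient.mk J.toIdeal
            ((DirectSum.decompose (homogeneousSubmodule σ R) f n :
              homogeneousSubmodule σ R n) : MvPolynomial σ R) else 0 := by
        intro m _
        have hm : Ideal.Quotient.mk J.toIdeal
            ((DirectSum.decompose (homogeneousSubmodule σ R) f m :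
              homogeneousSubmodule σ R m) : MvPolynomial σ R) ∈ qgrad J.toIdeal m :=
          mk_mem_qgrad (DirectSum.decompose (homogeneousSubmodule σ R) f m).2
        split_ifs with hmn
        · subst hmn
          rw [DirectSum.decompose_of_mem_same _ hm]
        · rw [DirectSum.decompose_of_mem_ne _ hm hmn]
      rw [Finset.sum_congr rfl h7, Finset.sum_ite_eq']
      split_ifs
      rfl
    rw [h6] at h5
    exact h5
  exact (ProjectiveSpectrum.le_iff_mem_closure (qgrad J.toIdeal) x' y').1 hle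

end general

section surface

variable {R : Type} [CommRing R] (p : ℕ)

lemma genY_minor (a b c d : Fin 3) :
    gen (JY p R) (a, b) * gen (JY p R) (c, d) = gen (JY p R) (a, d) * gen (JY p R) (c, b) := by
  have h : Ideal.Quotient.mk (JY p R).toIdeal (minorP R ((a, b), (c, d))) = 0 :=
    Ideal.Quotient.eq_zero_iff_mem.2 (mem_ofSet (Or.inl (Or.inl ⟨_, rfl⟩)))
  rw [minorP, map_sub, map_mul, map_mul, sub_eq_zero] at h
  exact h

lemma genY_row (b : Fin 3) :
    ∑ a : Fin 3, gen (JY p R) (b, a) ^ (p - 1) * gen (JY p R) (a, a) = 0 := by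
  have h : Ideal.Quotient.mk (JY p R).toIdeal (powQ p R b) = 0 :=
    Ideal.Quotient.eq_zero_iff_mem.2 (mem_ofSet (Or.inl (Or.inr ⟨_, rfl⟩)))
  rw [powQ, map_sum] at h
  simp only [map_mul, map_pow] at h
  exact h

/-- The six off-diagonal charts cover. -/
lemma exists_triY (x : V (JY p R)) : ∃ t : Tri, x ∈ V.D (JY p R) t.c := by
  obtain ⟨⟨a, b⟩, hab⟩ := V.exists_mem_D (JY p R) x
  by_cases h : a = b
  · subst h
    by_contra hcon
    push Not at hcon
    have hoff : ∀ b c, b ≠ c →
        gen (JY p R) (b, c) ∈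
          ProjectiveSpectrum.asHomogeneousIdeal (𝒜 := qgrad (JY p R).toIdeal) x := by
      intro b c hbc
      obtain ⟨l, h1, h2⟩ := exists_third b c hbc
      have := hcon ⟨b, c, l, hbc, h1, h2⟩
      rw [V.mem_D_iff, not_not] at this
      exact this
    rw [V.mem_D_iff] at hab
    have hdiag : ∀ b, b ≠ a →
        gen (JY p R) (b, b) ∈
          ProjectiveSpectrum.asHomogeneousIdeal (𝒜 := qgrad (JY p R).toIdeal) x := by
      intro b hb
      have h1 : gen (JY p R) (a, a) * gen (JY p R) (b, b) ∈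
          ProjectiveSpectrum.asHomogeneousIdeal (𝒜 := qgrad (JY p R).toIdeal) x := by
        rw [genY_minor p a a b b]
        exact Ideal.mul_mem_right _ (HomogeneousIdeal.toIdeal _) (hoff a b hb.symm)
      rcases x.isPrime.mem_or_mem h1 with h2 | h2
      · exact absurd h2 hab
      · exact h2
    have h1 := genY_row (R := R) p a
    rw [← Finset.add_sum_erase _ _ (Finset.mem_univ a)] at h1
    have h3 : gen (JY p R) (a, a) ^ (p - 1) * gen (JY p R) (a, a) ∈
        ProjectiveSpectrum.asHomogeneousIdeal (𝒜 := qgrad (JY p R).toIdeal) x := by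
      rw [eq_neg_of_add_eq_zero_left h1]
      change -_ ∈ (ProjectiveSpectrum.asHomogeneousIdeal (𝒜 := qgrad (JY p R).toIdeal) x).toIdeal
      rw [Ideal.neg_mem_iff]
      apply Ideal.sum_mem
      intro b hb
      exact Ideal.mul_mem_left _ _ (hdiag b (Finset.ne_of_mem_erase hb))
    rcases x.isPrime.mem_or_mem h3 with h4 | h4
    · exact hab (x.isPrime.mem_of_pow_mem _ h4)
    · exact hab h4
  · obtain ⟨l, h1, h2⟩ := exists_third a b h
    exact ⟨⟨a, b, l, h, h1, h2⟩, hab⟩

end surface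

section points

variable {k : Type} [Field k] {p : ℕ} [hp : Fact p.Prime] [CharP k p]
  {E : Type} [Field E] [Algebra k E]

/-- normalized Segre coordinates of a point of the product of two projective planes -/
def wn (x y : Fin 3 → E) (c : Idx) : Idx → E :=
  fun q => (x q.1 / x c.1) * (y q.2 / y c.2)

lemma wn_self {x y : Fin 3 → E} {c : Idx} (h1 : x c.1 ≠ 0) (h2 : y c.2 ≠ 0) :
    wn x y c c = 1 := by
  simp [wn, h1, h2]

variable (p) in
/-- points of the surface -/
structure PtY (x y : Fin 3 → E) : Prop where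
  h1 : ∑ a, x a * y a ^ p = 0
  h2 : ∑ a, x a ^ p * y a = 0

omit [CharP k p] [Algebra k E] in
lemma PtY.sat {x y : Fin 3 → E} (h : PtY p x y) (c : Idx) : SatY p (wn x y c) := by
  apply satY_prod hp.out.ne_zero (fun a => x a / x c.1) (fun b => y b / y c.2)
  · have : ∀ a : Fin 3, x a / x c.1 * (y a / y c.2) ^ p =
        (x c.1)⁻¹ * (y c.2)⁻¹ ^ p * (x a * y a ^ p) := by
      intro a
      rw [div_eq_mul_inv, div_eq_mul_inv, mul_pow]
      ring
    rw [Finset.sum_congr rfl (fun a _ => this a), ← Finset.mul_sum, h.h1, mul_zero]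
  · have : ∀ a : Fin 3, (x a / x c.1) ^ p * (y a / y c.2) =
        (x c.1)⁻¹ ^ p * (y c.2)⁻¹ * (x a ^ p * y a) := by
      intro a
      rw [div_eq_mul_inv, div_eq_mul_inv, mul_pow]
      ring
    rw [Finset.sum_congr rfl (fun a _ => this a), ← Finset.mul_sum, h.h2, mul_zero]

/-- the homomorphism from a chart ring given by a point. -/
noncomputable def ptHom {x y : Fin 3 → E} (h : PtY p x y) (c : Idx) (h1 : x c.1 ≠ 0)
    (h2 : y c.2 ≠ 0) : Ch (JY p k) c →ₐ[k] E :=
  chLift (JY p k) c (wn x y c) (wn_self h1 h2) (aeval_JY p _ (h.sat c))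

omit [CharP k p] in
lemma ptHom_frac {x y : Fin 3 → E} (h : PtY p x y) (c : Idx) (h1 : x c.1 ≠ 0)
    (h2 : y c.2 ≠ 0) (q : Idx) : ptHom (k := k) h c h1 h2 (frac _ c q) = wn x y c q :=
  chLift_frac _ _ _ _ _ _

omit [CharP k p] in
lemma ptHom_aeval {x y : Fin 3 → E} (h : PtY p x y) (c : Idx) (h1 : x c.1 ≠ 0)
    (h2 : y c.2 ≠ 0) (f : MvPolynomial Idx k) :
    ptHom (k := k) h c h1 h2 (aeval (frac _ c) f) = aeval (wn x y c) f := by
  rw [← AlgHom.comp_apply, comp_aeval]
  congr 2
  funext q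
  exact ptHom_frac h c h1 h2 q

omit [CharP k p] hp in
lemma aeval_wn {x y : Fin 3 → E} (c : Idx) (h1 : x c.1 ≠ 0)
    (h2 : y c.2 ≠ 0) {n : ℕ} {f : MvPolynomial Idx k} (hf : f.IsHomogeneous n) :
    aeval (fun q : Idx => x q.1 * y q.2) f = (x c.1 * y c.2) ^ n * aeval (wn x y c) f := by
  rw [← aeval_scale hf]
  congr 2
  funext q
  simp only [wn]
  field_simp

/-- the point of the scheme given by a point -/
noncomputable def ptM {x y : Fin 3 → E} (h : PtY p x y) (c : Idx) (h1 : x c.1 ≠ 0)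
    (h2 : y c.2 ≠ 0) : Spec (.of E) ⟶ V (JY p k) :=
  Spec.map (CommRingCat.ofHom (ptHom (k := k) h c h1 h2).toRingHom) ≫ V.chart (JY p k) c

omit [CharP k p] in
lemma ptM_str {x y : Fin 3 → E} (h : PtY p x y) (c : Idx) (h1 : x c.1 ≠ 0)
    (h2 : y c.2 ≠ 0) : ptM (k := k) h c h1 h2 ≫ V.str (JY p k) =
      Spec.map (CommRingCat.ofHom (algebraMap k E)) := by
  rw [ptM, Category.assoc, V.chart_str, ← Spec.map_comp, ← CommRingCat.ofHom_comp]
  congr 2
  ext r
  exact (ptHom (k := k) h c h1 h2).commutes r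

/-- the point of the spectrum of a field -/
noncomputable abbrev thePt (F : Type) [Field F] : Spec (CommRingCat.of F) :=
  (IsLocalRing.closedPoint F : PrimeSpectrum F)

/-- the point of the chart -/
noncomputable def ptQ {x y : Fin 3 → E} (h : PtY p x y) (c : Idx) (h1 : x c.1 ≠ 0)
    (h2 : y c.2 ≠ 0) : Spec (.of (Ch (JY p k) c)) :=
  Spec.map (CommRingCat.ofHom (ptHom (k := k) h c h1 h2).toRingHom) (thePt E)

omit [CharP k p] in
lemma mem_ptQ {x y : Fin 3 → E} (h : PtY p x y) (c : Idx) (h1 : x c.1 ≠ 0)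
    (h2 : y c.2 ≠ 0) (r : Ch (JY p k) c) :
    r ∈ (ptQ (k := k) h c h1 h2).asIdeal ↔ ptHom (k := k) h c h1 h2 r = 0 := by
  have : r ∈ (ptQ (k := k) h c h1 h2).asIdeal ↔
    ptHom (k := k) h c h1 h2 r ∈ IsLocalRing.maximalIdeal E := Iff.rfl
  rw [this, IsLocalRing.maximalIdeal_eq_bot, Ideal.mem_bot]

omit [CharP k p] in
lemma ptM_apply {x y : Fin 3 → E} (h : PtY p x y) (c : Idx) (h1 : x c.1 ≠ 0)
    (h2 : y c.2 ≠ 0) : ptM (k := k) h c h1 h2 (thePt E) =
      V.chart (JY p k) c (ptQ (k := k) h c h1 h2) := rfl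

omit [CharP k p] in
lemma ptM_mem_basicOpen {x y : Fin 3 → E} (h : PtY p x y) (c : Idx) (h1 : x c.1 ≠ 0)
    (h2 : y c.2 ≠ 0) {n : ℕ} (hn : 0 < n) {f : MvPolynomial Idx k} (hf : f.IsHomogeneous n) :
    ptM (k := k) h c h1 h2 (thePt E) ∈ DF (JY p k) f ↔
      aeval (fun q : Idx => x q.1 * y q.2) f ≠ 0 := by
  rw [ptM_apply, chart_mem_basicOpen _ _ hn hf, mem_ptQ, ptHom_aeval, aeval_wn c h1 h2 hf]
  have : (x c.1 * y c.2) ^ n ≠ 0 := pow_ne_zero _ (mul_ne_zero h1 h2)
  simp [this]

omit [CharP k p] in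
lemma ptM_mem_D {x y : Fin 3 → E} (h : PtY p x y) (c : Idx) (h1 : x c.1 ≠ 0)
    (h2 : y c.2 ≠ 0) (c' : Idx) (h3 : x c'.1 ≠ 0) (h4 : y c'.2 ≠ 0) :
    ptM (k := k) h c h1 h2 (thePt E) ∈ V.D (JY p k) c' := by
  have := ptM_mem_basicOpen (k := k) h c h1 h2 one_pos (isHomogeneous_X k c')
  rw [aeval_X] at this
  exact this.2 (mul_ne_zero h3 h4)

end points

end Pool.Agent.Q72.GN
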