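import Pool.Agent.Helper198.SchQ

/-!
The surface `∑ x_a y_a^p = 0`, `∑ x_a^p y_a = 0` in `ℙ² × ℙ²` in characteristic `p`, in Segre
coordinates `w_ab = x_a y_b`.
-/

open MvPolynomial

namespace Pool.Agent.Q72.GN

open Pool.Agent.Helper198.Sch

attribute [local instance] MvPolynomial.gradedAlgebra

section frob

variable {E : Type*} [CommRing E] {p : ℕ} [hp : Fact p.Prime]

lemma add_pow_p (hE : (p : E) = 0) (a b : E) : (a + b) ^ p = a ^ p + b ^ p := by
  rcases subsingleton_or_charP hE with h | h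
  · exact Subsingleton.elim _ _
  · exact add_pow_char a b p

lemma neg_pow_p (hE : (p : E) = 0) (a : E) : (-a) ^ p = -a ^ p := by
  have h := add_pow_p hE a (-a)
  rw [add_neg_cancel, zero_pow hp.out.ne_zero] at h
  linear_combination -h

lemma sub_pow_p (hE : (p : E) = 0) (a b : E) : (a - b) ^ p = a ^ p - b ^ p := by
  rw [sub_eq_add_neg, add_pow_p hE, neg_pow_p hE, ← sub_eq_add_neg]

end frob

section eqs

variable {R : Type} [CommRing R]

/-- `sum_a w_ba^(p-1) w_aa`. -/
noncomputable def powQ (p : ℕ) (R : Type) [CommRing R] (b : Fin 3) : MvPolynomial Idx R :=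
  ∑ a : Fin 3, X (b, a) ^ (p - 1) * X (a, a)

/-- equations of the surface. -/
def setY (p : ℕ) (R : Type) [CommRing R] : Set (MvPolynomial Idx R) :=
  Set.range (minorP R) ∪ Set.range (powQ p R) ∪ Set.range (powP p R)

lemma setY_hom (p : ℕ) (R : Type) [CommRing R] : ∀ f ∈ setY p R, ∃ n, f.IsHomogeneous n := by
  rintro f ((⟨q, rfl⟩ | ⟨b, rfl⟩) | ⟨b, rfl⟩)
  · exact ⟨2, ((isHomogeneous_X R _).mul (isHomogeneous_X R _)).sub
      ((isHomogeneous_X R _).mul (isHomogeneous_X R _))⟩
  · exact ⟨1 * (p - 1) + 1, IsHomogeneous.sum _ _ _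
      (fun a _ => ((isHomogeneous_X R _).pow _).mul (isHomogeneous_X R _))⟩
  · exact ⟨1 * (p - 1) + 1, IsHomogeneous.sum _ _ _
      (fun a _ => ((isHomogeneous_X R _).pow _).mul (isHomogeneous_X R _))⟩

/-- ideal of the surface. -/
noncomputable def JY (p : ℕ) (R : Type) [CommRing R] : HI Idx R :=
  HI.ofSet (setY p R) (setY_hom p R)

/-- satisfaction of the equations. -/
structure SatY (p : ℕ) {E : Type*} [CommRing E] (u : Idx → E) : Prop where
  minor : ∀ a b c d, u (a, b) * u (c, d) = u (a, d) * u (c, b)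
  row : ∀ b, ∑ a : Fin 3, u (b, a) ^ (p - 1) * u (a, a) = 0
  col : ∀ b, ∑ a : Fin 3, u (a, b) ^ (p - 1) * u (a, a) = 0

lemma aeval_powQ (p : ℕ) {E : Type*} [CommRing E] [Algebra R E] (u : Idx → E) (b) :
    aeval u (powQ p R b) = ∑ a : Fin 3, u (b, a) ^ (p - 1) * u (a, a) := by
  simp [powQ]

lemma satY_iff (p : ℕ) {E : Type*} [CommRing E] [Algebra R E] (u : Idx → E) :
    (∀ f ∈ setY p R, aeval u f = 0) ↔ SatY p u := by
  constructor
  · intro h
    refine ⟨?_, ?_, ?_⟩
    · intro a b c d
      have := h (minorP R ((a, b), (c, d))) (Or.inl (Or.inl ⟨_, rfl⟩))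
      rw [aeval_minorP] at this
      exact sub_eq_zero.1 this
    · intro b
      have := h (powQ p R b) (Or.inl (Or.inr ⟨_, rfl⟩))
      rwa [aeval_powQ] at this
    · intro b
      have := h (powP p R b) (Or.inr ⟨_, rfl⟩)
      rwa [aeval_powP] at this
  · rintro h f ((⟨q, rfl⟩ | ⟨b, rfl⟩) | ⟨b, rfl⟩)
    · rw [aeval_minorP, h.minor, sub_self]
    · rw [aeval_powQ, h.row]
    · rw [aeval_powP, h.col]

lemma satY_frac (p : ℕ) (c : Idx) : SatY p (frac (JY p R) c) :=
  (satY_iff (R := R) p _).1 (fun f hf => aeval_frac_eq_zero (JY p R) c f (mem_ofSet hf))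

lemma aeval_JY (p : ℕ) {E : Type*} [CommRing E] [Algebra R E] (u : Idx → E) (h : SatY p u) :
    ∀ f ∈ (JY p R).toIdeal, aeval u f = 0 :=
  aeval_ofSet u ((satY_iff p u).2 h)

end eqs

/-- points from `x, y`. -/
lemma satY_prod {p : ℕ} (hp : p ≠ 0) {E : Type*} [CommRing E] (ζ η : Fin 3 → E)
    (h1 : ∑ a, ζ a * η a ^ p = 0) (h2 : ∑ a, ζ a ^ p * η a = 0) :
    SatY p (fun q : Idx => ζ q.1 * η q.2) := by
  have hp' : p - 1 + 1 = p := Nat.sub_add_cancel (Nat.one_le_iff_ne_zero.2 hp)
  refine ⟨?_, ?_, ?_⟩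
  · intro a b c d
    ring
  · intro b
    have : ∀ a : Fin 3, (ζ b * η a) ^ (p - 1) * (ζ a * η a) =
        ζ b ^ (p - 1) * (ζ a * η a ^ p) := by
      intro a
      rw [mul_pow]
      have : η a ^ p = η a ^ (p - 1) * η a := by rw [← pow_succ, hp']
      rw [this]
      ring
    simp only
    rw [Finset.sum_congr rfl (fun a _ => this a), ← Finset.mul_sum, h1, mul_zero]
  · intro b
    have : ∀ a : Fin 3, (ζ a * η b) ^ (p - 1) * (ζ a * η a) =
        η b ^ (p - 1) * (ζ a ^ p * η a) := by
      intro a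
      rw [mul_pow]
      have : ζ a ^ p = ζ a ^ (p - 1) * ζ a := by rw [← pow_succ, hp']
      rw [this]
      ring
    simp only
    rw [Finset.sum_congr rfl (fun a _ => this a), ← Finset.mul_sum, h2, mul_zero]

section analysis

variable {p : ℕ} {E : Type*} [CommRing E] {u : Idx → E} (t : Tri)

lemma SatY.prod (h : SatY p u) (hc : u t.c = 1) (a b : Fin 3) :
    u (a, b) = u (a, t.j) * u (t.i, b) := by
  have := h.minor a b t.i t.j
  have hc' : u (t.i, t.j) = 1 := hc
  rw [hc', mul_one] at this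
  exact this

lemma SatY.rel1 (hp : p ≠ 0) (h : SatY p u) (hc : u t.c = 1) :
    u (t.j, t.j) = -(u (t.i, t.i) ^ p + u (t.l, t.j) * u (t.i, t.l) ^ p) := by
  have h1 := h.row t.i
  have hc' : u (t.i, t.j) = 1 := hc
  have hp' : p - 1 + 1 = p := Nat.sub_add_cancel (Nat.one_le_iff_ne_zero.2 hp)
  have h3 : u (t.i, t.l) ^ (p - 1) * (u (t.l, t.j) * u (t.i, t.l)) =
      u (t.l, t.j) * u (t.i, t.l) ^ p := by
    calc _ = u (t.l, t.j) * (u (t.i, t.l) ^ (p - 1) * u (t.i, t.l)) := by ring
      _ = _ := by rw [← pow_succ, hp']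
  rw [t.sum, h.prod t hc t.l t.l, hc', one_pow, one_mul, ← pow_succ, hp', h3] at h1
  linear_combination h1

lemma SatY.rel2 (hp : p ≠ 0) (h : SatY p u) (hc : u t.c = 1) :
    u (t.i, t.i) + u (t.j, t.j) ^ p + u (t.l, t.j) ^ p * u (t.i, t.l) = 0 := by
  have h1 := h.col t.j
  have hc' : u (t.i, t.j) = 1 := hc
  have hp' : p - 1 + 1 = p := Nat.sub_add_cancel (Nat.one_le_iff_ne_zero.2 hp)
  have h3 : u (t.l, t.j) ^ (p - 1) * (u (t.l, t.j) * u (t.i, t.l)) =
      u (t.l, t.j) ^ p * u (t.i, t.l) := by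
    calc _ = (u (t.l, t.j) ^ (p - 1) * u (t.l, t.j)) * u (t.i, t.l) := by ring
      _ = _ := by rw [← pow_succ, hp']
  rw [t.sum, h.prod t hc t.l t.l, hc', one_pow, one_mul, ← pow_succ, hp', h3] at h1
  linear_combination h1

lemma SatY.rel [Fact p.Prime] (hE : (p : E) = 0) (h : SatY p u) (hc : u t.c = 1) :
    (u (t.i, t.l) ^ (p * p) - u (t.i, t.l)) * u (t.l, t.j) ^ p +
      (u (t.i, t.i) ^ (p * p) - u (t.i, t.i)) = 0 := by
  have hp : p ≠ 0 := (Fact.out : p.Prime).ne_zero
  have h1 := h.rel1 t hp hc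
  have h2 := h.rel2 t hp hc
  rw [h1, neg_pow_p hE, add_pow_p hE, mul_pow, ← pow_mul, ← pow_mul] at h2
  linear_combination -h2

end analysis

/-! ### the explicit chart ring of the surface -/

/-- the equation `(y^(p²) - y) z^p + (v^(p²) - v)`, with `z, y, v` the variables `0, 1, 2`. -/
noncomputable def fY (p : ℕ) (R : Type) [CommRing R] : Unit → MvPolynomial (Fin 3) R :=
  fun _ => (X 1 ^ (p * p) - X 1) * X 0 ^ p + (X 2 ^ (p * p) - X 2)

/-- explicit chart ring. -/
abbrev QY (p : ℕ) (R : Type) [CommRing R] : Type :=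
  MvPolynomial (Fin 3) R ⧸ Ideal.span (Set.range (fY p R))

/-- coordinates on the chart -/
noncomputable def qy (p : ℕ) (R : Type) [CommRing R] (s : Fin 3) : QY p R :=
  Ideal.Quotient.mk _ (X s)

lemma qy_rel (p : ℕ) (R : Type) [CommRing R] :
    (qy p R 1 ^ (p * p) - qy p R 1) * qy p R 0 ^ p + (qy p R 2 ^ (p * p) - qy p R 2) = 0 := by
  have : Ideal.Quotient.mk (Ideal.span (Set.range (fY p R))) (fY p R ()) = 0 :=
    Ideal.Quotient.eq_zero_iff_mem.2 (Ideal.subset_span ⟨(), rfl⟩)
  simpa [fY, qy] using this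

section

variable {R : Type} [CommRing R] {p : ℕ} [hp : Fact p.Prime] [CharP R p] (t : Tri)

omit hp in
lemma charp_QY : ((p : ℕ) : QY p R) = 0 := by
  have h : algebraMap R (QY p R) (p : R) = ((p : ℕ) : QY p R) := map_natCast _ p
  rw [← h, CharP.cast_eq_zero, map_zero]

omit hp in
lemma charp_Ch (J : HI Idx R) (c : Idx) : ((p : ℕ) : Ch J c) = 0 := by
  have h : algebraMap R (Ch J c) (p : R) = ((p : ℕ) : Ch J c) := map_natCast _ p
  rw [← h, CharP.cast_eq_zero, map_zero]

/-- the universal point on the explicit chart ring. -/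
noncomputable def uY (p : ℕ) (R : Type) [CommRing R] (t : Tri) : Idx → QY p R :=
  fun q => t.ze (-(qy p R 2 ^ p + qy p R 0 * qy p R 1 ^ p)) (qy p R 0) q.1 *
    t.et (qy p R 2) (qy p R 1) q.2

omit hp [CharP R p] in
lemma uY_c : uY p R t t.c = 1 := by simp [uY, Tri.c]

lemma satY_uY : SatY p (uY p R t) := by
  have hE : ((p : ℕ) : QY p R) = 0 := charp_QY
  apply satY_prod hp.out.ne_zero
  · rw [t.sum]
    simp
  · rw [t.sum]
    simp only [Tri.ze_i, Tri.ze_j, Tri.ze_l, Tri.et_i, Tri.et_j, Tri.et_l, one_pow, one_mul,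
      mul_one]
    rw [neg_pow_p hE, add_pow_p hE, mul_pow, ← pow_mul, ← pow_mul]
    have := qy_rel p R
    linear_combination -this

/-- chart iso, forward. -/
noncomputable def chY_to : Ch (JY p R) t.c →ₐ[R] QY p R :=
  chLift (JY p R) t.c (uY p R t) (uY_c t) (aeval_JY p _ (satY_uY t))

/-- chart iso, backward. -/
noncomputable def chY_from : QY p R →ₐ[R] Ch (JY p R) t.c :=
  Ideal.Quotient.liftₐ _ (aeval ![frac (JY p R) t.c (t.l, t.j), frac (JY p R) t.c (t.i, t.l),
    frac (JY p R) t.c (t.i, t.i)]) (by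
      have h2 : Ideal.span (Set.range (fY p R)) ≤
        RingHom.ker (aeval ![frac (JY p R) t.c (t.l, t.j), frac (JY p R) t.c (t.i, t.l),
          frac (JY p R) t.c (t.i, t.i)] : MvPolynomial (Fin 3) R →ₐ[R] _).toRingHom := by
        rw [Ideal.span_le]
        rintro _ ⟨_, rfl⟩
        change aeval _ (fY p R _) = 0
        have := (satY_frac (R := R) p t.c).rel t (charp_Ch _ _) (frac_self _ _)
        simp [fY]
        linear_combination this
      intro f hf
      exact h2 hf)

lemma chY_from_qy (s : Fin 3) :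
    chY_from (R := R) t (qy p R s) =
      ![frac (JY p R) t.c (t.l, t.j), frac (JY p R) t.c (t.i, t.l),
        frac (JY p R) t.c (t.i, t.i)] s := by
  change aeval _ (X s) = _
  rw [aeval_X]

/-- the chart iso. -/
noncomputable def chY_equiv : Ch (JY p R) t.c ≃ₐ[R] QY p R :=
  AlgEquiv.ofAlgHom (chY_to t) (chY_from t)
    (by
      apply Ideal.Quotient.algHom_ext
      apply MvPolynomial.algHom_ext
      intro s
      change chY_to t (chY_from t (qy p R s)) = qy p R s
      rw [chY_from_qy]
      fin_cases s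
      · change chY_to t (frac (JY p R) t.c (t.l, t.j)) = qy p R 0
        rw [chY_to, chLift_frac]
        simp [uY]
      · change chY_to t (frac (JY p R) t.c (t.i, t.l)) = qy p R 1
        rw [chY_to, chLift_frac]
        simp [uY]
      · change chY_to t (frac (JY p R) t.c (t.i, t.i)) = qy p R 2
        rw [chY_to, chLift_frac]
        simp [uY])
    (by
      have hc : frac (JY p R) t.c t.c = 1 := frac_self _ _
      have hs := satY_frac (R := R) p t.c
      have h0 : chY_from (R := R) t (qy p R 0) = frac (JY p R) t.c (t.l, t.j) :=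
        chY_from_qy t 0
      have h1 : chY_from (R := R) t (qy p R 1) = frac (JY p R) t.c (t.i, t.l) :=
        chY_from_qy t 1
      have h2 : chY_from (R := R) t (qy p R 2) = frac (JY p R) t.c (t.i, t.i) :=
        chY_from_qy t 2
      apply ch_algHom_ext
      rintro ⟨a, b⟩
      rw [AlgHom.comp_apply, AlgHom.id_apply, chY_to, chLift_frac, hs.prod t hc a b, uY, map_mul]
      congr 1
      · rcases t.cases a with rfl | rfl | rfl
        · simp only [Tri.ze_i, map_one]
          exact hc.symm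
        · simp only [Tri.ze_j, map_neg, map_add, map_mul, map_pow, h0, h1, h2]
          exact (hs.rel1 t hp.out.ne_zero hc).symm
        · simp only [Tri.ze_l, h0]
      · rcases t.cases b with rfl | rfl | rfl
        · simp only [Tri.et_i, h2]
        · simp only [Tri.et_j, map_one]
          exact hc.symm
        · simp only [Tri.et_l, h1])

end

section smooth

variable (p : ℕ) (R : Type) [CommRing R]

/-- The presentation with invertible Jacobian. -/
noncomputable def presY : Algebra.PreSubmersivePresentation R (QY p R) (Fin 3) Unit :=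
  Algebra.PreSubmersivePresentation.naive (v := fY p R) pivot pivot_inj

lemma pderiv_fY [CharP R p] : pderiv (2 : Fin 3) (fY p R ()) = -1 := by
  simp [fY, pderiv_X]

lemma presY_jac [CharP R p] : (presY p R).jacobian = -1 := by
  rw [Algebra.PreSubmersivePresentation.jacobian_eq_jacobiMatrix_det]
  have : (presY p R).jacobiMatrix = Matrix.of (fun _ _ => -1) := by
    apply Matrix.ext
    intro i j
    rw [presY, Algebra.PreSubmersivePresentation.jacobiMatrix_naive]
    exact pderiv_fY p R
  rw [this, Matrix.det_unique]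
  simp

instance smooth_QY [CharP R p] : Algebra.IsStandardSmoothOfRelativeDimension 2 R (QY p R) := by
  let P : Algebra.SubmersivePresentation R (QY p R) (Fin 3) Unit :=
    { presY p R with
      jacobian_isUnit := by
        have h : IsUnit (-1 : QY p R) := IsUnit.of_mul_eq_one (-1) (by ring)
        exact (presY_jac p R) ▸ h }
  apply P.isStandardSmoothOfRelativeDimension
  simp [Algebra.Presentation.dimension]

end smooth

section domain

variable (p : ℕ) [hp : Fact p.Prime] (k : Type) [Field k]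

lemma irreducible_fY : Irreducible (fY p k ()) := by
  have hp1 : 1 < p := hp.out.one_lt
  have hpp : 1 < p * p := by nlinarith
  rw [← MulEquiv.irreducible_iff (finSuccEquiv k 2)]
  set A : MvPolynomial (Fin 2) k := X 0 ^ (p * p) - X 0 with hA
  set B : MvPolynomial (Fin 2) k := X 1 ^ (p * p) - X 1 with hB
  have h1 : finSuccEquiv k 2 (fY p k ()) =
      Polynomial.C A * Polynomial.X ^ p + Polynomial.C B := by
    have e1 : finSuccEquiv k 2 (X 1) = Polynomial.C (X 0) := finSuccEquiv_X_succ (j := 0)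
    have e2 : finSuccEquiv k 2 (X 2) = Polynomial.C (X 1) := finSuccEquiv_X_succ (j := 1)
    simp only [fY, map_add, map_mul, map_sub, map_pow, e1, e2, finSuccEquiv_X_zero, hA, hB]
  rw [h1]
  -- the substitution `X 1 = 0`
  let φ : MvPolynomial (Fin 2) k →ₐ[k] Polynomial k := aeval ![Polynomial.X, 0]
  have hker : ∀ f, f ∈ Ideal.span {(X 1 : MvPolynomial (Fin 2) k)} → φ f = 0 := by
    intro f hf
    obtain ⟨g, rfl⟩ := Ideal.mem_span_singleton'.1 hf
    simp [φ]
  have hA0 : φ A ≠ 0 := by
    have : φ A = Polynomial.X ^ (p * p) - Polynomial.X := by simp [φ, hA]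
    rw [this]
    exact (Polynomial.monic_X_pow_sub (by
      rw [Polynomial.degree_X]
      exact_mod_cast hpp)).ne_zero
  have hAne : A ≠ 0 := fun h => hA0 (by rw [h, map_zero])
  have hdeg : (Polynomial.C A * Polynomial.X ^ p + Polynomial.C B).natDegree = p := by
    rw [Polynomial.natDegree_add_C, Polynomial.natDegree_C_mul_X_pow _ _ hAne]
  have hlead : (Polynomial.C A * Polynomial.X ^ p + Polynomial.C B).leadingCoeff = A := by
    rw [Polynomial.leadingCoeff, hdeg]
    simp [hp.out.ne_zero, Polynomial.coeff_C]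
  have hne : (Polynomial.C A * Polynomial.X ^ p + Polynomial.C B) ≠ 0 := by
    intro h
    rw [h, Polynomial.leadingCoeff_zero] at hlead
    exact hAne hlead.symm
  have hprime : (Ideal.span {(X 1 : MvPolynomial (Fin 2) k)}).IsPrime := by
    rw [Ideal.span_singleton_prime (X_ne_zero 1)]
    exact X_prime
  refine Polynomial.irreducible_of_eisenstein_criterion hprime ?_ ?_ ?_ ?_ ?_
  · rw [hlead]
    exact fun h => hA0 (hker _ h)
  · intro n hn
    have hn' : n < p := by
      rw [Polynomial.degree_eq_natDegree hne, hdeg] at hn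
      exact_mod_cast hn
    rw [Polynomial.coeff_add, Polynomial.coeff_C_mul, Polynomial.coeff_X_pow,
      if_neg hn'.ne, mul_zero, zero_add, Polynomial.coeff_C]
    split_ifs with h0
    · rw [hB, Ideal.mem_span_singleton]
      refine dvd_sub ?_ dvd_rfl
      exact dvd_pow_self _ (by omega)
    · exact Ideal.zero_mem _
  · rw [Polynomial.degree_eq_natDegree hne, hdeg]
    exact_mod_cast hp.out.pos
  · have h0 : (Polynomial.C A * Polynomial.X ^ p + Polynomial.C B).coeff 0 = B := by
      simp [hp.out.ne_zero.symm]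
    rw [h0, Ideal.span_singleton_pow, Ideal.mem_span_singleton, hB]
    intro h
    have h2 : (X 1 : MvPolynomial (Fin 2) k) ^ 2 ∣ X 1 := by
      have h3 : (X 1 : MvPolynomial (Fin 2) k) ^ 2 ∣ X 1 ^ (p * p) := pow_dvd_pow _ (by omega)
      have h4 := dvd_sub h3 h
      simpa using h4
    have h5 : (X 1 : MvPolynomial (Fin 2) k) ∣ 1 := by
      obtain ⟨g, hg⟩ := h2
      refine ⟨g, ?_⟩
      apply mul_left_cancel₀ (X_ne_zero (R := k) (1 : Fin 2))
      linear_combination hg
    exact X_prime.not_isUnit (isUnit_of_dvd_one h5)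
  · intro r hr
    rw [Polynomial.C_dvd_iff_dvd_coeff] at hr
    have h2 := hr p
    have h3 := hr 0
    simp only [Polynomial.coeff_add, Polynomial.coeff_C_mul, Polynomial.coeff_X_pow, if_pos,
      mul_one, Polynomial.coeff_C, hp.out.ne_zero, if_false, add_zero] at h2
    have h3' : r ∣ B := by
      simpa [hp.out.ne_zero.symm] using h3
    have hX0 : finSuccEquiv k 1 A = Polynomial.X ^ (p * p) - Polynomial.X := by
      simp only [hA, map_sub, map_pow, finSuccEquiv_X_zero]
    have hX1 : finSuccEquiv k 1 B = Polynomial.C (X 0 ^ (p * p) - X 0) := by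
      have e1 : finSuccEquiv k 1 (X 1) = Polynomial.C (X 0) := finSuccEquiv_X_succ (j := 0)
      simp only [hB, map_sub, map_pow, e1]
    have hm : ∀ {A : Type} [CommRing A] [Nontrivial A],
        (Polynomial.X ^ (p * p) - Polynomial.X : Polynomial A).Monic := by
      intro A _ _
      exact Polynomial.monic_X_pow_sub (by
        rw [Polynomial.degree_X]
        exact_mod_cast hpp)
    have hne' : (X 0 ^ (p * p) - X 0 : MvPolynomial (Fin 1) k) ≠ 0 := by
      intro h
      have h2 := congrArg (fun f => finSuccEquiv k 0 f) h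
      simp only [map_sub, map_pow, finSuccEquiv_X_zero, map_zero] at h2
      exact hm.ne_zero h2
    have hrel : IsRelPrime A B := by
      apply isRelPrime_of_equiv (finSuccEquiv k 1).toRingEquiv
      change IsRelPrime (finSuccEquiv k 1 A) (finSuccEquiv k 1 B)
      rw [hX0, hX1]
      exact isRelPrime_monic_C hm hne'
    exact hrel h2 h3'

instance isDomain_QY : IsDomain (QY p k) := by
  have h1 : Prime (fY p k ()) := (irreducible_fY p k).prime
  have h2 : Set.range (fY p k) = {fY p k ()} := by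
    ext g
    constructor
    · rintro ⟨_, rfl⟩; rfl
    · rintro rfl; exact ⟨(), rfl⟩
  have h3 : (Ideal.span (Set.range (fY p k))).IsPrime := by
    rw [h2, Ideal.span_singleton_prime h1.ne_zero]
    exact h1
  exact Ideal.Quotient.isDomain _

end domain

end Pool.Agent.Q72.GN
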