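import Mathlib

/-!
Tamely ramified extensions and logarithmic derivations: if `K / L` has degree less than the
characteristic, then a derivation of `K` which is logarithmic on a discrete valuation ring of `L`
is logarithmic on every valuation ring of `K` above it.
-/

open Polynomial

namespace Pool.Agent.Q72.GN

section nat

variable {K : Type} [Field K] (V : ValuationSubring K) {p : ℕ} [hp : Fact p.Prime]

lemma natCast_mem (n : ℕ) : ((n : ℕ) : K) ∈ V := by
  induction n with
  | zero => simp [V.zero_mem]
  | succ n ih => push_cast; exact V.add_mem _ _ ih V.one_mem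

lemma val_natCast (hK : (p : K) = 0) {n : ℕ} (h0 : 0 < n) (h1 : n < p) :
    V.valuation (n : K) = 1 := by
  have hcop : IsCoprime (n : ℤ) (p : ℤ) := by
    rw [Nat.isCoprime_iff_coprime]
    exact ((Nat.Prime.coprime_iff_not_dvd hp.out).2 (Nat.not_dvd_of_pos_of_lt h0 h1)).symm
  obtain ⟨a, b, hab⟩ := hcop
  have h2 := congrArg (fun z : ℤ => (z : K)) hab
  push_cast at h2
  rw [hK, mul_zero, add_zero] at h2
  have h3 : V.valuation (n : K) ≤ 1 := (V.valuation_le_one_iff _).2 (natCast_mem V n)
  have h4 : V.valuation (a : K) ≤ 1 := by
    rw [V.valuation_le_one_iff]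
    exact intCast_mem V a
  have h5 := congrArg V.valuation h2
  rw [map_mul, map_one] at h5
  apply le_antisymm h3
  by_contra h6
  push Not at h6
  have : V.valuation (a : K) * V.valuation (n : K) < 1 := by
    calc V.valuation (a : K) * V.valuation (n : K) ≤ 1 * V.valuation (n : K) := by gcongr
      _ < 1 := by rw [one_mul]; exact h6
  exact absurd h5 this.ne

end nat

section relation

variable {L K : Type} [Field L] [Field K] [Algebra L K] (V : ValuationSubring K) {p : ℕ}

/-- a primitive algebraic relation. -/
lemma exists_relation [Algebra.IsAlgebraic L K] (z : K) (hz : (minpoly L z).natDegree < p) :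
    ∃ g : L[X], g.natDegree < p ∧ aeval z g = 0 ∧ (∀ i, V.valuation (algebraMap L K (g.coeff i)) ≤ 1) ∧
      ∃ i, V.valuation (algebraMap L K (g.coeff i)) = 1 := by
  set f := minpoly L z with hf
  have hint : IsIntegral L z := Algebra.IsIntegral.isIntegral z
  obtain ⟨i0, hi0, hmax⟩ := (Finset.range (f.natDegree + 1)).exists_max_image
    (fun i => V.valuation (algebraMap L K (f.coeff i))) ⟨0, by simp⟩
  have hmon : f.Monic := minpoly.monic hint
  have hc0 : f.coeff i0 ≠ 0 := by
    intro h
    have h1 := hmax f.natDegree (by simp)
    rw [h, map_zero, map_zero, hmon.coeff_natDegree, map_one, map_one] at h1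
    exact absurd h1 (not_le.2 zero_lt_one)
  have hc0' : algebraMap L K (f.coeff i0) ≠ 0 := by
    rwa [Ne, map_eq_zero_iff _ (algebraMap L K).injective]
  have hv0 : V.valuation (algebraMap L K (f.coeff i0)) ≠ 0 := (map_ne_zero V.valuation).2 hc0'
  refine ⟨C (f.coeff i0)⁻¹ * f, ?_, ?_, ?_, i0, ?_⟩
  · rw [natDegree_C_mul (inv_ne_zero hc0)]
    exact hz
  · rw [map_mul, hf, minpoly.aeval, mul_zero]
  · intro i
    rw [coeff_C_mul, map_mul, map_inv₀, map_mul, map_inv₀]
    by_cases hi : i ≤ f.natDegree
    · have := hmax i (by simpa using Nat.lt_succ_of_le hi)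
      rw [← div_eq_inv_mul]
      exact div_le_one_of_le₀ this zero_le
    · rw [coeff_eq_zero_of_natDegree_lt (not_le.1 hi), map_zero, map_zero, mul_zero]
      exact zero_le
  · rw [coeff_C_mul, map_mul, map_inv₀, map_mul, map_inv₀, inv_mul_cancel₀ hv0]

/-- the value of a small power is the value of an element of the base field. -/
lemma exists_pow_val [Algebra.IsAlgebraic L K] {z : K} (hz0 : z ≠ 0)
    (hz : (minpoly L z).natDegree < p) :
    ∃ e : ℕ, 0 < e ∧ e < p ∧ ∃ l : L, l ≠ 0 ∧ V.valuation (z ^ e) = V.valuation (algebraMap L K l) := by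
  set f := minpoly L z with hf
  have hint : IsIntegral L z := Algebra.IsIntegral.isIntegral z
  have hmon : f.Monic := minpoly.monic hint
  let T : ℕ → K := fun i => algebraMap L K (f.coeff i) * z ^ i
  have hsum : ∑ i ∈ Finset.range (f.natDegree + 1), T i = 0 := by
    have h := minpoly.aeval L z
    rw [← hf, aeval_eq_sum_range] at h
    rw [← h]
    refine Finset.sum_congr rfl fun i _ => ?_
    rw [Algebra.smul_def]
  obtain ⟨i0, hi0, hmax⟩ := (Finset.range (f.natDegree + 1)).exists_max_image
    (fun i => V.valuation (T i)) ⟨0, by simp⟩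
  have hT0 : V.valuation (T i0) ≠ 0 := by
    intro h
    have h1 := hmax f.natDegree (by simp)
    rw [h] at h1
    have h2 : T f.natDegree = z ^ f.natDegree := by
      simp only [T]
      rw [hmon.coeff_natDegree, map_one, one_mul]
    rw [h2] at h1
    have h3 : V.valuation (z ^ f.natDegree) = 0 := le_antisymm h1 zero_le
    exact (map_ne_zero V.valuation).2 (pow_ne_zero _ hz0) h3
  have hex : ∃ j ∈ Finset.range (f.natDegree + 1), j ≠ i0 ∧ V.valuation (T j) = V.valuation (T i0) := by
    by_contra hcon
    push Not at hcon
    have h1 : V.valuation (∑ i ∈ (Finset.range (f.natDegree + 1)).erase i0, T i) <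
        V.valuation (T i0) := by
      apply V.valuation.map_sum_lt hT0
      intro j hj
      have hj' := Finset.mem_of_mem_erase hj
      exact lt_of_le_of_ne (hmax j hj') (hcon j hj' (Finset.ne_of_mem_erase hj))
    rw [← Finset.add_sum_erase _ _ hi0] at hsum
    rw [eq_neg_of_add_eq_zero_right hsum, Valuation.map_neg] at h1
    exact lt_irrefl _ h1
  obtain ⟨j, hj, hji, hTj⟩ := hex
  -- comparison of the two indices
  have key : ∀ a b : ℕ, a ∈ Finset.range (f.natDegree + 1) → b ∈ Finset.range (f.natDegree + 1) →
      a < b → V.valuation (T a) = V.valuation (T b) → V.valuation (T a) ≠ 0 →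
      ∃ e : ℕ, 0 < e ∧ e < p ∧ ∃ l : L, l ≠ 0 ∧
        V.valuation (z ^ e) = V.valuation (algebraMap L K l) := by
    intro a b ha hb hab h h0
    have hca : f.coeff a ≠ 0 := by
      intro h1
      apply h0
      simp only [T]
      rw [h1, map_zero, zero_mul, map_zero]
    have hcb : f.coeff b ≠ 0 := by
      intro h1
      apply h0
      rw [h]
      simp only [T]
      rw [h1, map_zero, zero_mul, map_zero]
    have hb' : b < f.natDegree + 1 := by simpa using hb
    refine ⟨b - a, by omega, by omega, f.coeff a / f.coeff b, div_ne_zero hca hcb, ?_⟩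
    have hzb : z ^ b = z ^ a * z ^ (b - a) := by rw [← pow_add]; congr 1; omega
    simp only [T] at h
    rw [hzb, map_mul, map_mul, map_mul] at h
    have hva : V.valuation (z ^ a) ≠ 0 := (map_ne_zero V.valuation).2 (pow_ne_zero _ hz0)
    have hvb : V.valuation (algebraMap L K (f.coeff b)) ≠ 0 :=
      (map_ne_zero V.valuation).2 ((map_ne_zero (algebraMap L K)).2 hcb)
    rw [map_div₀, map_div₀, eq_div_iff hvb]
    apply mul_right_cancel₀ hva
    rw [h]
    ac_rfl
  rcases lt_or_gt_of_ne hji with h | h
  · exact key j i0 hj hi0 h hTj (by rw [hTj]; exact hT0)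
  · exact key i0 j hi0 hj h hTj.symm hT0

end relation

section residue

variable {k L K : Type} [Field k] [Field L] [Field K] [Algebra k K] [Algebra L K]
  (V : ValuationSubring K) {p : ℕ} [hp : Fact p.Prime]

lemma D_sum (D : Derivation k K K) (u : K) (c : ℕ → K) (n : ℕ) :
    D (∑ i ∈ Finset.range n, c i * u ^ i) =
      (∑ i ∈ Finset.range n, c i * (i * u ^ (i - 1))) * D u +
        ∑ i ∈ Finset.range n, u ^ i * D (c i) := by
  rw [map_sum, Finset.sum_mul, ← Finset.sum_add_distrib]
  refine Finset.sum_congr rfl fun i _ => ?_
  rw [Derivation.leibniz, Derivation.leibniz_pow, smul_eq_mul, smul_eq_mul, nsmul_eq_mul,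
    smul_eq_mul]
  ring

/-- separability of the residue field extension. -/
theorem residue_lemma (hK : (p : K) = 0) (D : Derivation k K K) {w : K} (hw : w ≠ 0)
    (h1 : ∀ u ∈ V, V.valuation (D u / w) ≤ 1)
    (h2 : ∀ u, V.valuation u < 1 → V.valuation (D u / w) < 1)
    (h3 : ∀ l : L, V.valuation (algebraMap L K l) ≤ 1 →
      V.valuation (D (algebraMap L K l) / w) < 1) {u : K} (hu : u ∈ V) :
    ∀ (n : ℕ) (g : L[X]), n < p → g.natDegree ≤ n → V.valuation (aeval u g) < 1 →
      (∀ i, V.valuation (algebraMap L K (g.coeff i)) ≤ 1) →
      (∃ i, V.valuation (algebraMap L K (g.coeff i)) = 1) → V.valuation (D u / w) < 1 := by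
  have huv : V.valuation u ≤ 1 := (V.valuation_le_one_iff _).2 hu
  intro n
  induction n with
  | zero =>
    intro g _ hg hgu _ ⟨i, hi⟩
    rw [eq_C_of_natDegree_le_zero hg] at hgu hi
    rw [aeval_C] at hgu
    rw [coeff_C] at hi
    split_ifs at hi with h
    · rw [hi] at hgu
      exact absurd hgu (lt_irrefl _)
    · rw [map_zero, map_zero] at hi
      exact absurd hi zero_ne_one
  | succ n ih =>
    intro g hn hg hgu hgi ⟨i, hi⟩
    have hsum : aeval u g = ∑ i ∈ Finset.range (n + 2), algebraMap L K (g.coeff i) * u ^ i := by
      rw [aeval_eq_sum_range' (n := n + 2) (by omega)]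
      refine Finset.sum_congr rfl fun i _ => ?_
      rw [Algebra.smul_def]
    by_cases htop : V.valuation (algebraMap L K (g.coeff (n + 1))) = 1
    · by_contra hcon
      have hone : V.valuation (D u / w) = 1 := le_antisymm (h1 u hu) (not_lt.1 hcon)
      -- derivative
      have hder : aeval u (derivative g) =
          ∑ i ∈ Finset.range (n + 2), algebraMap L K (g.coeff i) * (i * u ^ (i - 1)) := by
        have : derivative g = ∑ i ∈ Finset.range (n + 2), C (g.coeff i * i) * X ^ (i - 1) := by
          rw [derivative_apply, sum_over_range' _ _ (n + 2) (by omega)]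
          intro m
          simp
        rw [this, map_sum]
        refine Finset.sum_congr rfl fun i _ => ?_
        simp only [map_mul, map_pow, aeval_X, aeval_C, map_natCast]
        ring
      have hD := D_sum D u (fun i => algebraMap L K (g.coeff i)) (n + 2)
      rw [← hsum, ← hder] at hD
      have h5 : V.valuation (D (aeval u g) / w) < 1 := h2 _ hgu
      have h6 : V.valuation (∑ i ∈ Finset.range (n + 2), u ^ i * D (algebraMap L K (g.coeff i)) / w) <
          1 := by
        apply V.valuation.map_sum_lt one_ne_zero
        intro i _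
        rw [mul_div_assoc, map_mul, map_pow]
        calc V.valuation u ^ i * V.valuation (D (algebraMap L K (g.coeff i)) / w)
            ≤ 1 * V.valuation (D (algebraMap L K (g.coeff i)) / w) := by
              gcongr
              exact pow_le_one₀ zero_le huv
          _ < 1 := by rw [one_mul]; exact h3 _ (hgi i)
      have h7 : aeval u (derivative g) * (D u / w) = D (aeval u g) / w -
          ∑ i ∈ Finset.range (n + 2), u ^ i * D (algebraMap L K (g.coeff i)) / w := by
        rw [hD, ← Finset.sum_div]
        field_simp
        ring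
      have h8 : V.valuation (aeval u (derivative g)) < 1 := by
        have h9 : V.valuation (aeval u (derivative g) * (D u / w)) < 1 := by
          rw [h7]
          exact lt_of_le_of_lt (V.valuation.map_sub _ _) (max_lt h5 h6)
        rwa [map_mul, hone, mul_one] at h9
      apply hcon
      apply ih (derivative g) (by omega) (by
        have := natDegree_derivative_le g
        omega) h8
      · intro i
        rw [coeff_derivative, map_mul, map_mul]
        have h9 : V.valuation (algebraMap L K ((i : L) + 1)) ≤ 1 := by
          have : algebraMap L K ((i : L) + 1) = ((i + 1 : ℕ) : K) := by simp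
          rw [this, V.valuation_le_one_iff]
          exact natCast_mem V _
        calc _ ≤ (1 : V.ValueGroup) * 1 := by
              gcongr
              exact hgi _
          _ = 1 := one_mul _
      · refine ⟨n, ?_⟩
        rw [coeff_derivative, map_mul, map_mul, htop, one_mul]
        have : algebraMap L K ((n : L) + 1) = ((n + 1 : ℕ) : K) := by simp
        rw [this]
        exact val_natCast V hK (Nat.succ_pos _) hn
    · have hlt : V.valuation (algebraMap L K (g.coeff (n + 1))) < 1 :=
        lt_of_le_of_ne (hgi _) htop
      have hcoeff : ∀ i, (g - C (g.coeff (n + 1)) * X ^ (n + 1)).coeff i =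
          if i = n + 1 then 0 else g.coeff i := by
        intro i
        rw [coeff_sub, coeff_C_mul, coeff_X_pow]
        split_ifs with h
        · rw [h]; ring
        · ring
      apply ih (g - C (g.coeff (n + 1)) * X ^ (n + 1)) (by omega)
      · rw [natDegree_le_iff_coeff_eq_zero]
        intro m hm
        rw [hcoeff]
        split_ifs with h
        · rfl
        · exact coeff_eq_zero_of_natDegree_lt (by omega)
      · rw [map_sub, map_mul, aeval_C, map_pow, aeval_X]
        refine lt_of_le_of_lt (V.valuation.map_sub _ _) (max_lt hgu ?_)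
        rw [map_mul, map_pow]
        calc V.valuation (algebraMap L K (g.coeff (n + 1))) * V.valuation u ^ (n + 1)
            ≤ V.valuation (algebraMap L K (g.coeff (n + 1))) * 1 := by
              gcongr
              exact pow_le_one₀ zero_le huv
          _ < 1 := by rw [mul_one]; exact hlt
      · intro j
        rw [hcoeff]
        split_ifs
        · rw [map_zero, map_zero]; exact zero_le
        · exact hgi j
      · refine ⟨i, ?_⟩
        rw [hcoeff, if_neg]
        · exact hi
        · rintro rfl
          exact htop hi

end residue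

end Pool.Agent.Q72.GN
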