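import Pool.Agent.Q72.GN.Pl

/-!
Traces of the regular two-forms vanish.
-/

open MvPolynomial

namespace Pool.Agent.Q72.GN

section comb

variable {k : Type} [Field k] (p : ℕ) {K : Type} [Field K] [Algebra k K]

lemma Th_comb (x y : Fin 3 → K) (D1 D2 : Derivation k K K) (α β γ : K) :
    Th p x y (α • D1) (β • D2 - γ • D1) = α * β * Th p x y D1 D2 := by
  unfold Th thX thY crx
  simp only [Derivation.coe_smul, Derivation.coe_sub, Pi.smul_apply, Pi.sub_apply, smul_eq_mul,
    Matrix.cons_val_zero]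
  ring

lemma Th_smul (x y : Fin 3 → K) (D1 D2 : Derivation k K K) (α β : K) :
    Th p x y (α • D1) (β • D2) = α * β * Th p x y D1 D2 := by
  unfold Th thX thY crx
  simp only [Derivation.coe_smul, Pi.smul_apply, smul_eq_mul, Matrix.cons_val_zero]
  ring

lemma Th_swap (x y : Fin 3 → K) (D1 D2 : Derivation k K K) :
    Th p x y D2 D1 = - Th p x y D1 D2 := by
  unfold Th
  ring

end comb

section main

variable {k L K : Type} [Field k] [Field L] [Field K] [Algebra k K] [Algebra L K] [Algebra k L]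
  (φ : MvPolynomial (Fin 2) k →ₐ[k] L) (hφ : Function.Injective φ)
  (hfr : ∀ l : L, ∃ a b, b ≠ 0 ∧ l = φ a / φ b) (D : Fin 2 → Derivation k K K)
  (hD : ∀ i a, D i (algebraMap L K (φ a)) = algebraMap L K (φ (pderiv i a)))

include hφ hD in
lemma D_frac (i : Fin 2) {a b : MvPolynomial (Fin 2) k} (hb : b ≠ 0) :
    D i (algebraMap L K (φ a / φ b)) =
      algebraMap L K (φ (b * pderiv i a - a * pderiv i b) / φ (b * b)) := by
  have h1 : algebraMap L K (φ b) ≠ 0 := (map_ne_zero _).2 (phi_ne φ hφ hb)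
  rw [map_div₀, D_div (D i) h1, hD, hD, map_div₀]
  simp only [map_sub, map_mul]
  rw [pow_two]

variable [FiniteDimensional L K] [Algebra.IsSeparable L K] {p : ℕ} [hp : Fact p.Prime]
  [CharP k p] [IsAlgClosed k]

include hφ hfr hD

theorem trace_place (hK : (p : K) = 0)
    (hdeg : ∀ z : K, (minpoly L z).natDegree < p)
    {x y : Fin 3 → K} (h : PtY p x y) (hx : ∀ m, x m ≠ 0) (hy : ∀ m, y m ≠ 0) {m n : Fin 3 → ℕ}
    (hm : ∑ a, m a = p - 2) (hn : ∑ a, n a = p - 2) {π : MvPolynomial (Fin 2) k} (hπ : Prime π) :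
    Algebra.trace L K (mon x y m n * Th p x y (D 0) (D 1)) ∈ placeAt φ hφ hfr π hπ := by
  obtain ⟨i, hi⟩ := exists_pderiv_not_dvd p hπ
  -- the other index
  have key : ∀ j, Algebra.trace L K (mon x y m n * Th p x y (D i) (D j)) ∈
      placeAt φ hφ hfr π hπ := by
    intro j
    have h1 : ∀ (j : Fin 2), ∀ r ∈ placeAt φ hφ hfr π hπ, ∃ s ∈ placeAt φ hφ hfr π hπ,
        D j (algebraMap L K r) = algebraMap L K s := by
      rintro j _ ⟨a, b, hb, rfl⟩
      refine ⟨_, ⟨b * pderiv j a - a * pderiv j b, b * b, ?_, rfl⟩,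
        D_frac φ hφ D hD j (ne_zero_of_not_dvd hb)⟩
      intro h
      rcases hπ.dvd_or_dvd h with h | h <;> exact hb h
    have hmemφ : ∀ a, φ a ∈ placeAt φ hφ hfr π hπ := fun a =>
      ⟨a, 1, fun h => hπ.not_isUnit (isUnit_of_dvd_one h), by simp⟩
    obtain ⟨r, hr, hr'⟩ := trace_mem_strict (dv_placeAt φ hφ hfr hπ) hK hdeg h hx hy hm hn
      (algebraMap L K (φ π) • D i)
      (algebraMap L K (φ (pderiv i π)) • D j - algebraMap L K (φ (pderiv j π)) • D i)
      (by
        intro r hr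
        obtain ⟨s, hs, hs'⟩ := h1 i r hr
        refine ⟨s, hs, ?_⟩
        rw [Derivation.smul_apply, hs', smul_eq_mul, map_mul])
      (by
        intro r hr
        obtain ⟨s, hs, hs'⟩ := h1 i r hr
        obtain ⟨t, ht, ht'⟩ := h1 j r hr
        refine ⟨φ (pderiv i π) * t - φ (pderiv j π) * s, ?_, ?_⟩
        · exact sub_mem (mul_mem (hmemφ _) ht) (mul_mem (hmemφ _) hs)
        · rw [Derivation.sub_apply, Derivation.smul_apply, Derivation.smul_apply, hs', ht',
            smul_eq_mul, smul_eq_mul, map_sub, map_mul, map_mul])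
      (by
        refine ⟨0, zero_mem _, ?_⟩
        rw [Derivation.sub_apply, Derivation.smul_apply, Derivation.smul_apply, hD, hD,
          smul_eq_mul, smul_eq_mul, mul_zero, map_zero]
        ring)
    rw [Th_comb] at hr'
    have h2 : mon x y m n * (algebraMap L K (φ π) * algebraMap L K (φ (pderiv i π)) *
        Th p x y (D i) (D j)) =
        (φ π * φ (pderiv i π)) • (mon x y m n * Th p x y (D i) (D j)) := by
      rw [Algebra.smul_def, map_mul]
      ring
    rw [h2, map_smul, smul_eq_mul, mul_assoc] at hr'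
    have h3 := mul_left_cancel₀ (phi_ne φ hφ hπ.ne_zero) hr'
    have h4 : (φ (pderiv i π))⁻¹ ∈ placeAt φ hφ hfr π hπ := ⟨1, _, hi, by simp⟩
    have h5 := phi_ne φ hφ (ne_zero_of_not_dvd hi)
    have h6 : Algebra.trace L K (mon x y m n * Th p x y (D i) (D j)) =
        (φ (pderiv i π))⁻¹ * r := by
      rw [← h3]
      field_simp
    rw [h6]
    exact mul_mem h4 hr
  fin_cases i
  · exact key 1
  · have h7 := key 0
    simp only [Fin.mk_one] at h7
    rw [Th_swap, mul_neg, map_neg] at h7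
    exact neg_mem_iff.1 h7

omit [CharP k p] [IsAlgClosed k] in
theorem trace_inf (hK : (p : K) = 0)
    (hdeg : ∀ z : K, (minpoly L z).natDegree < p)
    {x y : Fin 3 → K} (h : PtY p x y) (hx : ∀ m, x m ≠ 0) (hy : ∀ m, y m ≠ 0) {m n : Fin 3 → ℕ}
    (hm : ∑ a, m a = p - 2) (hn : ∑ a, n a = p - 2) :
    φ (X 0) ^ 2 * Algebra.trace L K (mon x y m n * Th p x y (D 0) (D 1)) ∈ placeInf φ hφ hfr := by
  have h1 : ∀ (j : Fin 2), ∀ r ∈ placeInf φ hφ hfr, ∃ s ∈ placeInf φ hφ hfr,
      (algebraMap L K (φ (X 0)) • D j) (algebraMap L K r) = algebraMap L K s := by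
    rintro j _ ⟨a, b, hb, hab, rfl⟩
    refine ⟨_, ⟨X 0 * (b * pderiv j a - a * pderiv j b), b * b, mul_ne_zero hb hb, ?_, rfl⟩, ?_⟩
    · rw [totalDegree_mul_of_isDomain hb hb]
      by_cases h0 : b * pderiv j a - a * pderiv j b = 0
      · rw [h0, mul_zero, totalDegree_zero]
        exact Nat.zero_le _
      · have h2 := td_X_pow_mul 1 h0
        rw [pow_one] at h2
        rw [h2]
        obtain ⟨d, hd⟩ : ∃ d, b.totalDegree = d := ⟨_, rfl⟩
        cases d with
        | zero =>
          exfalso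
          apply h0
          have hda : a.totalDegree = 0 := Nat.le_zero.1 (hd ▸ hab)
          have e1 := totalDegree_eq_zero_iff_eq_C.1 hd
          have e2 := totalDegree_eq_zero_iff_eq_C.1 hda
          rw [e1, e2, pderiv_C, pderiv_C]
          ring
        | succ d =>
          have e1 := td_pderiv_le a j d (hd ▸ hab)
          have e2 := td_pderiv_le b j d hd.le
          have e3 : (b * pderiv j a - a * pderiv j b).totalDegree ≤ 2 * d + 1 := by
            refine (totalDegree_sub _ _).trans (max_le ?_ ?_)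
            · refine (totalDegree_mul _ _).trans ?_
              omega
            · refine (totalDegree_mul _ _).trans ?_
              omega
          omega
    · rw [Derivation.smul_apply, D_frac φ hφ D hD j hb, smul_eq_mul, ← map_mul,
        map_mul φ (X 0) (b * pderiv j a - a * pderiv j b), mul_div_assoc]
  have hX := phi_ne φ hφ (b := X 0) (X_ne_zero _)
  have hXK : algebraMap L K (φ (X 0)) ≠ 0 := (map_ne_zero _).2 hX
  have h2 : ∀ j : Fin 2, ∃ s ∈ placeInf φ hφ hfr,
      (algebraMap L K (φ (X 0)) • D j) (algebraMap L K (φ (X 0))⁻¹) =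
        algebraMap L K ((φ (X 0))⁻¹ * s) := by
    intro j
    refine ⟨-φ (pderiv j (X 0)), neg_mem ?_, ?_⟩
    · refine ⟨pderiv j (X 0), 1, one_ne_zero, ?_, by simp⟩
      rw [pderiv_X, totalDegree_one]
      fin_cases j <;> simp
    · rw [Derivation.smul_apply, map_inv₀, Derivation.leibniz_inv, hD, smul_eq_mul, smul_eq_mul]
      simp only [map_mul, map_neg, map_inv₀]
      field_simp
  have h3 := trace_mem (dv_placeInf φ hφ hfr) hK hdeg h hx hy hm hn
    (algebraMap L K (φ (X 0)) • D 0) (algebraMap L K (φ (X 0)) • D 1) (h1 0) (h1 1) (h2 0) (h2 1)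
  rw [Th_smul] at h3
  have h4 : mon x y m n * (algebraMap L K (φ (X 0)) * algebraMap L K (φ (X 0)) *
      Th p x y (D 0) (D 1)) = (φ (X 0) ^ 2) • (mon x y m n * Th p x y (D 0) (D 1)) := by
    rw [Algebra.smul_def, map_pow]
    ring
  rw [h4, map_smul, smul_eq_mul] at h3
  exact h3

theorem trace_zero (hK : (p : K) = 0)
    (hdeg : ∀ z : K, (minpoly L z).natDegree < p)
    {x y : Fin 3 → K} (h : PtY p x y) (hx : ∀ m, x m ≠ 0) (hy : ∀ m, y m ≠ 0) {m n : Fin 3 → ℕ}
    (hm : ∑ a, m a = p - 2) (hn : ∑ a, n a = p - 2) :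
    Algebra.trace L K (mon x y m n * Th p x y (D 0) (D 1)) = 0 := by
  obtain ⟨f, hf⟩ := exists_of_mem_all φ hφ hfr
    (fun π hπ => trace_place φ hφ hfr D hD hK hdeg h hx hy hm hn hπ)
  obtain ⟨a, b, hb, hab, h1⟩ := trace_inf φ hφ hfr D hD hK hdeg h hx hy hm hn
  rw [hf] at h1 ⊢
  rw [eq_div_iff (phi_ne φ hφ hb), ← map_pow, ← map_mul, ← map_mul] at h1
  have h2 := hφ h1
  by_cases hf0 : f = 0
  · rw [hf0, map_zero]
  · exfalso
    rw [← h2, mul_assoc, td_X_pow_mul 2 (mul_ne_zero hf0 hb),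
      totalDegree_mul_of_isDomain hf0 hb] at hab
    omega

end main

end Pool.Agent.Q72.GN
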