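import Pool.Agent.Q72.GN.Irr

/-!
The projection to the first plane: dominance and degree.
-/

open MvPolynomial AlgebraicGeometry CategoryTheory Limits TopologicalSpace

namespace Pool.Agent.Q72.GN

open Pool.Agent.Helper198.Sch

attribute [local instance] MvPolynomial.gradedAlgebra

lemma rank_le_of_pow {L K : Type} [Field L] [Field K] [Algebra L K] {p : ℕ} (hp : 0 < p) (y : K)
    (c : L) (hc : y ^ p = algebraMap L K c) (htop : IntermediateField.adjoin L {y} = ⊤) :
    Module.rank L K ≤ p := by
  have hmon : (Polynomial.X ^ p - Polynomial.C c : Polynomial L).Monic :=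
    Polynomial.monic_X_pow_sub_C c hp.ne'
  have hev : Polynomial.aeval y (Polynomial.X ^ p - Polynomial.C c : Polynomial L) = 0 := by
    simp [hc]
  have hint : IsIntegral L y := ⟨_, hmon, hev⟩
  have h1 := IntermediateField.adjoin.finrank hint
  have h2 : (minpoly L y).natDegree ≤ p := by
    have h3 := Polynomial.natDegree_le_of_dvd (minpoly.dvd L y hev) hmon.ne_zero
    rwa [Polynomial.natDegree_X_pow_sub_C] at h3
  have hfd : FiniteDimensional L (IntermediateField.adjoin L {y}) :=
    IntermediateField.adjoin.finiteDimensional hint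
  rw [htop] at h1 hfd
  have h4 : FiniteDimensional L K := Module.Finite.equiv IntermediateField.topEquiv.toLinearEquiv
  rw [← Module.finrank_eq_rank, Nat.cast_le, ← IntermediateField.finrank_top', h1]
  exact h2

section dom

variable (p : ℕ) [hp : Fact p.Prime] (k : Type) [Field k] [CharP k p]

theorem dominant_hY : Dominant (V.str (JY p k)) (hY p k) := by
  let _ : Algebra k (V (JY p k)).functionField := (constants (V.str (JY p k))).toAlgebra
  intro d F hF hF0 h0
  let ρA : Ch (JY p k) (0, 1) →ₐ[k] (V (JY p k)).functionField :=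
    { rho p k (0, 1) with commutes' := fun r => (constants_rho p k (0, 1) r).symm }
  have h1 : aeval (hY p k) F = ρA (aeval (fun m => frac (JY p k) (0, 1) (m, 1)) F) := by
    rw [← AlgHom.comp_apply, comp_aeval]
    rfl
  have h2 : aeval (fun m => frac (JY p k) (0, 1) (m, 1)) F = 0 := by
    apply rho_injective (V.chart (JY p k) (0, 1)) (rho_spec p k (0, 1))
    rw [map_zero]
    exact h1.symm.trans h0
  -- the generic point of the plane
  let E := FractionRing (MvPolynomial (Fin 3) k)
  let Xe : Fin 3 → E := fun m => algebraMap (MvPolynomial (Fin 3) k) E (X m)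
  have hE : (p : E) = 0 := by
    have h : algebraMap k E (p : k) = ((p : ℕ) : E) := map_natCast _ p
    rw [← h, CharP.cast_eq_zero, map_zero]
  have hpt := ptY_cr hE Xe
  have hinj : Function.Injective (algebraMap (MvPolynomial (Fin 3) k) E) :=
    IsFractionRing.injective _ _
  have hX0 : Xe 0 ≠ 0 := by
    rw [Ne, map_eq_zero_iff _ hinj]
    exact X_ne_zero _
  have hx0 : (fun a => Xe a ^ p) (0, 1).1 ≠ 0 := pow_ne_zero _ hX0
  have hy1 : cr (p * p) Xe (0, 1).2 ≠ 0 := by
    intro h
    have h3 : algebraMap (MvPolynomial (Fin 3) k) E (cr (p * p) X 1) = 0 := by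
      rw [map_cr']
      exact h
    have h4 := (map_eq_zero_iff _ hinj).1 h3
    let ψ : MvPolynomial (Fin 3) k →ₐ[k] Polynomial k := aeval (lineP (fun _ => (1 : k)))
    have h5 : ψ.toRingHom (cr (p * p) X 1) = 0 := by rw [h4, map_zero]
    rw [map_cr'] at h5
    have h6 : (fun a => ψ.toRingHom (X a)) = lineP (fun _ => (1 : k)) := by
      funext a
      exact aeval_X _ _
    rw [h6] at h5
    exact cr_lineP_ne_zero (one_ne' k) (by nlinarith [hp.out.one_lt]) _ h5
  have h3 := congrArg (ptHom (k := k) hpt (0, 1) hx0 hy1) h2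
  rw [map_zero, ← AlgHom.comp_apply, comp_aeval] at h3
  have h4 : (fun m => (ptHom (k := k) hpt (0, 1) hx0 hy1) (frac (JY p k) (0, 1) (m, 1))) =
      fun m => (Xe 0 ^ p)⁻¹ * Xe m ^ p := by
    funext m
    rw [ptHom_frac]
    simp only [wn]
    rw [div_self hy1]
    ring
  rw [h4, aeval_scale hF] at h3
  have h5 : aeval (fun m => Xe m ^ p) F = 0 :=
    (mul_eq_zero.1 h3).resolve_left (pow_ne_zero _ (inv_ne_zero hx0))
  have h6 : algebraMap (MvPolynomial (Fin 3) k) E (expand p F) = 0 := by
    rw [← h5]
    have : (IsScalarTower.toAlgHom k (MvPolynomial (Fin 3) k) E).comp (expand p) =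
        aeval (fun m => Xe m ^ p) := by
      ext m
      simp [Xe]
    exact congrArg (fun ψ => ψ F) this
  have h7 := (map_eq_zero_iff _ hinj).1 h6
  exact hF0 ((expand_eq_zero hp.out.pos).1 h7)

theorem upper_bound : degree (V.str (JY p k)) (hY p k) ≤ (p : Cardinal.{0}) := by
  let _ : Algebra k (V (JY p k)).functionField := (constants (V.str (JY p k))).toAlgebra
  change Module.rank (IntermediateField.adjoin k
    {z : (V (JY p k)).functionField | ∃ i j, z = hY p k i / hY p k j})
      (V (JY p k)).functionField ≤ p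
  set S : Set (V (JY p k)).functionField := {z | ∃ i j, z = hY p k i / hY p k j} with hS
  have hK : (p : (V (JY p k)).functionField) = 0 := by
    have h : algebraMap k (V (JY p k)).functionField (p : k) =
      ((p : ℕ) : (V (JY p k)).functionField) := map_natCast _ p
    rw [← h, CharP.cast_eq_zero, map_zero]
  have hxm : ∀ m, xF p k m ∈ IntermediateField.adjoin k S := by
    intro m
    apply IntermediateField.subset_adjoin k S
    refine ⟨m, 0, ?_⟩
    change xF p k m = xF p k m / xF p k 0
    rw [xF_zero, div_one]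
  have hpt := ptF p k
  have h1 := hpt.h1
  have h2 := hpt.h2
  rw [Fin.sum_univ_three, xF_zero, yF_one] at h1 h2
  have e0 : yF p k 0 = -(xF p k 1 ^ p + xF p k 2 ^ p * yF p k 2) := by
    rw [one_pow] at h2
    linear_combination h2
  have e0p : yF p k 0 ^ p = -(xF p k 1 ^ (p * p) + xF p k 2 ^ (p * p) * yF p k 2 ^ p) := by
    rw [e0, neg_pow_p hK, add_pow_p hK, mul_pow, ← pow_mul, ← pow_mul]
  have e1 : (xF p k 2 - xF p k 2 ^ (p * p)) * yF p k 2 ^ p = xF p k 1 ^ (p * p) - xF p k 1 := by
    rw [e0p, one_pow] at h1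
    linear_combination h1
  have hpp : 1 < p * p := by nlinarith [hp.out.one_lt]
  have hne : xF p k 2 - xF p k 2 ^ (p * p) ≠ 0 := by
    have hG : (X 2 * X 0 ^ (p * p - 1) - X 2 ^ (p * p) : MvPolynomial (Fin 3) k).IsHomogeneous
        (p * p) := by
      apply IsHomogeneous.sub
      · have h3 := (isHomogeneous_X k (2 : Fin 3)).mul
          (isHomogeneous_X_pow (R := k) (0 : Fin 3) (p * p - 1))
        rwa [show 1 + (p * p - 1) = p * p by omega] at h3
      · exact isHomogeneous_X_pow _ _
    have hG0 : (X 2 * X 0 ^ (p * p - 1) - X 2 ^ (p * p) : MvPolynomial (Fin 3) k) ≠ 0 := by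
      intro h
      have h3 := congrArg (eval (![0, 0, 1] : Fin 3 → k)) h
      simp [show p * p - 1 ≠ 0 by omega] at h3
    have h4 := dominant_hY p k _ _ hG hG0
    intro h5
    apply h4
    rw [map_sub, map_mul, map_pow, map_pow, aeval_X, aeval_X]
    change xF p k 2 * xF p k 0 ^ (p * p - 1) - xF p k 2 ^ (p * p) = 0
    rw [xF_zero, one_pow, mul_one, h5]
  have e2 : yF p k 2 ^ p =
      (xF p k 1 ^ (p * p) - xF p k 1) / (xF p k 2 - xF p k 2 ^ (p * p)) := by
    rw [eq_div_iff hne]
    linear_combination e1
  have hmem : yF p k 2 ^ p ∈ IntermediateField.adjoin k S := by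
    rw [e2]
    exact div_mem (sub_mem (pow_mem (hxm _) _) (hxm _)) (sub_mem (hxm _) (pow_mem (hxm _) _))
  refine rank_le_of_pow hp.out.pos (yF p k 2) ⟨_, hmem⟩ rfl ?_
  have h3 : (⊤ : IntermediateField k (V (JY p k)).functionField) ≤
      (IntermediateField.adjoin (IntermediateField.adjoin k S) {yF p k 2}).restrictScalars k := by
    rw [← genF p k, IntermediateField.adjoin_le_iff]
    have hx' : ∀ m, xF p k m ∈ IntermediateField.adjoin (IntermediateField.adjoin k S)
        {yF p k 2} := fun m =>
      IntermediateField.algebraMap_mem (IntermediateField.adjoin (IntermediateField.adjoin k S)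
        {yF p k 2}) (⟨_, hxm m⟩ : IntermediateField.adjoin k S)
    have hy2 : yF p k 2 ∈ IntermediateField.adjoin (IntermediateField.adjoin k S)
        {yF p k 2} := IntermediateField.mem_adjoin_simple_self _ _
    rintro z (⟨a, rfl⟩ | ⟨a, rfl⟩)
    · exact hx' a
    · fin_cases a
      · change yF p k 0 ∈ IntermediateField.adjoin (IntermediateField.adjoin k S) {yF p k 2}
        rw [e0]
        exact neg_mem (add_mem (pow_mem (hx' _) _) (mul_mem (pow_mem (hx' _) _) hy2))
      · change yF p k 1 ∈ IntermediateField.adjoin (IntermediateField.adjoin k S) {yF p k 2}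
        rw [yF_one]
        exact one_mem _
      · exact hy2
  rw [eq_top_iff]
  intro z _
  exact h3 (show z ∈ (⊤ : IntermediateField k (V (JY p k)).functionField) from trivial)

end dom

end Pool.Agent.Q72.GN
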